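import Pool.Agent.R233.NA.AlgCor

/-!
# MP_357fb8_an : every Banach algebra norm on the algebra is equivalent to one of the two (NA-6)
-/

open Filter Topology

namespace Pool.Agent.R233.NA

namespace AC

section basic

variable {V : Type} [AddCommGroup V] [Module ℂ V] {n : V → ℝ}

lemma bn_zero (hn : IsBNorm n) : n 0 = 0 := by
  have := hn.smul 0 0
  simpa using this

lemma bn_neg (hn : IsBNorm n) (v : V) : n (-v) = n v := by
  have := hn.smul (-1) v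
  simpa using this

lemma bn_nonneg (hn : IsBNorm n) (v : V) : 0 ≤ n v := by
  have h1 := hn.add_le v (-v)
  rw [add_neg_cancel, bn_zero hn, bn_neg hn] at h1
  linarith

lemma bn_sub (hn : IsBNorm n) (v w : V) : n (v - w) ≤ n v + n w := by
  have h1 := hn.add_le v (-w)
  rw [bn_neg hn, ← sub_eq_add_neg] at h1
  exact h1

lemma bn_pos (hn : IsBNorm n) {v : V} (hv : v ≠ 0) : 0 < n v :=
  lt_of_le_of_ne (bn_nonneg hn v) (fun h => hv (hn.eq_zero v h.symm))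

lemma bn_pull {W : Type} [AddCommGroup W] [Module ℂ W] (hn : IsBNorm n)
    (i : W →ₗ[ℂ] V) (j : V →ₗ[ℂ] W) (hij : ∀ w, j (i w) = w) (K : ℝ)
    (hK : ∀ v, n (i (j v)) ≤ K * n v) :
    IsBNorm (fun w => n (i w)) where
  eq_zero w hw := by
    have := hn.eq_zero _ hw
    rw [← hij w, this, map_zero]
  add_le v w := by
    show n (i (v + w)) ≤ n (i v) + n (i w)
    rw [map_add]; exact hn.add_le _ _
  smul c v := by
    show n (i (c • v)) = ‖c‖ * n (i v)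
    rw [map_smul]; exact hn.smul _ _
  complete u hu := by
    obtain ⟨v, hv⟩ := hn.complete (fun k => i (u k)) (by
      intro ε hε
      obtain ⟨N, hN⟩ := hu ε hε
      refine ⟨N, fun a ha b hb => ?_⟩
      have := hN a ha b hb
      simp only [map_sub] at this
      exact this)
    refine ⟨j v, fun ε hε => ?_⟩
    obtain ⟨N, hN⟩ := hv (ε / (|K| + 1)) (by positivity)
    refine ⟨N, fun k hk => ?_⟩
    have h1 : i (u k - j v) = i (j (i (u k) - v)) := by rw [map_sub j, hij]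
    show n (i (u k - j v)) < ε
    rw [h1]
    calc n (i (j (i (u k) - v))) ≤ K * n (i (u k) - v) := hK _
      _ ≤ (|K| + 1) * n (i (u k) - v) := by
          apply mul_le_mul_of_nonneg_right _ (bn_nonneg hn _)
          linarith [le_abs_self K]
      _ < (|K| + 1) * (ε / (|K| + 1)) := by
          apply mul_lt_mul_of_pos_left (hN k hk) (by positivity)
      _ = ε := by field_simp

lemma cor_bd [Mul V] (hn : IsBNorm n) (hm : ∀ a b, n (a * b) ≤ n a * n b)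
    (e e' a : V) : n (e * a * e') ≤ (n e * n e') * n a := by
  calc n (e * a * e') ≤ n (e * a) * n e' := hm _ _
    _ ≤ (n e * n a) * n e' := mul_le_mul_of_nonneg_right (hm _ _) (bn_nonneg hn _)
    _ = _ := by ring

end basic

/-- two-sided equivalence (with nonnegativity) -/
def EQ {V : Type} (N n' : V → ℝ) : Prop :=
  ∃ K : ℝ, 0 < K ∧ ∀ v, 0 ≤ N v ∧ N v ≤ K * n' v ∧ n' v ≤ K * N v

lemma EQ.of_normEquiv {V : Type} {N n' : V → ℝ} (h : NormEquiv n' N) (h0 : ∀ v, 0 ≤ n' v) :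
    EQ N n' := by
  obtain ⟨c, C, hc, hC, H⟩ := h
  refine ⟨C + 1 / c, by positivity, fun v => ?_⟩
  obtain ⟨h1, h2⟩ := H v
  have h3 := h0 v
  have hN : 0 ≤ N v := le_trans (mul_nonneg hc.le h3) h1
  refine ⟨hN, ?_, ?_⟩
  · calc N v ≤ C * n' v := h2
      _ ≤ (C + 1 / c) * n' v := by
        apply mul_le_mul_of_nonneg_right _ h3
        have : 0 < 1 / c := by positivity
        linarith
  · calc n' v = 1 / c * (c * n' v) := by field_simp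
      _ ≤ 1 / c * N v := mul_le_mul_of_nonneg_left h1 (by positivity)
      _ ≤ (C + 1 / c) * N v := by
        apply mul_le_mul_of_nonneg_right _ hN
        linarith

section sep

variable {V : Type} [NormedAddCommGroup V] [NormedSpace ℂ V] {N : V → ℝ}

lemma fun_zero {φ : V →L[ℂ] ℂ} (v : ℕ → V) (w : V) (hv : Tendsto v atTop (𝓝 0))
    (hw : Tendsto (fun k => N (v k - w)) atTop (𝓝 0)) (K : ℝ) (hK : ∀ v, ‖φ v‖ ≤ K * N v) :
    φ w = 0 := by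
  have h1 : Tendsto (fun k => φ (v k)) atTop (𝓝 0) := by
    have := (φ.continuous.tendsto 0).comp hv
    rw [map_zero] at this
    exact this
  have h2 : Tendsto (fun k => φ (v k - w)) atTop (𝓝 0) := by
    apply squeeze_zero_norm (fun k => hK (v k - w))
    simpa using hw.const_mul K
  have h3 : Tendsto (fun k => φ (v k) - φ (v k - w)) atTop (𝓝 (0 - 0)) := h1.sub h2
  have h4 : (fun k => φ (v k) - φ (v k - w)) = fun _ => φ w := by
    funext k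
    rw [map_sub]; ring
  rw [h4, sub_zero] at h3
  exact tendsto_nhds_unique tendsto_const_nhds h3

lemma sepn [CompleteSpace V] (h1 : S_two_norms) (hN : IsBNorm N)
    (hsep : ∀ w : V, (∀ φ : V →L[ℂ] ℂ, (∃ K, ∀ v, ‖φ v‖ ≤ K * N v) → φ w = 0) → w = 0) :
    EQ (fun v : V => ‖v‖) N := by
  obtain ⟨K, hK, ha, hb⟩ := h1 V N hN (fun v w hv hw =>
    hsep w (fun φ ⟨K, hK⟩ => fun_zero v w hv hw K hK))
  exact ⟨K, hK, fun v => ⟨norm_nonneg v, hb v, ha v⟩⟩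

end sep

section main

open Alg

variable {M Z H E₁ E₂ Y C : Type}
    [NormedAddCommGroup M] [NormedSpace ℂ M]
    [NormedAddCommGroup Z] [NormedSpace ℂ Z]
    [NormedAddCommGroup H] [NormedSpace ℂ H]
    [NormedAddCommGroup E₁] [NormedSpace ℂ E₁]
    [NormedAddCommGroup E₂] [NormedSpace ℂ E₂]
    [NormedAddCommGroup Y] [NormedSpace ℂ Y]
    [NormedAddCommGroup C] [NormedSpace ℂ C]
    {D : Dat M Z H E₁ E₂ Y C} {n : Alg D → ℝ}

/-- two-sided domination of a component -/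
def PP (n : Alg D → ℝ) (Nf : Alg D → ℝ) (g : Alg D → Alg D) : Prop :=
  ∃ K : ℝ, 0 < K ∧ ∀ a, 0 ≤ Nf a ∧ Nf a ≤ K * n a ∧ n (g a) ≤ K * Nf a

lemma PP.add (hn : IsBNorm n) {N1 N2 : Alg D → ℝ} {g1 g2 : Alg D → Alg D}
    (h1 : PP n N1 g1) (h2 : PP n N2 g2) :
    PP n (fun a => N1 a + N2 a) (fun a => g1 a + g2 a) := by
  obtain ⟨K1, hK1, H1⟩ := h1
  obtain ⟨K2, hK2, H2⟩ := h2
  refine ⟨K1 + K2, by positivity, fun a => ?_⟩
  obtain ⟨a1, a2, a3⟩ := H1 a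
  obtain ⟨b1, b2, b3⟩ := H2 a
  have h0 := bn_nonneg hn a
  have h3 := hn.add_le (g1 a) (g2 a)
  have e1 := mul_nonneg hK1.le b1
  have e2 := mul_nonneg hK2.le a1
  refine ⟨add_nonneg a1 b1, ?_, ?_⟩
  · show N1 a + N2 a ≤ (K1 + K2) * n a
    linarith
  · show n (g1 a + g2 a) ≤ (K1 + K2) * (N1 a + N2 a)
    linarith

lemma PP_field {V : Type} (hn : IsBNorm n) (i : V → Alg D) (fld : Alg D → V)
    (N : V → ℝ) (K0 : ℝ) (hK0 : ∀ a, n (i (fld a)) ≤ K0 * n a)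
    (hN : EQ N (fun v => n (i v))) :
    PP n (fun a => N (fld a)) (fun a => i (fld a)) := by
  obtain ⟨K, hK, H⟩ := hN
  refine ⟨K * (|K0| + 1), by positivity, fun a => ?_⟩
  obtain ⟨h1, h2, h3⟩ := H (fld a)
  have h4 := hK0 a
  have h5 : K0 * n a ≤ (|K0| + 1) * n a :=
    mul_le_mul_of_nonneg_right (by linarith [le_abs_self K0]) (bn_nonneg hn a)
  refine ⟨h1, ?_, ?_⟩
  · calc N (fld a) ≤ K * n (i (fld a)) := h2
      _ ≤ K * ((|K0| + 1) * n a) := mul_le_mul_of_nonneg_left (h4.trans h5) hK.le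
      _ = K * (|K0| + 1) * n a := by ring
  · calc n (i (fld a)) ≤ K * N (fld a) := h3
      _ ≤ K * (|K0| + 1) * N (fld a) := by
        apply mul_le_mul_of_nonneg_right _ h1
        nlinarith [abs_nonneg K0]

lemma sc {i : ℂ →ₗ[ℂ] Alg D} (hn : IsBNorm n) (s : ℂ) : n (i s) = ‖s‖ * n (i 1) := by
  have : i s = s • i 1 := by rw [← map_smul, smul_eq_mul, mul_one]
  rw [this, hn.smul]

lemma EQ_scalar {i : ℂ →ₗ[ℂ] Alg D} (hn : IsBNorm n) (hi : i 1 ≠ 0) :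
    EQ (fun s : ℂ => ‖s‖) (fun s => n (i s)) := by
  have hp := bn_pos hn hi
  refine ⟨n (i 1) + 1 / n (i 1), by positivity, fun s => ?_⟩
  have h := sc (i := i) hn s
  refine ⟨norm_nonneg s, ?_, ?_⟩
  · show ‖s‖ ≤ _ * n (i s)
    rw [h]
    have : (n (i 1) + 1 / n (i 1)) * (‖s‖ * n (i 1)) = ‖s‖ + ‖s‖ * n (i 1) ^ 2 := by
      field_simp
      ring
    rw [this]
    have := mul_nonneg (norm_nonneg s) (sq_nonneg (n (i 1)))
    linarith
  · show n (i s) ≤ _ * ‖s‖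
    rw [h, add_mul]
    have : 0 ≤ 1 / n (i 1) * ‖s‖ := by positivity
    linarith

-- MAIN PART

lemma bd_a1 (hn : IsBNorm n) (hm : ∀ a b, n (a * b) ≤ n a * n b) (a : Alg D) :
    n (i_a1 D a.a1) ≤ (n (i_a1 D 1) * n (i_a1 D 1)) * n a := by
  have h := cor_bd hn hm (i_a1 D 1) (i_a1 D 1) a
  rwa [cor_a1] at h

lemma bd_a3 (hn : IsBNorm n) (hm : ∀ a b, n (a * b) ≤ n a * n b) (a : Alg D) :
    n (i_a3 D a.a3) ≤ (n (i_a3 D 1) * n (i_a3 D 1)) * n a := by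
  have h := cor_bd hn hm (i_a3 D 1) (i_a3 D 1) a
  rwa [cor_a3] at h

lemma bd_a4 (hn : IsBNorm n) (hm : ∀ a b, n (a * b) ≤ n a * n b) (a : Alg D) :
    n (i_a4 D a.a4) ≤ (n (i_a4 D 1) * n (i_a4 D 1)) * n a := by
  have h := cor_bd hn hm (i_a4 D 1) (i_a4 D 1) a
  rwa [cor_a4] at h

lemma bd_a5 (hn : IsBNorm n) (hm : ∀ a b, n (a * b) ≤ n a * n b) (a : Alg D) :
    n (i_a5 D a.a5) ≤ (n (i_a5 D 1) * n (i_a5 D 1)) * n a := by
  have h := cor_bd hn hm (i_a5 D 1) (i_a5 D 1) a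
  rwa [cor_a5] at h

lemma bd_a6 (hn : IsBNorm n) (hm : ∀ a b, n (a * b) ≤ n a * n b) (a : Alg D) :
    n (i_a6 D a.a6) ≤ (n (i_a6 D 1) * n (i_a6 D 1)) * n a := by
  have h := cor_bd hn hm (i_a6 D 1) (i_a6 D 1) a
  rwa [cor_a6] at h

lemma bd_a7 (hn : IsBNorm n) (hm : ∀ a b, n (a * b) ≤ n a * n b) (a : Alg D) :
    n (i_a7 D a.a7) ≤ (n (i_a7 D 1) * n (i_a7 D 1)) * n a := by
  have h := cor_bd hn hm (i_a7 D 1) (i_a7 D 1) a
  rwa [cor_a7] at h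

lemma bd_p (hn : IsBNorm n) (hm : ∀ a b, n (a * b) ≤ n a * n b) (a : Alg D) :
    n (i_p D a.p) ≤ (n (i_a1 D 1) * n (i_a3 D 1)) * n a := by
  have h := cor_bd hn hm (i_a1 D 1) (i_a3 D 1) a
  rwa [cor_p] at h

lemma bd_q (hn : IsBNorm n) (hm : ∀ a b, n (a * b) ≤ n a * n b) (a : Alg D) :
    n (i_q D a.q) ≤ (n (i_a1 D 1) * n (i_a4 D 1)) * n a := by
  have h := cor_bd hn hm (i_a1 D 1) (i_a4 D 1) a
  rwa [cor_q] at h

lemma bd_x (hn : IsBNorm n) (hm : ∀ a b, n (a * b) ≤ n a * n b) (a : Alg D) :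
    n (i_x D a.x) ≤ (n (i_a1 D 1) * n (i_a5 D 1)) * n a := by
  have h := cor_bd hn hm (i_a1 D 1) (i_a5 D 1) a
  rwa [cor_x] at h

lemma bd_h (hn : IsBNorm n) (hm : ∀ a b, n (a * b) ≤ n a * n b) (a : Alg D) :
    n (i_h D a.h) ≤ (n (i_a1 D 1) * n (i_a6 D 1)) * n a := by
  have h := cor_bd hn hm (i_a1 D 1) (i_a6 D 1) a
  rwa [cor_h] at h

lemma bd_k (hn : IsBNorm n) (hm : ∀ a b, n (a * b) ≤ n a * n b) (a : Alg D) :
    n (i_k D a.k) ≤ (n (i_a1 D 1) * n (i_a7 D 1)) * n a := by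
  have h := cor_bd hn hm (i_a1 D 1) (i_a7 D 1) a
  rwa [cor_k] at h

lemma bd_t (hn : IsBNorm n) (hm : ∀ a b, n (a * b) ≤ n a * n b) (a : Alg D) :
    n (i_t D a.t) ≤ (n (i_a3 D 1) * n (i_a4 D 1)) * n a := by
  have h := cor_bd hn hm (i_a3 D 1) (i_a4 D 1) a
  rwa [cor_t] at h

lemma bd_c (hn : IsBNorm n) (hm : ∀ a b, n (a * b) ≤ n a * n b) (a : Alg D) :
    n (i_c D a.c) ≤ (n (i_a3 D 1) * n (i_a5 D 1)) * n a := by
  have h := cor_bd hn hm (i_a3 D 1) (i_a5 D 1) a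
  rwa [cor_c] at h

lemma bd_g3 (hn : IsBNorm n) (hm : ∀ a b, n (a * b) ≤ n a * n b) (a : Alg D) :
    n (i_g3 D a.g3) ≤ (n (i_a3 D 1) * n (i_a7 D 1)) * n a := by
  have h := cor_bd hn hm (i_a3 D 1) (i_a7 D 1) a
  rwa [cor_g3] at h

lemma bd_g4 (hn : IsBNorm n) (hm : ∀ a b, n (a * b) ≤ n a * n b) (a : Alg D) :
    n (i_g4 D a.g4) ≤ (n (i_a4 D 1) * n (i_a7 D 1)) * n a := by
  have h := cor_bd hn hm (i_a4 D 1) (i_a7 D 1) a
  rwa [cor_g4] at h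

lemma bd_f (hn : IsBNorm n) (hm : ∀ a b, n (a * b) ≤ n a * n b) (a : Alg D) :
    n (i_f D a.f) ≤ (n (i_a5 D 1) * n (i_a7 D 1)) * n a := by
  have h := cor_bd hn hm (i_a5 D 1) (i_a7 D 1) a
  rwa [cor_f] at h

lemma bd_e1 (hn : IsBNorm n) (hm : ∀ a b, n (a * b) ≤ n a * n b) (a : Alg D) :
    n (i_e1 D a.e1) ≤ (n (i_a6 D 1) * n (i_a4 D 1)) * n a := by
  have h := cor_bd hn hm (i_a6 D 1) (i_a4 D 1) a
  rwa [cor_e1] at h

lemma bd_e2 (hn : IsBNorm n) (hm : ∀ a b, n (a * b) ≤ n a * n b) (a : Alg D) :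
    n (i_e2 D a.e2) ≤ (n (i_a6 D 1) * n (i_a5 D 1)) * n a := by
  have h := cor_bd hn hm (i_a6 D 1) (i_a5 D 1) a
  rwa [cor_e2] at h

lemma bd_g6 (hn : IsBNorm n) (hm : ∀ a b, n (a * b) ≤ n a * n b) (a : Alg D) :
    n (i_g6 D a.g6) ≤ (n (i_a6 D 1) * n (i_a7 D 1)) * n a := by
  have h := cor_bd hn hm (i_a6 D 1) (i_a7 D 1) a
  rwa [cor_g6] at h

lemma eq_a1 (hn : IsBNorm n) : EQ (fun s : ℂ => ‖s‖) (fun s => n (i_a1 D s)) :=
  EQ_scalar hn (fun h => one_ne_zero (congrArg Alg.a1 h))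

lemma eq_a3 (hn : IsBNorm n) : EQ (fun s : ℂ => ‖s‖) (fun s => n (i_a3 D s)) :=
  EQ_scalar hn (fun h => one_ne_zero (congrArg Alg.a3 h))

lemma eq_a4 (hn : IsBNorm n) : EQ (fun s : ℂ => ‖s‖) (fun s => n (i_a4 D s)) :=
  EQ_scalar hn (fun h => one_ne_zero (congrArg Alg.a4 h))

lemma eq_a5 (hn : IsBNorm n) : EQ (fun s : ℂ => ‖s‖) (fun s => n (i_a5 D s)) :=
  EQ_scalar hn (fun h => one_ne_zero (congrArg Alg.a5 h))

lemma eq_a6 (hn : IsBNorm n) : EQ (fun s : ℂ => ‖s‖) (fun s => n (i_a6 D s)) :=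
  EQ_scalar hn (fun h => one_ne_zero (congrArg Alg.a6 h))

lemma eq_a7 (hn : IsBNorm n) : EQ (fun s : ℂ => ‖s‖) (fun s => n (i_a7 D s)) :=
  EQ_scalar hn (fun h => one_ne_zero (congrArg Alg.a7 h))

lemma bn_p (hn : IsBNorm n) (hm : ∀ a b, n (a * b) ≤ n a * n b) :
    IsBNorm (fun v => n (i_p D v)) :=
  bn_pull hn (i_p D) (j_p D) (fun _ => rfl) _ (bd_p hn hm)

lemma bn_q (hn : IsBNorm n) (hm : ∀ a b, n (a * b) ≤ n a * n b) :
    IsBNorm (fun v => n (i_q D v)) :=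
  bn_pull hn (i_q D) (j_q D) (fun _ => rfl) _ (bd_q hn hm)

lemma bn_x (hn : IsBNorm n) (hm : ∀ a b, n (a * b) ≤ n a * n b) :
    IsBNorm (fun v => n (i_x D v)) :=
  bn_pull hn (i_x D) (j_x D) (fun _ => rfl) _ (bd_x hn hm)

lemma bn_h (hn : IsBNorm n) (hm : ∀ a b, n (a * b) ≤ n a * n b) :
    IsBNorm (fun v => n (i_h D v)) :=
  bn_pull hn (i_h D) (j_h D) (fun _ => rfl) _ (bd_h hn hm)

lemma eq_k (hn : IsBNorm n) : EQ (fun s : ℂ => ‖s‖) (fun s => n (i_k D s)) :=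
  EQ_scalar hn (fun h => one_ne_zero (congrArg Alg.k h))

lemma eq_t (hn : IsBNorm n) : EQ (fun s : ℂ => ‖s‖) (fun s => n (i_t D s)) :=
  EQ_scalar hn (fun h => one_ne_zero (congrArg Alg.t h))

lemma bn_c (hn : IsBNorm n) (hm : ∀ a b, n (a * b) ≤ n a * n b) :
    IsBNorm (fun v => n (i_c D v)) :=
  bn_pull hn (i_c D) (j_c D) (fun _ => rfl) _ (bd_c hn hm)

lemma bn_g3 (hn : IsBNorm n) (hm : ∀ a b, n (a * b) ≤ n a * n b) :
    IsBNorm (fun v => n (i_g3 D v)) :=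
  bn_pull hn (i_g3 D) (j_g3 D) (fun _ => rfl) _ (bd_g3 hn hm)

lemma bn_g4 (hn : IsBNorm n) (hm : ∀ a b, n (a * b) ≤ n a * n b) :
    IsBNorm (fun v => n (i_g4 D v)) :=
  bn_pull hn (i_g4 D) (j_g4 D) (fun _ => rfl) _ (bd_g4 hn hm)

lemma bn_f (hn : IsBNorm n) (hm : ∀ a b, n (a * b) ≤ n a * n b) :
    IsBNorm (fun v => n (i_f D v)) :=
  bn_pull hn (i_f D) (j_f D) (fun _ => rfl) _ (bd_f hn hm)

lemma bn_e1 (hn : IsBNorm n) (hm : ∀ a b, n (a * b) ≤ n a * n b) :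
    IsBNorm (fun v => n (i_e1 D v)) :=
  bn_pull hn (i_e1 D) (j_e1 D) (fun _ => rfl) _ (bd_e1 hn hm)

lemma bn_e2 (hn : IsBNorm n) (hm : ∀ a b, n (a * b) ≤ n a * n b) :
    IsBNorm (fun v => n (i_e2 D v)) :=
  bn_pull hn (i_e2 D) (j_e2 D) (fun _ => rfl) _ (bd_e2 hn hm)

lemma bn_g6 (hn : IsBNorm n) (hm : ∀ a b, n (a * b) ≤ n a * n b) :
    IsBNorm (fun v => n (i_g6 D v)) :=
  bn_pull hn (i_g6 D) (j_g6 D) (fun _ => rfl) _ (bd_g6 hn hm)

lemma kpos (hn : IsBNorm n) : 0 < n (i_k D 1) :=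
  bn_pos hn (fun h => one_ne_zero (congrArg Alg.k h))

/-- a product landing in the field `k` gives a bound -/
lemma kbd (hn : IsBNorm n) (hm : ∀ a b, n (a * b) ≤ n a * n b) {a b : Alg D} {s : ℂ}
    (h : a * b = i_k D s) : ‖s‖ * n (i_k D 1) ≤ n a * n b := by
  have h1 := hm a b
  rw [h, sc hn] at h1
  exact h1

lemma kbd' (hn : IsBNorm n) (hm : ∀ a b, n (a * b) ≤ n a * n b) {a b : Alg D} {s : ℂ}
    (h : a * b = i_k D s) : ‖s‖ ≤ (n b / n (i_k D 1)) * n a := by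
  have h1 := kbd hn hm h
  have hp := kpos (D := D) hn
  rw [div_mul_eq_mul_div, le_div_iff₀ hp]
  linarith

lemma kbd'' (hn : IsBNorm n) (hm : ∀ a b, n (a * b) ≤ n a * n b) {a b : Alg D} {s : ℂ}
    (h : a * b = i_k D s) : ‖s‖ ≤ (n a / n (i_k D 1)) * n b := by
  have h1 := kbd hn hm h
  have hp := kpos (D := D) hn
  rw [div_mul_eq_mul_div, le_div_iff₀ hp]
  linarith

lemma eq_h [CompleteSpace H] (h1 : S_two_norms) (hn : IsBNorm n)
    (hm : ∀ a b, n (a * b) ≤ n a * n b) :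
    EQ (fun v : H => ‖v‖) (fun v => n (i_h D v)) := by
  apply sepn h1 (bn_h hn hm)
  intro w hw
  apply SeparatingDual.eq_zero_of_forall_dual_eq_zero (R := ℂ)
  intro g
  exact hw g ⟨_, fun v => kbd' hn hm (pr_h_g6 v g)⟩

lemma eq_g6 (h1 : S_two_norms) (hn : IsBNorm n)
    (hm : ∀ a b, n (a * b) ≤ n a * n b) :
    EQ (fun v : H →L[ℂ] ℂ => ‖v‖) (fun v => n (i_g6 D v)) := by
  apply sepn h1 (bn_g6 hn hm)
  intro w hw
  ext v
  exact hw (ContinuousLinearMap.apply ℂ ℂ v) ⟨_, fun g => kbd'' hn hm (pr_h_g6 v g)⟩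

lemma eq_g4 (h1 : S_two_norms) (hn : IsBNorm n)
    (hm : ∀ a b, n (a * b) ≤ n a * n b) :
    EQ (fun v : M →L[ℂ] ℂ => ‖v‖) (fun v => n (i_g4 D v)) := by
  apply sepn h1 (bn_g4 hn hm)
  intro w hw
  ext v
  exact hw (ContinuousLinearMap.apply ℂ ℂ v) ⟨_, fun g => kbd'' hn hm (pr_q_g4 (0, v) g)⟩

lemma eq_g3 (h1 : S_two_norms) (hn : IsBNorm n)
    (hm : ∀ a b, n (a * b) ≤ n a * n b) :
    EQ (fun v : M →L[ℂ] ℂ => ‖v‖) (fun v => n (i_g3 D v)) := by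
  apply sepn h1 (bn_g3 hn hm)
  intro w hw
  ext v
  exact hw (ContinuousLinearMap.apply ℂ ℂ v) ⟨_, fun g => kbd'' hn hm (pr_p_g3 (0, v) g)⟩

lemma eq_f (h1 : S_two_norms) (hn : IsBNorm n)
    (hm : ∀ a b, n (a * b) ≤ n a * n b) :
    EQ (fun v : Z →L[ℂ] ℂ => ‖v‖) (fun v => n (i_f D v)) := by
  apply sepn h1 (bn_f hn hm)
  intro w hw
  ext v
  exact hw (ContinuousLinearMap.apply ℂ ℂ v) ⟨_, fun g => kbd'' hn hm (pr_x_f (0, 0, v) g)⟩

lemma eq_e1 [CompleteSpace E₁] (h1 : S_two_norms) (hn : IsBNorm n)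
    (hm : ∀ a b, n (a * b) ≤ n a * n b) :
    EQ (fun v : E₁ => ‖v‖) (fun v => n (i_e1 D v)) := by
  apply sepn h1 (bn_e1 hn hm)
  intro w hw
  apply D.bM_inj
  intro v
  apply SeparatingDual.eq_zero_of_forall_dual_eq_zero (R := ℂ)
  intro g
  refine hw (ContinuousLinearMap.comp g (D.bM v)) ⟨n (i_g4 D g) / n (i_k D 1) * n (i_h D v),
    fun e => ?_⟩
  have e1 : ‖g (D.bM v e)‖ ≤ (n (i_g4 D g) / n (i_k D 1)) * n (i_q D (0, D.bM v e)) :=
    kbd' hn hm (pr_q_g4 (0, D.bM v e) g)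
  have e2 := hm (i_h D v) (i_e1 D e)
  rw [pr_h_e1] at e2
  have e3 : 0 ≤ n (i_g4 D g) / n (i_k D 1) := div_nonneg (bn_nonneg hn _) (kpos hn).le
  calc ‖g (D.bM v e)‖ ≤ (n (i_g4 D g) / n (i_k D 1)) * n (i_q D (0, D.bM v e)) := e1
    _ ≤ (n (i_g4 D g) / n (i_k D 1)) * (n (i_h D v) * n (i_e1 D e)) :=
      mul_le_mul_of_nonneg_left e2 e3
    _ = _ := by ring

lemma eq_e2 [CompleteSpace E₂] (h1 : S_two_norms) (hn : IsBNorm n)
    (hm : ∀ a b, n (a * b) ≤ n a * n b) :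
    EQ (fun v : E₂ => ‖v‖) (fun v => n (i_e2 D v)) := by
  apply sepn h1 (bn_e2 hn hm)
  intro w hw
  apply D.bZ_inj
  intro v
  apply SeparatingDual.eq_zero_of_forall_dual_eq_zero (R := ℂ)
  intro g
  refine hw (ContinuousLinearMap.comp g (D.bZ v)) ⟨n (i_f D g) / n (i_k D 1) * n (i_h D v),
    fun e => ?_⟩
  have e1 : ‖g (D.bZ v e)‖ ≤ (n (i_f D g) / n (i_k D 1)) * n (i_x D (0, 0, D.bZ v e)) :=
    kbd' hn hm (pr_x_f (0, 0, D.bZ v e) g)
  have e2 := hm (i_h D v) (i_e2 D e)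
  rw [pr_h_e2] at e2
  have e3 : 0 ≤ n (i_f D g) / n (i_k D 1) := div_nonneg (bn_nonneg hn _) (kpos hn).le
  calc ‖g (D.bZ v e)‖ ≤ (n (i_f D g) / n (i_k D 1)) * n (i_x D (0, 0, D.bZ v e)) := e1
    _ ≤ (n (i_f D g) / n (i_k D 1)) * (n (i_h D v) * n (i_e2 D e)) :=
      mul_le_mul_of_nonneg_left e2 e3
    _ = _ := by ring

/-- hypothesis (a) of `S_class` -/
lemma hyp_a (h1 : S_two_norms) (hn : IsBNorm n) (hm : ∀ a b, n (a * b) ≤ n a * n b) :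
    ∃ K : ℝ, ∀ q : ℂ × M, ‖q.2‖ ≤ K * n (i_q D q) := by
  obtain ⟨K, hK, HK⟩ := eq_g4 (D := D) h1 hn hm
  refine ⟨K / n (i_k D 1), fun q => ?_⟩
  obtain ⟨g, hg, hgq⟩ := exists_dual_vector'' ℂ q.2
  have e1 := kbd' hn hm (pr_q_g4 (D := D) q g)
  have e2 : ‖g q.2‖ = ‖q.2‖ := by rw [hgq]; simp
  rw [e2] at e1
  have e3 := (HK g).2.2
  have e4 : n (i_g4 D g) ≤ K := by
    refine e3.trans ?_
    calc K * ‖g‖ ≤ K * 1 := mul_le_mul_of_nonneg_left hg hK.le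
      _ = K := mul_one K
  refine e1.trans (mul_le_mul_of_nonneg_right ?_ (bn_nonneg hn _))
  exact div_le_div_of_nonneg_right e4 (kpos hn).le

/-- hypothesis (b) of `S_class` -/
lemma hyp_b (h1 : S_two_norms) (hn : IsBNorm n) (hm : ∀ a b, n (a * b) ≤ n a * n b) :
    ∃ K : ℝ, ∀ x : ℂ × M × Z, ‖x.2.2‖ ≤ K * n (i_x D x) := by
  obtain ⟨K, hK, HK⟩ := eq_f (D := D) h1 hn hm
  refine ⟨K / n (i_k D 1), fun q => ?_⟩
  obtain ⟨g, hg, hgq⟩ := exists_dual_vector'' ℂ q.2.2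
  have e1 := kbd' hn hm (pr_x_f (D := D) q g)
  have e2 : ‖g q.2.2‖ = ‖q.2.2‖ := by rw [hgq]; simp
  rw [e2] at e1
  have e3 := (HK g).2.2
  have e4 : n (i_f D g) ≤ K := by
    refine e3.trans ?_
    calc K * ‖g‖ ≤ K * 1 := mul_le_mul_of_nonneg_left hg hK.le
      _ = K := mul_one K
  refine e1.trans (mul_le_mul_of_nonneg_right ?_ (bn_nonneg hn _))
  exact div_le_div_of_nonneg_right e4 (kpos hn).le

/-- hypothesis (c) of `S_class` -/
lemma hyp_c [CompleteSpace H] [CompleteSpace E₁] (h1 : S_two_norms) (hn : IsBNorm n)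
    (hm : ∀ a b, n (a * b) ≤ n a * n b) :
    ∃ K : ℝ, ∀ h e, n (i_q D (0, D.bM h e)) ≤ K * (‖h‖ * ‖e‖) := by
  obtain ⟨K, hK, HK⟩ := eq_h (D := D) h1 hn hm
  obtain ⟨L, hL, HL⟩ := eq_e1 (D := D) h1 hn hm
  refine ⟨K * L, fun h e => ?_⟩
  have e2 := hm (i_h D h) (i_e1 D e)
  rw [pr_h_e1] at e2
  have e3 := (HK h).2.2
  have e4 := (HL e).2.2
  calc n (i_q D (0, D.bM h e)) ≤ n (i_h D h) * n (i_e1 D e) := e2
    _ ≤ (K * ‖h‖) * (L * ‖e‖) :=
      mul_le_mul e3 e4 (bn_nonneg hn _) (mul_nonneg hK.le (norm_nonneg _))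
    _ = _ := by ring

/-- hypothesis (d) of `S_class` -/
lemma hyp_d [CompleteSpace H] [CompleteSpace E₂] (h1 : S_two_norms) (hn : IsBNorm n)
    (hm : ∀ a b, n (a * b) ≤ n a * n b) :
    ∃ K : ℝ, ∀ h e, n (i_x D (0, 0, D.bZ h e)) ≤ K * (‖h‖ * ‖e‖) := by
  obtain ⟨K, hK, HK⟩ := eq_h (D := D) h1 hn hm
  obtain ⟨L, hL, HL⟩ := eq_e2 (D := D) h1 hn hm
  refine ⟨K * L, fun h e => ?_⟩
  have e2 := hm (i_h D h) (i_e2 D e)
  rw [pr_h_e2] at e2
  have e3 := (HK h).2.2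
  have e4 := (HL e).2.2
  calc n (i_x D (0, 0, D.bZ h e)) ≤ n (i_h D h) * n (i_e2 D e) := e2
    _ ≤ (K * ‖h‖) * (L * ‖e‖) :=
      mul_le_mul e3 e4 (bn_nonneg hn _) (mul_nonneg hK.le (norm_nonneg _))
    _ = _ := by ring

/-- the bound on the `Z` part -/
lemma z_bd [CompleteSpace H] [CompleteSpace E₂] (h1 : S_two_norms) (hn : IsBNorm n)
    (hm : ∀ a b, n (a * b) ≤ n a * n b) :
    ∃ K : ℝ, 0 ≤ K ∧ ∀ z : Z, n (i_x D (0, 0, z)) ≤ K * (‖z‖ + ‖D.T z‖) := by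
  obtain ⟨K, HK⟩ := hyp_d (D := D) h1 hn hm
  refine ⟨|K|, abs_nonneg K, fun z => ?_⟩
  set s : ℝ := ‖z‖ + ‖D.T z‖ with hs
  have hs0 : 0 ≤ s := by positivity
  rcases hs0.eq_or_lt with h0 | h0
  · have hz : z = 0 := by
      rw [← norm_eq_zero]
      have := norm_nonneg (D.T z)
      have := norm_nonneg z
      linarith
    have : i_x D ((0 : ℂ), (0 : M), z) = 0 := by rw [hz]; exact map_zero (i_x D)
    rw [this, bn_zero hn]
    positivity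
  · have hsc : ((s : ℝ) : ℂ) ≠ 0 := by exact_mod_cast h0.ne'
    obtain ⟨h, e, hh, he, hb⟩ := D.cover_Z (((s : ℝ) : ℂ)⁻¹ • z) (by
      rw [norm_smul, norm_inv, Complex.norm_real, Real.norm_of_nonneg hs0, inv_mul_le_iff₀ h0,
        mul_one]
      have := norm_nonneg (D.T z)
      linarith) (by
      rw [map_smul, norm_smul, norm_inv, Complex.norm_real, Real.norm_of_nonneg hs0,
        inv_mul_le_iff₀ h0, mul_one]
      have := norm_nonneg z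
      linarith)
    have e1 := HK h e
    rw [hb] at e1
    have e2 : i_x D ((0 : ℂ), (0 : M), z) =
        ((s : ℝ) : ℂ) • i_x D ((0 : ℂ), (0 : M), (((s : ℝ) : ℂ)⁻¹ • z)) := by
      rw [← map_smul]
      congr 1
      ext
      · simp
      · simp
      · simp [smul_smul, hsc]
    rw [e2, hn.smul, Complex.norm_real, Real.norm_of_nonneg hs0, mul_comm]
    refine mul_le_mul_of_nonneg_right ?_ hs0
    refine e1.trans ?_
    calc K * (‖h‖ * ‖e‖) ≤ |K| * (‖h‖ * ‖e‖) :=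
          mul_le_mul_of_nonneg_right (le_abs_self K) (by positivity)
      _ ≤ |K| * 1 := by
          apply mul_le_mul_of_nonneg_left _ (abs_nonneg K)
          calc ‖h‖ * ‖e‖ ≤ 1 * 1 := mul_le_mul hh he (norm_nonneg _) zero_le_one
            _ = 1 := one_mul 1
      _ = |K| := mul_one _


lemma kap_zm (m : M) (c : ℂ × C) : kap D (0, m) c = (0, c.1 • m, D.j m c.2) := by
  simp [kap]

lemma eq_c [CompleteSpace H] [CompleteSpace E₂] [CompleteSpace C] (h1 : S_two_norms)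
    (hn : IsBNorm n) (hm : ∀ a b, n (a * b) ≤ n a * n b) :
    EQ (fun v : ℂ × C => ‖v‖) (fun v => n (i_c D v)) := by
  obtain ⟨Kz, hKz, HKz⟩ := z_bd (D := D) h1 hn hm
  obtain ⟨K, hK, ha, hb⟩ := h1 (ℂ × C) (fun v => n (i_c D v)) (bn_c hn hm) (by
    intro v w hv hw
    have hv1 : Tendsto (fun k => (v k).1) atTop (𝓝 0) :=
      (continuous_fst.tendsto (0 : ℂ × C)).comp hv
    have hv2 : Tendsto (fun k => (v k).2) atTop (𝓝 0) :=
      (continuous_snd.tendsto (0 : ℂ × C)).comp hv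
    have hw2 : w.2 = 0 := by
      apply D.j_inj
      intro m
      apply SeparatingDual.eq_zero_of_forall_dual_eq_zero (R := ℂ)
      intro g
      have hbound : ∀ c : ℂ × C, ‖g (D.j m c.2)‖ ≤
          (n (i_f D g) / n (i_k D 1) * n (i_p D (0, m))) * n (i_c D c) := by
        intro c
        have e1 : ‖g (D.j m c.2)‖ ≤ (n (i_f D g) / n (i_k D 1)) * n (i_x D (kap D (0, m) c)) :=
          kbd' hn hm (pr_x_f (kap D (0, m) c) g)
        have e2 := hm (i_p D (0, m)) (i_c D c)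
        rw [pr_p_c] at e2
        have e3 : 0 ≤ n (i_f D g) / n (i_k D 1) := div_nonneg (bn_nonneg hn _) (kpos hn).le
        calc ‖g (D.j m c.2)‖ ≤ (n (i_f D g) / n (i_k D 1)) * n (i_x D (kap D (0, m) c)) := e1
          _ ≤ (n (i_f D g) / n (i_k D 1)) * (n (i_p D (0, m)) * n (i_c D c)) :=
            mul_le_mul_of_nonneg_left e2 e3
          _ = _ := by ring
      exact fun_zero (φ := (ContinuousLinearMap.comp g (D.j m)).comp
        (ContinuousLinearMap.snd ℂ ℂ C)) (N := fun v => n (i_c D v)) v w hv hw _ hbound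
    have hw1 : w.1 = 0 := by
      obtain ⟨m₀, hm0⟩ : ∃ m : M, m ≠ 0 := by
        refine ⟨D.inc (D.ub (D.cs 0)), fun h => ?_⟩
        have h2 := D.mu_ub (D.cs 0)
        rw [h, map_zero, D.sg_cs] at h2
        exact zero_ne_one h2
      have key : ∀ k, n (i_x D (0, w.1 • m₀, 0)) ≤
          n (i_p D (0, m₀)) * n (i_c D (v k - w)) + (‖(v k).1‖ * n (i_x D (0, m₀, 0)) +
            Kz * (‖D.j m₀ (v k).2‖ + ‖D.mu m₀ • D.ub (v k).2‖)) := by
        intro k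
        have e1 : i_x D (0, w.1 • m₀, 0) =
            ((v k).1 • i_x D (0, m₀, 0) + i_x D (0, 0, D.j m₀ (v k).2)) -
              i_p D (0, m₀) * i_c D (v k - w) := by
          rw [pr_p_c, ← map_smul, ← map_add, ← map_sub, kap_zm]
          congr 1
          ext
          · simp
          · simp [sub_smul]
          · simp [hw2]
        rw [e1]
        refine (bn_sub hn _ _).trans ?_
        rw [add_comm]
        refine add_le_add (hm _ _) ?_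
        refine (hn.add_le _ _).trans ?_
        refine add_le_add (le_of_eq (hn.smul _ _)) ?_
        have := HKz (D.j m₀ (v k).2)
        rwa [D.T_j] at this
      have hlim : Tendsto (fun k => n (i_p D (0, m₀)) * n (i_c D (v k - w)) +
          (‖(v k).1‖ * n (i_x D (0, m₀, 0)) +
            Kz * (‖D.j m₀ (v k).2‖ + ‖D.mu m₀ • D.ub (v k).2‖))) atTop
          (𝓝 (n (i_p D (0, m₀)) * 0 + (‖(0 : ℂ)‖ * n (i_x D (0, m₀, 0)) +
            Kz * (‖D.j m₀ 0‖ + ‖D.mu m₀ • D.ub 0‖)))) := by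
        refine (hw.const_mul _).add ((hv1.norm.mul_const _).add (Tendsto.const_mul _ ?_))
        refine Tendsto.add ?_ ?_
        · exact ((D.j m₀).continuous.norm.tendsto 0).comp hv2
        · exact (((D.ub.continuous.const_smul (D.mu m₀)).norm).tendsto 0).comp hv2
      have hle := ge_of_tendsto' hlim key
      have hz : n (i_p D (0, m₀)) * 0 + (‖(0 : ℂ)‖ * n (i_x D (0, m₀, 0)) +
            Kz * (‖D.j m₀ 0‖ + ‖D.mu m₀ • D.ub 0‖)) = 0 := by simp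
      rw [hz] at hle
      have h0 := hn.eq_zero _ (le_antisymm hle (bn_nonneg hn _))
      have h3 : w.1 • m₀ = 0 := congrArg (fun a : Alg D => a.x.2.1) h0
      rcases smul_eq_zero.mp h3 with h | h
      · exact h
      · exact absurd h hm0
    exact Prod.ext hw1 hw2)
  exact ⟨K, hK, fun v => ⟨norm_nonneg v, hb v, ha v⟩⟩

/-- hypothesis (e) of `S_class` -/
lemma hyp_e (hn : IsBNorm n) (hm : ∀ a b, n (a * b) ≤ n a * n b) :
    ∃ K : ℝ, ∀ p, n (i_q D p) ≤ K * n (i_p D p) := by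
  refine ⟨n (i_t D 1), fun p => ?_⟩
  have e := hm (i_p D p) (i_t D 1)
  rw [pr_p_t, one_smul] at e
  linarith

/-- hypothesis (f) of `S_class` -/
lemma hyp_f (hm : ∀ a b, n (a * b) ≤ n a * n b) :
    ∃ K : ℝ, ∀ p : ℂ × M, n (i_x D (p.1, p.2, 0)) ≤ K * n (i_p D p) := by
  refine ⟨n (i_c D (1, 0)), fun p => ?_⟩
  have e := hm (i_p D p) (i_c D (1, 0))
  have e2 : kap D p (1, 0) = (p.1, p.2, 0) := by simp [kap]
  rw [pr_p_c, e2] at e
  linarith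

/-- hypothesis (g) of `S_class` -/
lemma hyp_g [CompleteSpace H] [CompleteSpace E₂] [CompleteSpace C] (h1 : S_two_norms)
    (hn : IsBNorm n) (hm : ∀ a b, n (a * b) ≤ n a * n b) :
    ∃ K : ℝ, ∀ (p : ℂ × M) (c : C),
      n (i_x D (-(D.sg c * p.1), p.1 • D.inc (D.ub c), D.j p.2 c)) ≤
        K * (n (i_p D p) * ‖c‖) := by
  obtain ⟨K, hK, HK⟩ := eq_c (D := D) h1 hn hm
  refine ⟨K, fun p c => ?_⟩
  have e := hm (i_p D p) (i_c D (0, c))
  have e2 : kap D p (0, c) = (-(D.sg c * p.1), p.1 • D.inc (D.ub c), D.j p.2 c) := by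
    simp [kap]
  rw [pr_p_c, e2] at e
  have e3 : n (i_c D (0, c)) ≤ K * ‖((0 : ℂ), c)‖ := (HK (0, c)).2.2
  have e4 : ‖((0 : ℂ), c)‖ = ‖c‖ := by simp
  rw [e4] at e3
  calc n (i_x D (-(D.sg c * p.1), p.1 • D.inc (D.ub c), D.j p.2 c))
      ≤ n (i_p D p) * n (i_c D (0, c)) := e
    _ ≤ n (i_p D p) * (K * ‖c‖) := mul_le_mul_of_nonneg_left e3 (bn_nonneg hn _)
    _ = _ := by ring

set_option maxHeartbeats 8000000 in
lemma sum_fields (a : Alg D) :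
    i_a1 D a.a1 + i_a3 D a.a3 + i_a4 D a.a4 + i_a5 D a.a5 + i_a6 D a.a6 + i_a7 D a.a7 +
    i_p D a.p + i_q D a.q + i_x D a.x + i_h D a.h + i_k D a.k + i_t D a.t + i_c D a.c +
    i_g3 D a.g3 + i_g4 D a.g4 + i_f D a.f + i_e1 D a.e1 + i_e2 D a.e2 + i_g6 D a.g6 = a := by
  ext1 <;> simp

lemma final [CompleteSpace H] [CompleteSpace E₁] [CompleteSpace E₂] [CompleteSpace C]
    (h1 : S_two_norms) (hn : IsBNorm n) (hm : ∀ a b, n (a * b) ≤ n a * n b) (r : ℂ)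
    (hp : NormEquiv (fun v => n (i_p D v)) (D.nP r))
    (hq : NormEquiv (fun v => n (i_q D v)) (D.nP r))
    (hx : NormEquiv (fun v => n (i_x D v)) (D.nX r)) : NormEquiv n (Alg.nrm r) := by
  have H := (((((((((((((((((
    (PP_field hn (i_a1 D) Alg.a1 (fun s => ‖s‖) _ (bd_a1 hn hm) (eq_a1 hn)).add hn
    (PP_field hn (i_a3 D) Alg.a3 (fun s => ‖s‖) _ (bd_a3 hn hm) (eq_a3 hn))).add hn
    (PP_field hn (i_a4 D) Alg.a4 (fun s => ‖s‖) _ (bd_a4 hn hm) (eq_a4 hn))).add hn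
    (PP_field hn (i_a5 D) Alg.a5 (fun s => ‖s‖) _ (bd_a5 hn hm) (eq_a5 hn))).add hn
    (PP_field hn (i_a6 D) Alg.a6 (fun s => ‖s‖) _ (bd_a6 hn hm) (eq_a6 hn))).add hn
    (PP_field hn (i_a7 D) Alg.a7 (fun s => ‖s‖) _ (bd_a7 hn hm) (eq_a7 hn))).add hn
    (PP_field hn (i_p D) Alg.p (D.nP r) _ (bd_p hn hm)
      (EQ.of_normEquiv hp (fun _ => bn_nonneg hn _)))).add hn
    (PP_field hn (i_q D) Alg.q (D.nP r) _ (bd_q hn hm)
      (EQ.of_normEquiv hq (fun _ => bn_nonneg hn _)))).add hn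
    (PP_field hn (i_x D) Alg.x (D.nX r) _ (bd_x hn hm)
      (EQ.of_normEquiv hx (fun _ => bn_nonneg hn _)))).add hn
    (PP_field hn (i_h D) Alg.h (fun s => ‖s‖) _ (bd_h hn hm) (eq_h h1 hn hm))).add hn
    (PP_field hn (i_k D) Alg.k (fun s => ‖s‖) _ (bd_k hn hm) (eq_k hn))).add hn
    (PP_field hn (i_t D) Alg.t (fun s => ‖s‖) _ (bd_t hn hm) (eq_t hn))).add hn
    (PP_field hn (i_c D) Alg.c (fun s => ‖s‖) _ (bd_c hn hm) (eq_c h1 hn hm))).add hn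
    (PP_field hn (i_g3 D) Alg.g3 (fun s => ‖s‖) _ (bd_g3 hn hm) (eq_g3 h1 hn hm))).add hn
    (PP_field hn (i_g4 D) Alg.g4 (fun s => ‖s‖) _ (bd_g4 hn hm) (eq_g4 h1 hn hm))).add hn
    (PP_field hn (i_f D) Alg.f (fun s => ‖s‖) _ (bd_f hn hm) (eq_f h1 hn hm))).add hn
    (PP_field hn (i_e1 D) Alg.e1 (fun s => ‖s‖) _ (bd_e1 hn hm) (eq_e1 h1 hn hm))).add hn
    (PP_field hn (i_e2 D) Alg.e2 (fun s => ‖s‖) _ (bd_e2 hn hm) (eq_e2 h1 hn hm))).add hn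
    (PP_field hn (i_g6 D) Alg.g6 (fun s => ‖s‖) _ (bd_g6 hn hm) (eq_g6 h1 hn hm))
  obtain ⟨K, hK, HK⟩ := H
  refine ⟨1 / K, K, by positivity, hK, fun a => ?_⟩
  obtain ⟨_, e1, e2⟩ := HK a
  refine ⟨?_, e1⟩
  have e3 : n a ≤ K * Alg.nrm r a := by
    have e4 := e2
    dsimp only at e4
    rw [sum_fields] at e4
    exact e4
  calc 1 / K * n a ≤ 1 / K * (K * Alg.nrm r a) :=
        mul_le_mul_of_nonneg_left e3 (by positivity)
    _ = Alg.nrm r a := by field_simp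

end main

end AC

theorem s_algclass (h1 : S_two_norms) (_h2 : S_dominated) (h3 : S_class) : S_algclass := by
  intro M Z H E₁ E₂ Y C _ _ _ _ _ _ _ _ _ _ _ _ _ _ _ _ _ _ _ _ _ D n hn hm
  rcases h3 M Z H E₁ E₂ Y C D (fun v => n (Alg.i_p D v)) (fun v => n (Alg.i_q D v))
    (fun v => n (Alg.i_x D v)) (AC.bn_p hn hm) (AC.bn_q hn hm) (AC.bn_x hn hm)
    (AC.hyp_a h1 hn hm) (AC.hyp_b h1 hn hm) (AC.hyp_c h1 hn hm) (AC.hyp_d h1 hn hm)
    (AC.hyp_e hn hm) (AC.hyp_f hm) (AC.hyp_g h1 hn hm) with h | h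
  · exact Or.inl (AC.final h1 hn hm 0 h.1 h.2.1 h.2.2)
  · exact Or.inr (AC.final h1 hn hm 1 h.1 h.2.1 h.2.2)

end Pool.Agent.R233.NA
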