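import Pool.Agent.R233.NA.AlgInj

/-!
# MP_357fb8_an : products of the injections (for NA-6)
-/

open Filter Topology

namespace Pool.Agent.R233.NA

variable {M Z H E₁ E₂ Y C : Type}
    [NormedAddCommGroup M] [NormedSpace ℂ M]
    [NormedAddCommGroup Z] [NormedSpace ℂ Z]
    [NormedAddCommGroup H] [NormedSpace ℂ H]
    [NormedAddCommGroup E₁] [NormedSpace ℂ E₁]
    [NormedAddCommGroup E₂] [NormedSpace ℂ E₂]
    [NormedAddCommGroup Y] [NormedSpace ℂ Y]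
    [NormedAddCommGroup C] [NormedSpace ℂ C]

namespace Alg
variable {D : Dat M Z H E₁ E₂ Y C}

section aux
set_option linter.unusedSectionVars false
variable {V W U : Type} [NormedAddCommGroup V] [NormedSpace ℂ V] [NormedAddCommGroup W]
  [NormedSpace ℂ W] [NormedAddCommGroup U] [NormedSpace ℂ U]

@[simp high] lemma clm_add_zero (g : V →L[ℂ] ℂ) : g + 0 = g := add_zero g
@[simp high] lemma clm_zero_add (g : V →L[ℂ] ℂ) : 0 + g = g := zero_add g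
@[simp high] lemma clm_zero_smul' (g : V →L[ℂ] ℂ) : (0 : ℂ) • g = 0 := zero_smul ℂ g
@[simp high] lemma clm_one_smul' (g : V →L[ℂ] ℂ) : (1 : ℂ) • g = g := one_smul ℂ g
@[simp high] lemma clm_smul_zero' (r : ℂ) : r • (0 : V →L[ℂ] ℂ) = 0 := clm_smul_zero r
@[simp high] lemma clm_zero_comp (g : W →L[ℂ] V) : (0 : V →L[ℂ] ℂ).comp g = 0 := by
  ext v; simp
@[simp high] lemma clm_comp_flip_zero (f : V →L[ℂ] ℂ) (g : U →L[ℂ] W →L[ℂ] V) :
    f.comp (g.flip 0) = 0 := by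
  ext v; simp
@[simp high] lemma pz2 : ((0 : ℂ), (0 : V)) = (0 : ℂ × V) := rfl
@[simp high] lemma pz3 : ((0 : ℂ), (0 : V), (0 : W)) = (0 : ℂ × V × W) := rfl
@[simp high] lemma bil_zero_left (g : U →L[ℂ] W →L[ℂ] V) (w : W) : g 0 w = 0 := by simp
@[simp high] lemma bil_zero_right (g : U →L[ℂ] W →L[ℂ] V) (u : U) : g u 0 = 0 := by simp
@[simp high] lemma clm_apply_zero (g : V →L[ℂ] ℂ) : g 0 = 0 := by simp
@[simp high] lemma clm_zero_apply (v : V) : (0 : V →L[ℂ] ℂ) v = 0 := rfl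
end aux


lemma cor_a1 (a : Alg D) : i_a1 D 1 * a * i_a1 D 1 = i_a1 D a.a1 := by
  ext1 <;> simp

lemma cor_a3 (a : Alg D) : i_a3 D 1 * a * i_a3 D 1 = i_a3 D a.a3 := by
  ext1 <;> simp

lemma cor_a4 (a : Alg D) : i_a4 D 1 * a * i_a4 D 1 = i_a4 D a.a4 := by
  ext1 <;> simp

lemma cor_a5 (a : Alg D) : i_a5 D 1 * a * i_a5 D 1 = i_a5 D a.a5 := by
  ext1 <;> simp

lemma cor_a6 (a : Alg D) : i_a6 D 1 * a * i_a6 D 1 = i_a6 D a.a6 := by
  ext1 <;> simp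

lemma cor_a7 (a : Alg D) : i_a7 D 1 * a * i_a7 D 1 = i_a7 D a.a7 := by
  ext1 <;> simp

lemma cor_p (a : Alg D) : i_a1 D 1 * a * i_a3 D 1 = i_p D a.p := by
  ext1 <;> simp

lemma cor_q (a : Alg D) : i_a1 D 1 * a * i_a4 D 1 = i_q D a.q := by
  ext1 <;> simp

lemma cor_x (a : Alg D) : i_a1 D 1 * a * i_a5 D 1 = i_x D a.x := by
  ext1 <;> simp

lemma cor_h (a : Alg D) : i_a1 D 1 * a * i_a6 D 1 = i_h D a.h := by
  ext1 <;> simp

lemma cor_k (a : Alg D) : i_a1 D 1 * a * i_a7 D 1 = i_k D a.k := by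
  ext1 <;> simp

lemma cor_t (a : Alg D) : i_a3 D 1 * a * i_a4 D 1 = i_t D a.t := by
  ext1 <;> simp

lemma cor_c (a : Alg D) : i_a3 D 1 * a * i_a5 D 1 = i_c D a.c := by
  ext1 <;> simp

lemma cor_g3 (a : Alg D) : i_a3 D 1 * a * i_a7 D 1 = i_g3 D a.g3 := by
  ext1 <;> simp

lemma cor_g4 (a : Alg D) : i_a4 D 1 * a * i_a7 D 1 = i_g4 D a.g4 := by
  ext1 <;> simp

lemma cor_f (a : Alg D) : i_a5 D 1 * a * i_a7 D 1 = i_f D a.f := by
  ext1 <;> simp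

lemma cor_e1 (a : Alg D) : i_a6 D 1 * a * i_a4 D 1 = i_e1 D a.e1 := by
  ext1 <;> simp

lemma cor_e2 (a : Alg D) : i_a6 D 1 * a * i_a5 D 1 = i_e2 D a.e2 := by
  ext1 <;> simp

lemma cor_g6 (a : Alg D) : i_a6 D 1 * a * i_a7 D 1 = i_g6 D a.g6 := by
  ext1 <;> simp

lemma pr_h_g6 (h : H) (g : H →L[ℂ] ℂ) : i_h D h * i_g6 D g = i_k D (g h) := by
  ext1 <;> simp

lemma pr_q_g4 (q : ℂ × M) (g : M →L[ℂ] ℂ) : i_q D q * i_g4 D g = i_k D (g q.2) := by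
  ext1 <;> simp

lemma pr_p_g3 (p : ℂ × M) (g : M →L[ℂ] ℂ) : i_p D p * i_g3 D g = i_k D (g p.2) := by
  ext1 <;> simp

lemma pr_x_f (x : ℂ × M × Z) (g : Z →L[ℂ] ℂ) : i_x D x * i_f D g = i_k D (g x.2.2) := by
  ext1 <;> simp

lemma pr_h_e1 (h : H) (e : E₁) : i_h D h * i_e1 D e = i_q D (0, D.bM h e) := by
  ext1 <;> simp

lemma pr_h_e2 (h : H) (e : E₂) : i_h D h * i_e2 D e = i_x D (0, 0, D.bZ h e) := by
  ext1 <;> simp

lemma pr_p_c (p : ℂ × M) (c : ℂ × C) : i_p D p * i_c D c = i_x D (kap D p c) := by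
  ext1 <;> simp

lemma pr_p_t (p : ℂ × M) (t : ℂ) : i_p D p * i_t D t = i_q D (t • p) := by
  ext1 <;> simp

end Alg

end Pool.Agent.R233.NA
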