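import Pool.Agent.R233.NA.Defs

/-!
# MP_357fb8_an : the algebra
-/

open Filter Topology

namespace Pool.Agent.R233.NA

variable {M Z H E₁ E₂ Y C : Type}
    [NormedAddCommGroup M] [NormedSpace ℂ M]
    [NormedAddCommGroup Z] [NormedSpace ℂ Z]
    [NormedAddCommGroup H] [NormedSpace ℂ H]
    [NormedAddCommGroup E₁] [NormedSpace ℂ E₁]
    [NormedAddCommGroup E₂] [NormedSpace ℂ E₂]
    [NormedAddCommGroup Y] [NormedSpace ℂ Y]
    [NormedAddCommGroup C] [NormedSpace ℂ C]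

/-- The algebra: upper triangular matrices over the vertices 1,3,4,5,6,7. -/
@[ext] structure Alg (D : Dat M Z H E₁ E₂ Y C) where
  a1 : ℂ
  a3 : ℂ
  a4 : ℂ
  a5 : ℂ
  a6 : ℂ
  a7 : ℂ
  p : ℂ × M
  q : ℂ × M
  x : ℂ × M × Z
  h : H
  k : ℂ
  t : ℂ
  c : ℂ × C
  g3 : M →L[ℂ] ℂ
  g4 : M →L[ℂ] ℂ
  f : Z →L[ℂ] ℂ
  e1 : E₁
  e2 : E₂
  g6 : H →L[ℂ] ℂ

namespace Alg

variable {D : Dat M Z H E₁ E₂ Y C}

noncomputable instance : Zero (Alg D) := ⟨⟨0,0,0,0,0,0,0,0,0,0,0,0,0,0,0,0,0,0,0⟩⟩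
noncomputable instance : Add (Alg D) := ⟨fun a b => ⟨a.a1+b.a1,a.a3+b.a3,a.a4+b.a4,a.a5+b.a5,a.a6+b.a6,a.a7+b.a7,
  a.p+b.p,a.q+b.q,a.x+b.x,a.h+b.h,a.k+b.k,a.t+b.t,a.c+b.c,a.g3+b.g3,a.g4+b.g4,a.f+b.f,a.e1+b.e1,
  a.e2+b.e2,a.g6+b.g6⟩⟩
noncomputable instance : Neg (Alg D) := ⟨fun a => ⟨-a.a1,-a.a3,-a.a4,-a.a5,-a.a6,-a.a7,
  -a.p,-a.q,-a.x,-a.h,-a.k,-a.t,-a.c,-a.g3,-a.g4,-a.f,-a.e1,-a.e2,-a.g6⟩⟩
noncomputable instance : SMul ℂ (Alg D) := ⟨fun r a => ⟨r•a.a1,r•a.a3,r•a.a4,r•a.a5,r•a.a6,r•a.a7,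
  r•a.p,r•a.q,r•a.x,r•a.h,r•a.k,r•a.t,r•a.c,r•a.g3,r•a.g4,r•a.f,r•a.e1,r•a.e2,r•a.g6⟩⟩
noncomputable instance : One (Alg D) := ⟨⟨1,1,1,1,1,1,0,0,0,0,0,0,0,0,0,0,0,0,0⟩⟩

/-- the product `P × (ℂ × C) → X` -/
noncomputable def kap (D : Dat M Z H E₁ E₂ Y C) (p : ℂ × M) (c : ℂ × C) : ℂ × M × Z :=
  (c.1 * p.1 - D.sg c.2 * p.1, c.1 • p.2 + p.1 • D.inc (D.ub c.2), D.j p.2 c.2)

noncomputable instance : Mul (Alg D) := ⟨fun a b =>
  { a1 := a.a1*b.a1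
    a3 := a.a3*b.a3
    a4 := a.a4*b.a4
    a5 := a.a5*b.a5
    a6 := a.a6*b.a6
    a7 := a.a7*b.a7
    p := a.a1•b.p + b.a3•a.p
    q := a.a1•b.q + b.a4•a.q + b.t•a.p + (0, D.bM a.h b.e1)
    x := a.a1•b.x + b.a5•a.x + kap D a.p b.c + (0, 0, D.bZ a.h b.e2)
    h := a.a1•b.h + b.a6•a.h
    k := a.a1*b.k + a.k*b.a7 + b.g3 a.p.2 + b.g4 a.q.2 + b.f a.x.2.2 + b.g6 a.h
    t := a.a3*b.t + a.t*b.a4
    c := a.a3•b.c + b.a5•a.c
    g3 := a.a3•b.g3 + b.a7•a.g3 + a.t•b.g4 + b.f.comp (D.j.flip a.c.2)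
    g4 := a.a4•b.g4 + b.a7•a.g4
    f := a.a5•b.f + b.a7•a.f
    e1 := a.a6•b.e1 + b.a4•a.e1
    e2 := a.a6•b.e2 + b.a5•a.e2
    g6 := a.a6•b.g6 + b.a7•a.g6 + b.g4.comp (D.bM.flip a.e1) + b.f.comp (D.bZ.flip a.e2) }⟩

section simps
variable (a b : Alg D) (r : ℂ)
@[simp] lemma zero_a1 : (0 : Alg D).a1 = 0 := rfl
@[simp] lemma zero_a3 : (0 : Alg D).a3 = 0 := rfl
@[simp] lemma zero_a4 : (0 : Alg D).a4 = 0 := rfl
@[simp] lemma zero_a5 : (0 : Alg D).a5 = 0 := rfl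
@[simp] lemma zero_a6 : (0 : Alg D).a6 = 0 := rfl
@[simp] lemma zero_a7 : (0 : Alg D).a7 = 0 := rfl
@[simp] lemma zero_p : (0 : Alg D).p = 0 := rfl
@[simp] lemma zero_q : (0 : Alg D).q = 0 := rfl
@[simp] lemma zero_x : (0 : Alg D).x = 0 := rfl
@[simp] lemma zero_h : (0 : Alg D).h = 0 := rfl
@[simp] lemma zero_k : (0 : Alg D).k = 0 := rfl
@[simp] lemma zero_t : (0 : Alg D).t = 0 := rfl
@[simp] lemma zero_c : (0 : Alg D).c = 0 := rfl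
@[simp] lemma zero_g3 : (0 : Alg D).g3 = 0 := rfl
@[simp] lemma zero_g4 : (0 : Alg D).g4 = 0 := rfl
@[simp] lemma zero_f : (0 : Alg D).f = 0 := rfl
@[simp] lemma zero_e1 : (0 : Alg D).e1 = 0 := rfl
@[simp] lemma zero_e2 : (0 : Alg D).e2 = 0 := rfl
@[simp] lemma zero_g6 : (0 : Alg D).g6 = 0 := rfl
@[simp] lemma one_a1 : (1 : Alg D).a1 = 1 := rfl
@[simp] lemma one_a3 : (1 : Alg D).a3 = 1 := rfl
@[simp] lemma one_a4 : (1 : Alg D).a4 = 1 := rfl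
@[simp] lemma one_a5 : (1 : Alg D).a5 = 1 := rfl
@[simp] lemma one_a6 : (1 : Alg D).a6 = 1 := rfl
@[simp] lemma one_a7 : (1 : Alg D).a7 = 1 := rfl
@[simp] lemma one_p : (1 : Alg D).p = 0 := rfl
@[simp] lemma one_q : (1 : Alg D).q = 0 := rfl
@[simp] lemma one_x : (1 : Alg D).x = 0 := rfl
@[simp] lemma one_h : (1 : Alg D).h = 0 := rfl
@[simp] lemma one_k : (1 : Alg D).k = 0 := rfl
@[simp] lemma one_t : (1 : Alg D).t = 0 := rfl
@[simp] lemma one_c : (1 : Alg D).c = 0 := rfl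
@[simp] lemma one_g3 : (1 : Alg D).g3 = 0 := rfl
@[simp] lemma one_g4 : (1 : Alg D).g4 = 0 := rfl
@[simp] lemma one_f : (1 : Alg D).f = 0 := rfl
@[simp] lemma one_e1 : (1 : Alg D).e1 = 0 := rfl
@[simp] lemma one_e2 : (1 : Alg D).e2 = 0 := rfl
@[simp] lemma one_g6 : (1 : Alg D).g6 = 0 := rfl
@[simp] lemma add_a1 : (a + b).a1 = a.a1 + b.a1 := rfl
@[simp] lemma add_a3 : (a + b).a3 = a.a3 + b.a3 := rfl
@[simp] lemma add_a4 : (a + b).a4 = a.a4 + b.a4 := rfl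
@[simp] lemma add_a5 : (a + b).a5 = a.a5 + b.a5 := rfl
@[simp] lemma add_a6 : (a + b).a6 = a.a6 + b.a6 := rfl
@[simp] lemma add_a7 : (a + b).a7 = a.a7 + b.a7 := rfl
@[simp] lemma add_p : (a + b).p = a.p + b.p := rfl
@[simp] lemma add_q : (a + b).q = a.q + b.q := rfl
@[simp] lemma add_x : (a + b).x = a.x + b.x := rfl
@[simp] lemma add_h : (a + b).h = a.h + b.h := rfl
@[simp] lemma add_k : (a + b).k = a.k + b.k := rfl
@[simp] lemma add_t : (a + b).t = a.t + b.t := rfl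
@[simp] lemma add_c : (a + b).c = a.c + b.c := rfl
@[simp] lemma add_g3 : (a + b).g3 = a.g3 + b.g3 := rfl
@[simp] lemma add_g4 : (a + b).g4 = a.g4 + b.g4 := rfl
@[simp] lemma add_f : (a + b).f = a.f + b.f := rfl
@[simp] lemma add_e1 : (a + b).e1 = a.e1 + b.e1 := rfl
@[simp] lemma add_e2 : (a + b).e2 = a.e2 + b.e2 := rfl
@[simp] lemma add_g6 : (a + b).g6 = a.g6 + b.g6 := rfl
@[simp] lemma neg_a1 : (-a).a1 = -a.a1 := rfl
@[simp] lemma neg_a3 : (-a).a3 = -a.a3 := rfl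
@[simp] lemma neg_a4 : (-a).a4 = -a.a4 := rfl
@[simp] lemma neg_a5 : (-a).a5 = -a.a5 := rfl
@[simp] lemma neg_a6 : (-a).a6 = -a.a6 := rfl
@[simp] lemma neg_a7 : (-a).a7 = -a.a7 := rfl
@[simp] lemma neg_p : (-a).p = -a.p := rfl
@[simp] lemma neg_q : (-a).q = -a.q := rfl
@[simp] lemma neg_x : (-a).x = -a.x := rfl
@[simp] lemma neg_h : (-a).h = -a.h := rfl
@[simp] lemma neg_k : (-a).k = -a.k := rfl
@[simp] lemma neg_t : (-a).t = -a.t := rfl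
@[simp] lemma neg_c : (-a).c = -a.c := rfl
@[simp] lemma neg_g3 : (-a).g3 = -a.g3 := rfl
@[simp] lemma neg_g4 : (-a).g4 = -a.g4 := rfl
@[simp] lemma neg_f : (-a).f = -a.f := rfl
@[simp] lemma neg_e1 : (-a).e1 = -a.e1 := rfl
@[simp] lemma neg_e2 : (-a).e2 = -a.e2 := rfl
@[simp] lemma neg_g6 : (-a).g6 = -a.g6 := rfl
@[simp] lemma smul_a1 : (r • a).a1 = r * a.a1 := rfl
@[simp] lemma smul_a3 : (r • a).a3 = r * a.a3 := rfl
@[simp] lemma smul_a4 : (r • a).a4 = r * a.a4 := rfl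
@[simp] lemma smul_a5 : (r • a).a5 = r * a.a5 := rfl
@[simp] lemma smul_a6 : (r • a).a6 = r * a.a6 := rfl
@[simp] lemma smul_a7 : (r • a).a7 = r * a.a7 := rfl
@[simp] lemma smul_p : (r • a).p = r • a.p := rfl
@[simp] lemma smul_q : (r • a).q = r • a.q := rfl
@[simp] lemma smul_x : (r • a).x = r • a.x := rfl
@[simp] lemma smul_h : (r • a).h = r • a.h := rfl
@[simp] lemma smul_k : (r • a).k = r * a.k := rfl
@[simp] lemma smul_t : (r • a).t = r * a.t := rfl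
@[simp] lemma smul_c : (r • a).c = r • a.c := rfl
@[simp] lemma smul_g3 : (r • a).g3 = r • a.g3 := rfl
@[simp] lemma smul_g4 : (r • a).g4 = r • a.g4 := rfl
@[simp] lemma smul_f : (r • a).f = r • a.f := rfl
@[simp] lemma smul_e1 : (r • a).e1 = r • a.e1 := rfl
@[simp] lemma smul_e2 : (r • a).e2 = r • a.e2 := rfl
@[simp] lemma smul_g6 : (r • a).g6 = r • a.g6 := rfl
@[simp] lemma mul_a1 : (a * b).a1 = a.a1 * b.a1 := rfl
@[simp] lemma mul_a3 : (a * b).a3 = a.a3 * b.a3 := rfl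
@[simp] lemma mul_a4 : (a * b).a4 = a.a4 * b.a4 := rfl
@[simp] lemma mul_a5 : (a * b).a5 = a.a5 * b.a5 := rfl
@[simp] lemma mul_a6 : (a * b).a6 = a.a6 * b.a6 := rfl
@[simp] lemma mul_a7 : (a * b).a7 = a.a7 * b.a7 := rfl
@[simp] lemma mul_p : (a * b).p = a.a1•b.p + b.a3•a.p := rfl
@[simp] lemma mul_q : (a * b).q = a.a1•b.q + b.a4•a.q + b.t•a.p + (0, D.bM a.h b.e1) := rfl
@[simp] lemma mul_x : (a * b).x = a.a1•b.x + b.a5•a.x + kap D a.p b.c + (0, 0, D.bZ a.h b.e2) := rfl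
@[simp] lemma mul_h : (a * b).h = a.a1•b.h + b.a6•a.h := rfl
@[simp] lemma mul_k : (a * b).k =
  a.a1*b.k + a.k*b.a7 + b.g3 a.p.2 + b.g4 a.q.2 + b.f a.x.2.2 + b.g6 a.h := rfl
@[simp] lemma mul_t : (a * b).t = a.a3*b.t + a.t*b.a4 := rfl
@[simp] lemma mul_c : (a * b).c = a.a3•b.c + b.a5•a.c := rfl
@[simp] lemma mul_g3 : (a * b).g3 =
  a.a3•b.g3 + b.a7•a.g3 + a.t•b.g4 + b.f.comp (D.j.flip a.c.2) := rfl
@[simp] lemma mul_g4 : (a * b).g4 = a.a4•b.g4 + b.a7•a.g4 := rfl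
@[simp] lemma mul_f : (a * b).f = a.a5•b.f + b.a7•a.f := rfl
@[simp] lemma mul_e1 : (a * b).e1 = a.a6•b.e1 + b.a4•a.e1 := rfl
@[simp] lemma mul_e2 : (a * b).e2 = a.a6•b.e2 + b.a5•a.e2 := rfl
@[simp] lemma mul_g6 : (a * b).g6 =
  a.a6•b.g6 + b.a7•a.g6 + b.g4.comp (D.bM.flip a.e1) + b.f.comp (D.bZ.flip a.e2) := rfl
end simps

noncomputable instance : AddCommGroup (Alg D) where
  add_assoc a b c := by ext1 <;> simp [add_assoc]
  zero_add a := by ext1 <;> simp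
  add_zero a := by ext1 <;> simp
  nsmul := nsmulRec
  zsmul := zsmulRec
  neg_add_cancel a := by ext1 <;> simp
  add_comm a b := by ext1 <;> simp [add_comm]

noncomputable instance : Module ℂ (Alg D) where
  one_smul a := by ext1 <;> first | exact one_smul _ _ | (simp; done)
  mul_smul r s a := by ext1 <;> first | exact mul_smul _ _ _ | (simp [mul_assoc, mul_smul]; done)
  smul_zero r := by ext1 <;> first | exact smul_zero _ | (simp; done) | (ext v; simp; done)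
  smul_add r a b := by ext1 <;> first | exact smul_add _ _ _ | (simp [mul_add]; done) | (ext v; simp [mul_add]; done)
  add_smul r s a := by ext1 <;> first | exact add_smul _ _ _ | (ext v; simp [add_mul]; done)
  zero_smul a := by ext1 <;> first | exact zero_smul _ _ | (simp; done) | (ext v; simp; done)

/-- the two algebra norms, `r = 0` or `r = 1` -/
noncomputable def nrm (r : ℂ) (a : Alg D) : ℝ :=
  ‖a.a1‖ + ‖a.a3‖ + ‖a.a4‖ + ‖a.a5‖ + ‖a.a6‖ + ‖a.a7‖ + D.nP r a.p + D.nP r a.q + D.nX r a.x +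
  ‖a.h‖ + ‖a.k‖ + ‖a.t‖ + ‖a.c‖ + ‖a.g3‖ + ‖a.g4‖ + ‖a.f‖ + ‖a.e1‖ + ‖a.e2‖ + ‖a.g6‖

end Alg

/-- NA-2b (the two norms are Banach algebra norms up to a constant and are not equivalent). -/
def S_nrm : Prop :=
  ∀ (M Z H E₁ E₂ Y C : Type)
    [NormedAddCommGroup M] [NormedSpace ℂ M] [CompleteSpace M]
    [NormedAddCommGroup Z] [NormedSpace ℂ Z] [CompleteSpace Z]
    [NormedAddCommGroup H] [NormedSpace ℂ H] [CompleteSpace H]
    [NormedAddCommGroup E₁] [NormedSpace ℂ E₁] [CompleteSpace E₁]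
    [NormedAddCommGroup E₂] [NormedSpace ℂ E₂] [CompleteSpace E₂]
    [NormedAddCommGroup Y] [NormedSpace ℂ Y] [CompleteSpace Y]
    [NormedAddCommGroup C] [NormedSpace ℂ C] [CompleteSpace C]
    (D : Dat M Z H E₁ E₂ Y C),
    (∀ r : ℂ, r = 0 ∨ r = 1 → IsBNorm (Alg.nrm (D := D) r) ∧
      ∃ K : ℝ, 0 < K ∧ ∀ a b : Alg D, Alg.nrm r (a * b) ≤ K * (Alg.nrm r a * Alg.nrm r b)) ∧
    ¬ NormEquiv (Alg.nrm (D := D) 0) (Alg.nrm (D := D) 1)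

/-- NA-6 (every Banach algebra norm is equivalent to one of the two). -/
def S_algclass : Prop :=
  ∀ (M Z H E₁ E₂ Y C : Type)
    [NormedAddCommGroup M] [NormedSpace ℂ M] [CompleteSpace M]
    [NormedAddCommGroup Z] [NormedSpace ℂ Z] [CompleteSpace Z]
    [NormedAddCommGroup H] [NormedSpace ℂ H] [CompleteSpace H]
    [NormedAddCommGroup E₁] [NormedSpace ℂ E₁] [CompleteSpace E₁]
    [NormedAddCommGroup E₂] [NormedSpace ℂ E₂] [CompleteSpace E₂]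
    [NormedAddCommGroup Y] [NormedSpace ℂ Y] [CompleteSpace Y]
    [NormedAddCommGroup C] [NormedSpace ℂ C] [CompleteSpace C]
    (D : Dat M Z H E₁ E₂ Y C) (n : Alg D → ℝ), IsBNorm n → (∀ a b, n (a * b) ≤ n a * n b) →
    NormEquiv n (Alg.nrm 0) ∨ NormEquiv n (Alg.nrm 1)

end Pool.Agent.R233.NA
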