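import Pool.Agent.R233.NA.Stm
import Pool.Agent.R233.NA.AlgDefs

/-!
# MP_357fb8_an : injections of the fields of the algebra (for NA-6)
-/

open Filter Topology

namespace Pool.Agent.R233.NA

variable {M Z H E₁ E₂ Y C : Type}
    [NormedAddCommGroup M] [NormedSpace ℂ M]
    [NormedAddCommGroup Z] [NormedSpace ℂ Z]
    [NormedAddCommGroup H] [NormedSpace ℂ H]
    [NormedAddCommGroup E₁] [NormedSpace ℂ E₁]
    [NormedAddCommGroup E₂] [NormedSpace ℂ E₂]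
    [NormedAddCommGroup Y] [NormedSpace ℂ Y]
    [NormedAddCommGroup C] [NormedSpace ℂ C]

namespace Alg

@[simp] lemma kap_zero_right (D : Dat M Z H E₁ E₂ Y C) (p : ℂ × M) : kap D p 0 = 0 := by
  simp [kap]

@[simp] lemma kap_zero_left (D : Dat M Z H E₁ E₂ Y C) (c : ℂ × C) : kap D 0 c = 0 := by
  simp [kap]

@[simp] lemma clm_zero_smul {V : Type} [NormedAddCommGroup V] [NormedSpace ℂ V] (g : V →L[ℂ] ℂ) :
    (0 : ℂ) • g = 0 := zero_smul ℂ g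
@[simp] lemma clm_one_smul {V : Type} [NormedAddCommGroup V] [NormedSpace ℂ V] (g : V →L[ℂ] ℂ) :
    (1 : ℂ) • g = g := one_smul ℂ g
@[simp] lemma clm_smul_zero {V : Type} [NormedAddCommGroup V] [NormedSpace ℂ V] (r : ℂ) :
    r • (0 : V →L[ℂ] ℂ) = 0 := by ext v; simp

/-- the injection of the field `a1` -/
noncomputable def i_a1 (D : Dat M Z H E₁ E₂ Y C) : (ℂ) →ₗ[ℂ] Alg D where
  toFun v := { (0 : Alg D) with a1 := v }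
  map_add' v w := by ext1 <;> first | exact (add_zero _).symm | rfl
  map_smul' r v := by ext1 <;> first | exact (smul_zero _).symm | exact (clm_smul_zero _).symm | rfl

/-- the field `a1` -/
noncomputable def j_a1 (D : Dat M Z H E₁ E₂ Y C) : Alg D →ₗ[ℂ] (ℂ) where
  toFun a := a.a1
  map_add' _ _ := rfl
  map_smul' _ _ := rfl


/-- the injection of the field `a3` -/
noncomputable def i_a3 (D : Dat M Z H E₁ E₂ Y C) : (ℂ) →ₗ[ℂ] Alg D where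
  toFun v := { (0 : Alg D) with a3 := v }
  map_add' v w := by ext1 <;> first | exact (add_zero _).symm | rfl
  map_smul' r v := by ext1 <;> first | exact (smul_zero _).symm | exact (clm_smul_zero _).symm | rfl

/-- the field `a3` -/
noncomputable def j_a3 (D : Dat M Z H E₁ E₂ Y C) : Alg D →ₗ[ℂ] (ℂ) where
  toFun a := a.a3
  map_add' _ _ := rfl
  map_smul' _ _ := rfl


/-- the injection of the field `a4` -/
noncomputable def i_a4 (D : Dat M Z H E₁ E₂ Y C) : (ℂ) →ₗ[ℂ] Alg D where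
  toFun v := { (0 : Alg D) with a4 := v }
  map_add' v w := by ext1 <;> first | exact (add_zero _).symm | rfl
  map_smul' r v := by ext1 <;> first | exact (smul_zero _).symm | exact (clm_smul_zero _).symm | rfl

/-- the field `a4` -/
noncomputable def j_a4 (D : Dat M Z H E₁ E₂ Y C) : Alg D →ₗ[ℂ] (ℂ) where
  toFun a := a.a4
  map_add' _ _ := rfl
  map_smul' _ _ := rfl


/-- the injection of the field `a5` -/
noncomputable def i_a5 (D : Dat M Z H E₁ E₂ Y C) : (ℂ) →ₗ[ℂ] Alg D where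
  toFun v := { (0 : Alg D) with a5 := v }
  map_add' v w := by ext1 <;> first | exact (add_zero _).symm | rfl
  map_smul' r v := by ext1 <;> first | exact (smul_zero _).symm | exact (clm_smul_zero _).symm | rfl

/-- the field `a5` -/
noncomputable def j_a5 (D : Dat M Z H E₁ E₂ Y C) : Alg D →ₗ[ℂ] (ℂ) where
  toFun a := a.a5
  map_add' _ _ := rfl
  map_smul' _ _ := rfl


/-- the injection of the field `a6` -/
noncomputable def i_a6 (D : Dat M Z H E₁ E₂ Y C) : (ℂ) →ₗ[ℂ] Alg D where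
  toFun v := { (0 : Alg D) with a6 := v }
  map_add' v w := by ext1 <;> first | exact (add_zero _).symm | rfl
  map_smul' r v := by ext1 <;> first | exact (smul_zero _).symm | exact (clm_smul_zero _).symm | rfl

/-- the field `a6` -/
noncomputable def j_a6 (D : Dat M Z H E₁ E₂ Y C) : Alg D →ₗ[ℂ] (ℂ) where
  toFun a := a.a6
  map_add' _ _ := rfl
  map_smul' _ _ := rfl


/-- the injection of the field `a7` -/
noncomputable def i_a7 (D : Dat M Z H E₁ E₂ Y C) : (ℂ) →ₗ[ℂ] Alg D where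
  toFun v := { (0 : Alg D) with a7 := v }
  map_add' v w := by ext1 <;> first | exact (add_zero _).symm | rfl
  map_smul' r v := by ext1 <;> first | exact (smul_zero _).symm | exact (clm_smul_zero _).symm | rfl

/-- the field `a7` -/
noncomputable def j_a7 (D : Dat M Z H E₁ E₂ Y C) : Alg D →ₗ[ℂ] (ℂ) where
  toFun a := a.a7
  map_add' _ _ := rfl
  map_smul' _ _ := rfl


/-- the injection of the field `p` -/
noncomputable def i_p (D : Dat M Z H E₁ E₂ Y C) : (ℂ × M) →ₗ[ℂ] Alg D where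
  toFun v := { (0 : Alg D) with p := v }
  map_add' v w := by ext1 <;> first | exact (add_zero _).symm | rfl
  map_smul' r v := by ext1 <;> first | exact (smul_zero _).symm | exact (clm_smul_zero _).symm | rfl

/-- the field `p` -/
noncomputable def j_p (D : Dat M Z H E₁ E₂ Y C) : Alg D →ₗ[ℂ] (ℂ × M) where
  toFun a := a.p
  map_add' _ _ := rfl
  map_smul' _ _ := rfl


/-- the injection of the field `q` -/
noncomputable def i_q (D : Dat M Z H E₁ E₂ Y C) : (ℂ × M) →ₗ[ℂ] Alg D where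
  toFun v := { (0 : Alg D) with q := v }
  map_add' v w := by ext1 <;> first | exact (add_zero _).symm | rfl
  map_smul' r v := by ext1 <;> first | exact (smul_zero _).symm | exact (clm_smul_zero _).symm | rfl

/-- the field `q` -/
noncomputable def j_q (D : Dat M Z H E₁ E₂ Y C) : Alg D →ₗ[ℂ] (ℂ × M) where
  toFun a := a.q
  map_add' _ _ := rfl
  map_smul' _ _ := rfl


/-- the injection of the field `x` -/
noncomputable def i_x (D : Dat M Z H E₁ E₂ Y C) : (ℂ × M × Z) →ₗ[ℂ] Alg D where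
  toFun v := { (0 : Alg D) with x := v }
  map_add' v w := by ext1 <;> first | exact (add_zero _).symm | rfl
  map_smul' r v := by ext1 <;> first | exact (smul_zero _).symm | exact (clm_smul_zero _).symm | rfl

/-- the field `x` -/
noncomputable def j_x (D : Dat M Z H E₁ E₂ Y C) : Alg D →ₗ[ℂ] (ℂ × M × Z) where
  toFun a := a.x
  map_add' _ _ := rfl
  map_smul' _ _ := rfl


/-- the injection of the field `h` -/
noncomputable def i_h (D : Dat M Z H E₁ E₂ Y C) : (H) →ₗ[ℂ] Alg D where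
  toFun v := { (0 : Alg D) with h := v }
  map_add' v w := by ext1 <;> first | exact (add_zero _).symm | rfl
  map_smul' r v := by ext1 <;> first | exact (smul_zero _).symm | exact (clm_smul_zero _).symm | rfl

/-- the field `h` -/
noncomputable def j_h (D : Dat M Z H E₁ E₂ Y C) : Alg D →ₗ[ℂ] (H) where
  toFun a := a.h
  map_add' _ _ := rfl
  map_smul' _ _ := rfl


/-- the injection of the field `k` -/
noncomputable def i_k (D : Dat M Z H E₁ E₂ Y C) : (ℂ) →ₗ[ℂ] Alg D where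
  toFun v := { (0 : Alg D) with k := v }
  map_add' v w := by ext1 <;> first | exact (add_zero _).symm | rfl
  map_smul' r v := by ext1 <;> first | exact (smul_zero _).symm | exact (clm_smul_zero _).symm | rfl

/-- the field `k` -/
noncomputable def j_k (D : Dat M Z H E₁ E₂ Y C) : Alg D →ₗ[ℂ] (ℂ) where
  toFun a := a.k
  map_add' _ _ := rfl
  map_smul' _ _ := rfl


/-- the injection of the field `t` -/
noncomputable def i_t (D : Dat M Z H E₁ E₂ Y C) : (ℂ) →ₗ[ℂ] Alg D where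
  toFun v := { (0 : Alg D) with t := v }
  map_add' v w := by ext1 <;> first | exact (add_zero _).symm | rfl
  map_smul' r v := by ext1 <;> first | exact (smul_zero _).symm | exact (clm_smul_zero _).symm | rfl

/-- the field `t` -/
noncomputable def j_t (D : Dat M Z H E₁ E₂ Y C) : Alg D →ₗ[ℂ] (ℂ) where
  toFun a := a.t
  map_add' _ _ := rfl
  map_smul' _ _ := rfl


/-- the injection of the field `c` -/
noncomputable def i_c (D : Dat M Z H E₁ E₂ Y C) : (ℂ × C) →ₗ[ℂ] Alg D where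
  toFun v := { (0 : Alg D) with c := v }
  map_add' v w := by ext1 <;> first | exact (add_zero _).symm | rfl
  map_smul' r v := by ext1 <;> first | exact (smul_zero _).symm | exact (clm_smul_zero _).symm | rfl

/-- the field `c` -/
noncomputable def j_c (D : Dat M Z H E₁ E₂ Y C) : Alg D →ₗ[ℂ] (ℂ × C) where
  toFun a := a.c
  map_add' _ _ := rfl
  map_smul' _ _ := rfl


/-- the injection of the field `g3` -/
noncomputable def i_g3 (D : Dat M Z H E₁ E₂ Y C) : (M →L[ℂ] ℂ) →ₗ[ℂ] Alg D where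
  toFun v := { (0 : Alg D) with g3 := v }
  map_add' v w := by ext1 <;> first | exact (add_zero _).symm | rfl
  map_smul' r v := by ext1 <;> first | exact (smul_zero _).symm | exact (clm_smul_zero _).symm | rfl

/-- the field `g3` -/
noncomputable def j_g3 (D : Dat M Z H E₁ E₂ Y C) : Alg D →ₗ[ℂ] (M →L[ℂ] ℂ) where
  toFun a := a.g3
  map_add' _ _ := rfl
  map_smul' _ _ := rfl


/-- the injection of the field `g4` -/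
noncomputable def i_g4 (D : Dat M Z H E₁ E₂ Y C) : (M →L[ℂ] ℂ) →ₗ[ℂ] Alg D where
  toFun v := { (0 : Alg D) with g4 := v }
  map_add' v w := by ext1 <;> first | exact (add_zero _).symm | rfl
  map_smul' r v := by ext1 <;> first | exact (smul_zero _).symm | exact (clm_smul_zero _).symm | rfl

/-- the field `g4` -/
noncomputable def j_g4 (D : Dat M Z H E₁ E₂ Y C) : Alg D →ₗ[ℂ] (M →L[ℂ] ℂ) where
  toFun a := a.g4
  map_add' _ _ := rfl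
  map_smul' _ _ := rfl


/-- the injection of the field `f` -/
noncomputable def i_f (D : Dat M Z H E₁ E₂ Y C) : (Z →L[ℂ] ℂ) →ₗ[ℂ] Alg D where
  toFun v := { (0 : Alg D) with f := v }
  map_add' v w := by ext1 <;> first | exact (add_zero _).symm | rfl
  map_smul' r v := by ext1 <;> first | exact (smul_zero _).symm | exact (clm_smul_zero _).symm | rfl

/-- the field `f` -/
noncomputable def j_f (D : Dat M Z H E₁ E₂ Y C) : Alg D →ₗ[ℂ] (Z →L[ℂ] ℂ) where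
  toFun a := a.f
  map_add' _ _ := rfl
  map_smul' _ _ := rfl


/-- the injection of the field `e1` -/
noncomputable def i_e1 (D : Dat M Z H E₁ E₂ Y C) : (E₁) →ₗ[ℂ] Alg D where
  toFun v := { (0 : Alg D) with e1 := v }
  map_add' v w := by ext1 <;> first | exact (add_zero _).symm | rfl
  map_smul' r v := by ext1 <;> first | exact (smul_zero _).symm | exact (clm_smul_zero _).symm | rfl

/-- the field `e1` -/
noncomputable def j_e1 (D : Dat M Z H E₁ E₂ Y C) : Alg D →ₗ[ℂ] (E₁) where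
  toFun a := a.e1
  map_add' _ _ := rfl
  map_smul' _ _ := rfl


/-- the injection of the field `e2` -/
noncomputable def i_e2 (D : Dat M Z H E₁ E₂ Y C) : (E₂) →ₗ[ℂ] Alg D where
  toFun v := { (0 : Alg D) with e2 := v }
  map_add' v w := by ext1 <;> first | exact (add_zero _).symm | rfl
  map_smul' r v := by ext1 <;> first | exact (smul_zero _).symm | exact (clm_smul_zero _).symm | rfl

/-- the field `e2` -/
noncomputable def j_e2 (D : Dat M Z H E₁ E₂ Y C) : Alg D →ₗ[ℂ] (E₂) where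
  toFun a := a.e2
  map_add' _ _ := rfl
  map_smul' _ _ := rfl


/-- the injection of the field `g6` -/
noncomputable def i_g6 (D : Dat M Z H E₁ E₂ Y C) : (H →L[ℂ] ℂ) →ₗ[ℂ] Alg D where
  toFun v := { (0 : Alg D) with g6 := v }
  map_add' v w := by ext1 <;> first | exact (add_zero _).symm | rfl
  map_smul' r v := by ext1 <;> first | exact (smul_zero _).symm | exact (clm_smul_zero _).symm | rfl

/-- the field `g6` -/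
noncomputable def j_g6 (D : Dat M Z H E₁ E₂ Y C) : Alg D →ₗ[ℂ] (H →L[ℂ] ℂ) where
  toFun a := a.g6
  map_add' _ _ := rfl
  map_smul' _ _ := rfl

variable {D : Dat M Z H E₁ E₂ Y C}

@[simp] lemma i_a1_a1 (v : ℂ) : (i_a1 D v).a1 = v := rfl
@[simp] lemma i_a1_a3 (v : ℂ) : (i_a1 D v).a3 = 0 := rfl
@[simp] lemma i_a1_a4 (v : ℂ) : (i_a1 D v).a4 = 0 := rfl
@[simp] lemma i_a1_a5 (v : ℂ) : (i_a1 D v).a5 = 0 := rfl
@[simp] lemma i_a1_a6 (v : ℂ) : (i_a1 D v).a6 = 0 := rfl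
@[simp] lemma i_a1_a7 (v : ℂ) : (i_a1 D v).a7 = 0 := rfl
@[simp] lemma i_a1_p (v : ℂ) : (i_a1 D v).p = 0 := rfl
@[simp] lemma i_a1_q (v : ℂ) : (i_a1 D v).q = 0 := rfl
@[simp] lemma i_a1_x (v : ℂ) : (i_a1 D v).x = 0 := rfl
@[simp] lemma i_a1_h (v : ℂ) : (i_a1 D v).h = 0 := rfl
@[simp] lemma i_a1_k (v : ℂ) : (i_a1 D v).k = 0 := rfl
@[simp] lemma i_a1_t (v : ℂ) : (i_a1 D v).t = 0 := rfl
@[simp] lemma i_a1_c (v : ℂ) : (i_a1 D v).c = 0 := rfl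
@[simp] lemma i_a1_g3 (v : ℂ) : (i_a1 D v).g3 = 0 := rfl
@[simp] lemma i_a1_g4 (v : ℂ) : (i_a1 D v).g4 = 0 := rfl
@[simp] lemma i_a1_f (v : ℂ) : (i_a1 D v).f = 0 := rfl
@[simp] lemma i_a1_e1 (v : ℂ) : (i_a1 D v).e1 = 0 := rfl
@[simp] lemma i_a1_e2 (v : ℂ) : (i_a1 D v).e2 = 0 := rfl
@[simp] lemma i_a1_g6 (v : ℂ) : (i_a1 D v).g6 = 0 := rfl
@[simp] lemma i_a3_a1 (v : ℂ) : (i_a3 D v).a1 = 0 := rfl
@[simp] lemma i_a3_a3 (v : ℂ) : (i_a3 D v).a3 = v := rfl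
@[simp] lemma i_a3_a4 (v : ℂ) : (i_a3 D v).a4 = 0 := rfl
@[simp] lemma i_a3_a5 (v : ℂ) : (i_a3 D v).a5 = 0 := rfl
@[simp] lemma i_a3_a6 (v : ℂ) : (i_a3 D v).a6 = 0 := rfl
@[simp] lemma i_a3_a7 (v : ℂ) : (i_a3 D v).a7 = 0 := rfl
@[simp] lemma i_a3_p (v : ℂ) : (i_a3 D v).p = 0 := rfl
@[simp] lemma i_a3_q (v : ℂ) : (i_a3 D v).q = 0 := rfl
@[simp] lemma i_a3_x (v : ℂ) : (i_a3 D v).x = 0 := rfl
@[simp] lemma i_a3_h (v : ℂ) : (i_a3 D v).h = 0 := rfl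
@[simp] lemma i_a3_k (v : ℂ) : (i_a3 D v).k = 0 := rfl
@[simp] lemma i_a3_t (v : ℂ) : (i_a3 D v).t = 0 := rfl
@[simp] lemma i_a3_c (v : ℂ) : (i_a3 D v).c = 0 := rfl
@[simp] lemma i_a3_g3 (v : ℂ) : (i_a3 D v).g3 = 0 := rfl
@[simp] lemma i_a3_g4 (v : ℂ) : (i_a3 D v).g4 = 0 := rfl
@[simp] lemma i_a3_f (v : ℂ) : (i_a3 D v).f = 0 := rfl
@[simp] lemma i_a3_e1 (v : ℂ) : (i_a3 D v).e1 = 0 := rfl
@[simp] lemma i_a3_e2 (v : ℂ) : (i_a3 D v).e2 = 0 := rfl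
@[simp] lemma i_a3_g6 (v : ℂ) : (i_a3 D v).g6 = 0 := rfl
@[simp] lemma i_a4_a1 (v : ℂ) : (i_a4 D v).a1 = 0 := rfl
@[simp] lemma i_a4_a3 (v : ℂ) : (i_a4 D v).a3 = 0 := rfl
@[simp] lemma i_a4_a4 (v : ℂ) : (i_a4 D v).a4 = v := rfl
@[simp] lemma i_a4_a5 (v : ℂ) : (i_a4 D v).a5 = 0 := rfl
@[simp] lemma i_a4_a6 (v : ℂ) : (i_a4 D v).a6 = 0 := rfl
@[simp] lemma i_a4_a7 (v : ℂ) : (i_a4 D v).a7 = 0 := rfl
@[simp] lemma i_a4_p (v : ℂ) : (i_a4 D v).p = 0 := rfl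
@[simp] lemma i_a4_q (v : ℂ) : (i_a4 D v).q = 0 := rfl
@[simp] lemma i_a4_x (v : ℂ) : (i_a4 D v).x = 0 := rfl
@[simp] lemma i_a4_h (v : ℂ) : (i_a4 D v).h = 0 := rfl
@[simp] lemma i_a4_k (v : ℂ) : (i_a4 D v).k = 0 := rfl
@[simp] lemma i_a4_t (v : ℂ) : (i_a4 D v).t = 0 := rfl
@[simp] lemma i_a4_c (v : ℂ) : (i_a4 D v).c = 0 := rfl
@[simp] lemma i_a4_g3 (v : ℂ) : (i_a4 D v).g3 = 0 := rfl
@[simp] lemma i_a4_g4 (v : ℂ) : (i_a4 D v).g4 = 0 := rfl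
@[simp] lemma i_a4_f (v : ℂ) : (i_a4 D v).f = 0 := rfl
@[simp] lemma i_a4_e1 (v : ℂ) : (i_a4 D v).e1 = 0 := rfl
@[simp] lemma i_a4_e2 (v : ℂ) : (i_a4 D v).e2 = 0 := rfl
@[simp] lemma i_a4_g6 (v : ℂ) : (i_a4 D v).g6 = 0 := rfl
@[simp] lemma i_a5_a1 (v : ℂ) : (i_a5 D v).a1 = 0 := rfl
@[simp] lemma i_a5_a3 (v : ℂ) : (i_a5 D v).a3 = 0 := rfl
@[simp] lemma i_a5_a4 (v : ℂ) : (i_a5 D v).a4 = 0 := rfl
@[simp] lemma i_a5_a5 (v : ℂ) : (i_a5 D v).a5 = v := rfl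
@[simp] lemma i_a5_a6 (v : ℂ) : (i_a5 D v).a6 = 0 := rfl
@[simp] lemma i_a5_a7 (v : ℂ) : (i_a5 D v).a7 = 0 := rfl
@[simp] lemma i_a5_p (v : ℂ) : (i_a5 D v).p = 0 := rfl
@[simp] lemma i_a5_q (v : ℂ) : (i_a5 D v).q = 0 := rfl
@[simp] lemma i_a5_x (v : ℂ) : (i_a5 D v).x = 0 := rfl
@[simp] lemma i_a5_h (v : ℂ) : (i_a5 D v).h = 0 := rfl
@[simp] lemma i_a5_k (v : ℂ) : (i_a5 D v).k = 0 := rfl
@[simp] lemma i_a5_t (v : ℂ) : (i_a5 D v).t = 0 := rfl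
@[simp] lemma i_a5_c (v : ℂ) : (i_a5 D v).c = 0 := rfl
@[simp] lemma i_a5_g3 (v : ℂ) : (i_a5 D v).g3 = 0 := rfl
@[simp] lemma i_a5_g4 (v : ℂ) : (i_a5 D v).g4 = 0 := rfl
@[simp] lemma i_a5_f (v : ℂ) : (i_a5 D v).f = 0 := rfl
@[simp] lemma i_a5_e1 (v : ℂ) : (i_a5 D v).e1 = 0 := rfl
@[simp] lemma i_a5_e2 (v : ℂ) : (i_a5 D v).e2 = 0 := rfl
@[simp] lemma i_a5_g6 (v : ℂ) : (i_a5 D v).g6 = 0 := rfl
@[simp] lemma i_a6_a1 (v : ℂ) : (i_a6 D v).a1 = 0 := rfl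
@[simp] lemma i_a6_a3 (v : ℂ) : (i_a6 D v).a3 = 0 := rfl
@[simp] lemma i_a6_a4 (v : ℂ) : (i_a6 D v).a4 = 0 := rfl
@[simp] lemma i_a6_a5 (v : ℂ) : (i_a6 D v).a5 = 0 := rfl
@[simp] lemma i_a6_a6 (v : ℂ) : (i_a6 D v).a6 = v := rfl
@[simp] lemma i_a6_a7 (v : ℂ) : (i_a6 D v).a7 = 0 := rfl
@[simp] lemma i_a6_p (v : ℂ) : (i_a6 D v).p = 0 := rfl
@[simp] lemma i_a6_q (v : ℂ) : (i_a6 D v).q = 0 := rfl
@[simp] lemma i_a6_x (v : ℂ) : (i_a6 D v).x = 0 := rfl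
@[simp] lemma i_a6_h (v : ℂ) : (i_a6 D v).h = 0 := rfl
@[simp] lemma i_a6_k (v : ℂ) : (i_a6 D v).k = 0 := rfl
@[simp] lemma i_a6_t (v : ℂ) : (i_a6 D v).t = 0 := rfl
@[simp] lemma i_a6_c (v : ℂ) : (i_a6 D v).c = 0 := rfl
@[simp] lemma i_a6_g3 (v : ℂ) : (i_a6 D v).g3 = 0 := rfl
@[simp] lemma i_a6_g4 (v : ℂ) : (i_a6 D v).g4 = 0 := rfl
@[simp] lemma i_a6_f (v : ℂ) : (i_a6 D v).f = 0 := rfl
@[simp] lemma i_a6_e1 (v : ℂ) : (i_a6 D v).e1 = 0 := rfl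
@[simp] lemma i_a6_e2 (v : ℂ) : (i_a6 D v).e2 = 0 := rfl
@[simp] lemma i_a6_g6 (v : ℂ) : (i_a6 D v).g6 = 0 := rfl
@[simp] lemma i_a7_a1 (v : ℂ) : (i_a7 D v).a1 = 0 := rfl
@[simp] lemma i_a7_a3 (v : ℂ) : (i_a7 D v).a3 = 0 := rfl
@[simp] lemma i_a7_a4 (v : ℂ) : (i_a7 D v).a4 = 0 := rfl
@[simp] lemma i_a7_a5 (v : ℂ) : (i_a7 D v).a5 = 0 := rfl
@[simp] lemma i_a7_a6 (v : ℂ) : (i_a7 D v).a6 = 0 := rfl
@[simp] lemma i_a7_a7 (v : ℂ) : (i_a7 D v).a7 = v := rfl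
@[simp] lemma i_a7_p (v : ℂ) : (i_a7 D v).p = 0 := rfl
@[simp] lemma i_a7_q (v : ℂ) : (i_a7 D v).q = 0 := rfl
@[simp] lemma i_a7_x (v : ℂ) : (i_a7 D v).x = 0 := rfl
@[simp] lemma i_a7_h (v : ℂ) : (i_a7 D v).h = 0 := rfl
@[simp] lemma i_a7_k (v : ℂ) : (i_a7 D v).k = 0 := rfl
@[simp] lemma i_a7_t (v : ℂ) : (i_a7 D v).t = 0 := rfl
@[simp] lemma i_a7_c (v : ℂ) : (i_a7 D v).c = 0 := rfl
@[simp] lemma i_a7_g3 (v : ℂ) : (i_a7 D v).g3 = 0 := rfl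
@[simp] lemma i_a7_g4 (v : ℂ) : (i_a7 D v).g4 = 0 := rfl
@[simp] lemma i_a7_f (v : ℂ) : (i_a7 D v).f = 0 := rfl
@[simp] lemma i_a7_e1 (v : ℂ) : (i_a7 D v).e1 = 0 := rfl
@[simp] lemma i_a7_e2 (v : ℂ) : (i_a7 D v).e2 = 0 := rfl
@[simp] lemma i_a7_g6 (v : ℂ) : (i_a7 D v).g6 = 0 := rfl
@[simp] lemma i_p_a1 (v : ℂ × M) : (i_p D v).a1 = 0 := rfl
@[simp] lemma i_p_a3 (v : ℂ × M) : (i_p D v).a3 = 0 := rfl
@[simp] lemma i_p_a4 (v : ℂ × M) : (i_p D v).a4 = 0 := rfl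
@[simp] lemma i_p_a5 (v : ℂ × M) : (i_p D v).a5 = 0 := rfl
@[simp] lemma i_p_a6 (v : ℂ × M) : (i_p D v).a6 = 0 := rfl
@[simp] lemma i_p_a7 (v : ℂ × M) : (i_p D v).a7 = 0 := rfl
@[simp] lemma i_p_p (v : ℂ × M) : (i_p D v).p = v := rfl
@[simp] lemma i_p_q (v : ℂ × M) : (i_p D v).q = 0 := rfl
@[simp] lemma i_p_x (v : ℂ × M) : (i_p D v).x = 0 := rfl
@[simp] lemma i_p_h (v : ℂ × M) : (i_p D v).h = 0 := rfl
@[simp] lemma i_p_k (v : ℂ × M) : (i_p D v).k = 0 := rfl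
@[simp] lemma i_p_t (v : ℂ × M) : (i_p D v).t = 0 := rfl
@[simp] lemma i_p_c (v : ℂ × M) : (i_p D v).c = 0 := rfl
@[simp] lemma i_p_g3 (v : ℂ × M) : (i_p D v).g3 = 0 := rfl
@[simp] lemma i_p_g4 (v : ℂ × M) : (i_p D v).g4 = 0 := rfl
@[simp] lemma i_p_f (v : ℂ × M) : (i_p D v).f = 0 := rfl
@[simp] lemma i_p_e1 (v : ℂ × M) : (i_p D v).e1 = 0 := rfl
@[simp] lemma i_p_e2 (v : ℂ × M) : (i_p D v).e2 = 0 := rfl
@[simp] lemma i_p_g6 (v : ℂ × M) : (i_p D v).g6 = 0 := rfl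
@[simp] lemma i_q_a1 (v : ℂ × M) : (i_q D v).a1 = 0 := rfl
@[simp] lemma i_q_a3 (v : ℂ × M) : (i_q D v).a3 = 0 := rfl
@[simp] lemma i_q_a4 (v : ℂ × M) : (i_q D v).a4 = 0 := rfl
@[simp] lemma i_q_a5 (v : ℂ × M) : (i_q D v).a5 = 0 := rfl
@[simp] lemma i_q_a6 (v : ℂ × M) : (i_q D v).a6 = 0 := rfl
@[simp] lemma i_q_a7 (v : ℂ × M) : (i_q D v).a7 = 0 := rfl
@[simp] lemma i_q_p (v : ℂ × M) : (i_q D v).p = 0 := rfl
@[simp] lemma i_q_q (v : ℂ × M) : (i_q D v).q = v := rfl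
@[simp] lemma i_q_x (v : ℂ × M) : (i_q D v).x = 0 := rfl
@[simp] lemma i_q_h (v : ℂ × M) : (i_q D v).h = 0 := rfl
@[simp] lemma i_q_k (v : ℂ × M) : (i_q D v).k = 0 := rfl
@[simp] lemma i_q_t (v : ℂ × M) : (i_q D v).t = 0 := rfl
@[simp] lemma i_q_c (v : ℂ × M) : (i_q D v).c = 0 := rfl
@[simp] lemma i_q_g3 (v : ℂ × M) : (i_q D v).g3 = 0 := rfl
@[simp] lemma i_q_g4 (v : ℂ × M) : (i_q D v).g4 = 0 := rfl
@[simp] lemma i_q_f (v : ℂ × M) : (i_q D v).f = 0 := rfl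
@[simp] lemma i_q_e1 (v : ℂ × M) : (i_q D v).e1 = 0 := rfl
@[simp] lemma i_q_e2 (v : ℂ × M) : (i_q D v).e2 = 0 := rfl
@[simp] lemma i_q_g6 (v : ℂ × M) : (i_q D v).g6 = 0 := rfl
@[simp] lemma i_x_a1 (v : ℂ × M × Z) : (i_x D v).a1 = 0 := rfl
@[simp] lemma i_x_a3 (v : ℂ × M × Z) : (i_x D v).a3 = 0 := rfl
@[simp] lemma i_x_a4 (v : ℂ × M × Z) : (i_x D v).a4 = 0 := rfl
@[simp] lemma i_x_a5 (v : ℂ × M × Z) : (i_x D v).a5 = 0 := rfl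
@[simp] lemma i_x_a6 (v : ℂ × M × Z) : (i_x D v).a6 = 0 := rfl
@[simp] lemma i_x_a7 (v : ℂ × M × Z) : (i_x D v).a7 = 0 := rfl
@[simp] lemma i_x_p (v : ℂ × M × Z) : (i_x D v).p = 0 := rfl
@[simp] lemma i_x_q (v : ℂ × M × Z) : (i_x D v).q = 0 := rfl
@[simp] lemma i_x_x (v : ℂ × M × Z) : (i_x D v).x = v := rfl
@[simp] lemma i_x_h (v : ℂ × M × Z) : (i_x D v).h = 0 := rfl
@[simp] lemma i_x_k (v : ℂ × M × Z) : (i_x D v).k = 0 := rfl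
@[simp] lemma i_x_t (v : ℂ × M × Z) : (i_x D v).t = 0 := rfl
@[simp] lemma i_x_c (v : ℂ × M × Z) : (i_x D v).c = 0 := rfl
@[simp] lemma i_x_g3 (v : ℂ × M × Z) : (i_x D v).g3 = 0 := rfl
@[simp] lemma i_x_g4 (v : ℂ × M × Z) : (i_x D v).g4 = 0 := rfl
@[simp] lemma i_x_f (v : ℂ × M × Z) : (i_x D v).f = 0 := rfl
@[simp] lemma i_x_e1 (v : ℂ × M × Z) : (i_x D v).e1 = 0 := rfl
@[simp] lemma i_x_e2 (v : ℂ × M × Z) : (i_x D v).e2 = 0 := rfl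
@[simp] lemma i_x_g6 (v : ℂ × M × Z) : (i_x D v).g6 = 0 := rfl
@[simp] lemma i_h_a1 (v : H) : (i_h D v).a1 = 0 := rfl
@[simp] lemma i_h_a3 (v : H) : (i_h D v).a3 = 0 := rfl
@[simp] lemma i_h_a4 (v : H) : (i_h D v).a4 = 0 := rfl
@[simp] lemma i_h_a5 (v : H) : (i_h D v).a5 = 0 := rfl
@[simp] lemma i_h_a6 (v : H) : (i_h D v).a6 = 0 := rfl
@[simp] lemma i_h_a7 (v : H) : (i_h D v).a7 = 0 := rfl
@[simp] lemma i_h_p (v : H) : (i_h D v).p = 0 := rfl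
@[simp] lemma i_h_q (v : H) : (i_h D v).q = 0 := rfl
@[simp] lemma i_h_x (v : H) : (i_h D v).x = 0 := rfl
@[simp] lemma i_h_h (v : H) : (i_h D v).h = v := rfl
@[simp] lemma i_h_k (v : H) : (i_h D v).k = 0 := rfl
@[simp] lemma i_h_t (v : H) : (i_h D v).t = 0 := rfl
@[simp] lemma i_h_c (v : H) : (i_h D v).c = 0 := rfl
@[simp] lemma i_h_g3 (v : H) : (i_h D v).g3 = 0 := rfl
@[simp] lemma i_h_g4 (v : H) : (i_h D v).g4 = 0 := rfl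
@[simp] lemma i_h_f (v : H) : (i_h D v).f = 0 := rfl
@[simp] lemma i_h_e1 (v : H) : (i_h D v).e1 = 0 := rfl
@[simp] lemma i_h_e2 (v : H) : (i_h D v).e2 = 0 := rfl
@[simp] lemma i_h_g6 (v : H) : (i_h D v).g6 = 0 := rfl
@[simp] lemma i_k_a1 (v : ℂ) : (i_k D v).a1 = 0 := rfl
@[simp] lemma i_k_a3 (v : ℂ) : (i_k D v).a3 = 0 := rfl
@[simp] lemma i_k_a4 (v : ℂ) : (i_k D v).a4 = 0 := rfl
@[simp] lemma i_k_a5 (v : ℂ) : (i_k D v).a5 = 0 := rfl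
@[simp] lemma i_k_a6 (v : ℂ) : (i_k D v).a6 = 0 := rfl
@[simp] lemma i_k_a7 (v : ℂ) : (i_k D v).a7 = 0 := rfl
@[simp] lemma i_k_p (v : ℂ) : (i_k D v).p = 0 := rfl
@[simp] lemma i_k_q (v : ℂ) : (i_k D v).q = 0 := rfl
@[simp] lemma i_k_x (v : ℂ) : (i_k D v).x = 0 := rfl
@[simp] lemma i_k_h (v : ℂ) : (i_k D v).h = 0 := rfl
@[simp] lemma i_k_k (v : ℂ) : (i_k D v).k = v := rfl
@[simp] lemma i_k_t (v : ℂ) : (i_k D v).t = 0 := rfl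
@[simp] lemma i_k_c (v : ℂ) : (i_k D v).c = 0 := rfl
@[simp] lemma i_k_g3 (v : ℂ) : (i_k D v).g3 = 0 := rfl
@[simp] lemma i_k_g4 (v : ℂ) : (i_k D v).g4 = 0 := rfl
@[simp] lemma i_k_f (v : ℂ) : (i_k D v).f = 0 := rfl
@[simp] lemma i_k_e1 (v : ℂ) : (i_k D v).e1 = 0 := rfl
@[simp] lemma i_k_e2 (v : ℂ) : (i_k D v).e2 = 0 := rfl
@[simp] lemma i_k_g6 (v : ℂ) : (i_k D v).g6 = 0 := rfl
@[simp] lemma i_t_a1 (v : ℂ) : (i_t D v).a1 = 0 := rfl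
@[simp] lemma i_t_a3 (v : ℂ) : (i_t D v).a3 = 0 := rfl
@[simp] lemma i_t_a4 (v : ℂ) : (i_t D v).a4 = 0 := rfl
@[simp] lemma i_t_a5 (v : ℂ) : (i_t D v).a5 = 0 := rfl
@[simp] lemma i_t_a6 (v : ℂ) : (i_t D v).a6 = 0 := rfl
@[simp] lemma i_t_a7 (v : ℂ) : (i_t D v).a7 = 0 := rfl
@[simp] lemma i_t_p (v : ℂ) : (i_t D v).p = 0 := rfl
@[simp] lemma i_t_q (v : ℂ) : (i_t D v).q = 0 := rfl
@[simp] lemma i_t_x (v : ℂ) : (i_t D v).x = 0 := rfl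
@[simp] lemma i_t_h (v : ℂ) : (i_t D v).h = 0 := rfl
@[simp] lemma i_t_k (v : ℂ) : (i_t D v).k = 0 := rfl
@[simp] lemma i_t_t (v : ℂ) : (i_t D v).t = v := rfl
@[simp] lemma i_t_c (v : ℂ) : (i_t D v).c = 0 := rfl
@[simp] lemma i_t_g3 (v : ℂ) : (i_t D v).g3 = 0 := rfl
@[simp] lemma i_t_g4 (v : ℂ) : (i_t D v).g4 = 0 := rfl
@[simp] lemma i_t_f (v : ℂ) : (i_t D v).f = 0 := rfl
@[simp] lemma i_t_e1 (v : ℂ) : (i_t D v).e1 = 0 := rfl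
@[simp] lemma i_t_e2 (v : ℂ) : (i_t D v).e2 = 0 := rfl
@[simp] lemma i_t_g6 (v : ℂ) : (i_t D v).g6 = 0 := rfl
@[simp] lemma i_c_a1 (v : ℂ × C) : (i_c D v).a1 = 0 := rfl
@[simp] lemma i_c_a3 (v : ℂ × C) : (i_c D v).a3 = 0 := rfl
@[simp] lemma i_c_a4 (v : ℂ × C) : (i_c D v).a4 = 0 := rfl
@[simp] lemma i_c_a5 (v : ℂ × C) : (i_c D v).a5 = 0 := rfl
@[simp] lemma i_c_a6 (v : ℂ × C) : (i_c D v).a6 = 0 := rfl
@[simp] lemma i_c_a7 (v : ℂ × C) : (i_c D v).a7 = 0 := rfl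
@[simp] lemma i_c_p (v : ℂ × C) : (i_c D v).p = 0 := rfl
@[simp] lemma i_c_q (v : ℂ × C) : (i_c D v).q = 0 := rfl
@[simp] lemma i_c_x (v : ℂ × C) : (i_c D v).x = 0 := rfl
@[simp] lemma i_c_h (v : ℂ × C) : (i_c D v).h = 0 := rfl
@[simp] lemma i_c_k (v : ℂ × C) : (i_c D v).k = 0 := rfl
@[simp] lemma i_c_t (v : ℂ × C) : (i_c D v).t = 0 := rfl
@[simp] lemma i_c_c (v : ℂ × C) : (i_c D v).c = v := rfl
@[simp] lemma i_c_g3 (v : ℂ × C) : (i_c D v).g3 = 0 := rfl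
@[simp] lemma i_c_g4 (v : ℂ × C) : (i_c D v).g4 = 0 := rfl
@[simp] lemma i_c_f (v : ℂ × C) : (i_c D v).f = 0 := rfl
@[simp] lemma i_c_e1 (v : ℂ × C) : (i_c D v).e1 = 0 := rfl
@[simp] lemma i_c_e2 (v : ℂ × C) : (i_c D v).e2 = 0 := rfl
@[simp] lemma i_c_g6 (v : ℂ × C) : (i_c D v).g6 = 0 := rfl
@[simp] lemma i_g3_a1 (v : M →L[ℂ] ℂ) : (i_g3 D v).a1 = 0 := rfl
@[simp] lemma i_g3_a3 (v : M →L[ℂ] ℂ) : (i_g3 D v).a3 = 0 := rfl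
@[simp] lemma i_g3_a4 (v : M →L[ℂ] ℂ) : (i_g3 D v).a4 = 0 := rfl
@[simp] lemma i_g3_a5 (v : M →L[ℂ] ℂ) : (i_g3 D v).a5 = 0 := rfl
@[simp] lemma i_g3_a6 (v : M →L[ℂ] ℂ) : (i_g3 D v).a6 = 0 := rfl
@[simp] lemma i_g3_a7 (v : M →L[ℂ] ℂ) : (i_g3 D v).a7 = 0 := rfl
@[simp] lemma i_g3_p (v : M →L[ℂ] ℂ) : (i_g3 D v).p = 0 := rfl
@[simp] lemma i_g3_q (v : M →L[ℂ] ℂ) : (i_g3 D v).q = 0 := rfl
@[simp] lemma i_g3_x (v : M →L[ℂ] ℂ) : (i_g3 D v).x = 0 := rfl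
@[simp] lemma i_g3_h (v : M →L[ℂ] ℂ) : (i_g3 D v).h = 0 := rfl
@[simp] lemma i_g3_k (v : M →L[ℂ] ℂ) : (i_g3 D v).k = 0 := rfl
@[simp] lemma i_g3_t (v : M →L[ℂ] ℂ) : (i_g3 D v).t = 0 := rfl
@[simp] lemma i_g3_c (v : M →L[ℂ] ℂ) : (i_g3 D v).c = 0 := rfl
@[simp] lemma i_g3_g3 (v : M →L[ℂ] ℂ) : (i_g3 D v).g3 = v := rfl
@[simp] lemma i_g3_g4 (v : M →L[ℂ] ℂ) : (i_g3 D v).g4 = 0 := rfl
@[simp] lemma i_g3_f (v : M →L[ℂ] ℂ) : (i_g3 D v).f = 0 := rfl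
@[simp] lemma i_g3_e1 (v : M →L[ℂ] ℂ) : (i_g3 D v).e1 = 0 := rfl
@[simp] lemma i_g3_e2 (v : M →L[ℂ] ℂ) : (i_g3 D v).e2 = 0 := rfl
@[simp] lemma i_g3_g6 (v : M →L[ℂ] ℂ) : (i_g3 D v).g6 = 0 := rfl
@[simp] lemma i_g4_a1 (v : M →L[ℂ] ℂ) : (i_g4 D v).a1 = 0 := rfl
@[simp] lemma i_g4_a3 (v : M →L[ℂ] ℂ) : (i_g4 D v).a3 = 0 := rfl
@[simp] lemma i_g4_a4 (v : M →L[ℂ] ℂ) : (i_g4 D v).a4 = 0 := rfl
@[simp] lemma i_g4_a5 (v : M →L[ℂ] ℂ) : (i_g4 D v).a5 = 0 := rfl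
@[simp] lemma i_g4_a6 (v : M →L[ℂ] ℂ) : (i_g4 D v).a6 = 0 := rfl
@[simp] lemma i_g4_a7 (v : M →L[ℂ] ℂ) : (i_g4 D v).a7 = 0 := rfl
@[simp] lemma i_g4_p (v : M →L[ℂ] ℂ) : (i_g4 D v).p = 0 := rfl
@[simp] lemma i_g4_q (v : M →L[ℂ] ℂ) : (i_g4 D v).q = 0 := rfl
@[simp] lemma i_g4_x (v : M →L[ℂ] ℂ) : (i_g4 D v).x = 0 := rfl
@[simp] lemma i_g4_h (v : M →L[ℂ] ℂ) : (i_g4 D v).h = 0 := rfl
@[simp] lemma i_g4_k (v : M →L[ℂ] ℂ) : (i_g4 D v).k = 0 := rfl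
@[simp] lemma i_g4_t (v : M →L[ℂ] ℂ) : (i_g4 D v).t = 0 := rfl
@[simp] lemma i_g4_c (v : M →L[ℂ] ℂ) : (i_g4 D v).c = 0 := rfl
@[simp] lemma i_g4_g3 (v : M →L[ℂ] ℂ) : (i_g4 D v).g3 = 0 := rfl
@[simp] lemma i_g4_g4 (v : M →L[ℂ] ℂ) : (i_g4 D v).g4 = v := rfl
@[simp] lemma i_g4_f (v : M →L[ℂ] ℂ) : (i_g4 D v).f = 0 := rfl
@[simp] lemma i_g4_e1 (v : M →L[ℂ] ℂ) : (i_g4 D v).e1 = 0 := rfl
@[simp] lemma i_g4_e2 (v : M →L[ℂ] ℂ) : (i_g4 D v).e2 = 0 := rfl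
@[simp] lemma i_g4_g6 (v : M →L[ℂ] ℂ) : (i_g4 D v).g6 = 0 := rfl
@[simp] lemma i_f_a1 (v : Z →L[ℂ] ℂ) : (i_f D v).a1 = 0 := rfl
@[simp] lemma i_f_a3 (v : Z →L[ℂ] ℂ) : (i_f D v).a3 = 0 := rfl
@[simp] lemma i_f_a4 (v : Z →L[ℂ] ℂ) : (i_f D v).a4 = 0 := rfl
@[simp] lemma i_f_a5 (v : Z →L[ℂ] ℂ) : (i_f D v).a5 = 0 := rfl
@[simp] lemma i_f_a6 (v : Z →L[ℂ] ℂ) : (i_f D v).a6 = 0 := rfl
@[simp] lemma i_f_a7 (v : Z →L[ℂ] ℂ) : (i_f D v).a7 = 0 := rfl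
@[simp] lemma i_f_p (v : Z →L[ℂ] ℂ) : (i_f D v).p = 0 := rfl
@[simp] lemma i_f_q (v : Z →L[ℂ] ℂ) : (i_f D v).q = 0 := rfl
@[simp] lemma i_f_x (v : Z →L[ℂ] ℂ) : (i_f D v).x = 0 := rfl
@[simp] lemma i_f_h (v : Z →L[ℂ] ℂ) : (i_f D v).h = 0 := rfl
@[simp] lemma i_f_k (v : Z →L[ℂ] ℂ) : (i_f D v).k = 0 := rfl
@[simp] lemma i_f_t (v : Z →L[ℂ] ℂ) : (i_f D v).t = 0 := rfl
@[simp] lemma i_f_c (v : Z →L[ℂ] ℂ) : (i_f D v).c = 0 := rfl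
@[simp] lemma i_f_g3 (v : Z →L[ℂ] ℂ) : (i_f D v).g3 = 0 := rfl
@[simp] lemma i_f_g4 (v : Z →L[ℂ] ℂ) : (i_f D v).g4 = 0 := rfl
@[simp] lemma i_f_f (v : Z →L[ℂ] ℂ) : (i_f D v).f = v := rfl
@[simp] lemma i_f_e1 (v : Z →L[ℂ] ℂ) : (i_f D v).e1 = 0 := rfl
@[simp] lemma i_f_e2 (v : Z →L[ℂ] ℂ) : (i_f D v).e2 = 0 := rfl
@[simp] lemma i_f_g6 (v : Z →L[ℂ] ℂ) : (i_f D v).g6 = 0 := rfl
@[simp] lemma i_e1_a1 (v : E₁) : (i_e1 D v).a1 = 0 := rfl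
@[simp] lemma i_e1_a3 (v : E₁) : (i_e1 D v).a3 = 0 := rfl
@[simp] lemma i_e1_a4 (v : E₁) : (i_e1 D v).a4 = 0 := rfl
@[simp] lemma i_e1_a5 (v : E₁) : (i_e1 D v).a5 = 0 := rfl
@[simp] lemma i_e1_a6 (v : E₁) : (i_e1 D v).a6 = 0 := rfl
@[simp] lemma i_e1_a7 (v : E₁) : (i_e1 D v).a7 = 0 := rfl
@[simp] lemma i_e1_p (v : E₁) : (i_e1 D v).p = 0 := rfl
@[simp] lemma i_e1_q (v : E₁) : (i_e1 D v).q = 0 := rfl
@[simp] lemma i_e1_x (v : E₁) : (i_e1 D v).x = 0 := rfl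
@[simp] lemma i_e1_h (v : E₁) : (i_e1 D v).h = 0 := rfl
@[simp] lemma i_e1_k (v : E₁) : (i_e1 D v).k = 0 := rfl
@[simp] lemma i_e1_t (v : E₁) : (i_e1 D v).t = 0 := rfl
@[simp] lemma i_e1_c (v : E₁) : (i_e1 D v).c = 0 := rfl
@[simp] lemma i_e1_g3 (v : E₁) : (i_e1 D v).g3 = 0 := rfl
@[simp] lemma i_e1_g4 (v : E₁) : (i_e1 D v).g4 = 0 := rfl
@[simp] lemma i_e1_f (v : E₁) : (i_e1 D v).f = 0 := rfl
@[simp] lemma i_e1_e1 (v : E₁) : (i_e1 D v).e1 = v := rfl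
@[simp] lemma i_e1_e2 (v : E₁) : (i_e1 D v).e2 = 0 := rfl
@[simp] lemma i_e1_g6 (v : E₁) : (i_e1 D v).g6 = 0 := rfl
@[simp] lemma i_e2_a1 (v : E₂) : (i_e2 D v).a1 = 0 := rfl
@[simp] lemma i_e2_a3 (v : E₂) : (i_e2 D v).a3 = 0 := rfl
@[simp] lemma i_e2_a4 (v : E₂) : (i_e2 D v).a4 = 0 := rfl
@[simp] lemma i_e2_a5 (v : E₂) : (i_e2 D v).a5 = 0 := rfl
@[simp] lemma i_e2_a6 (v : E₂) : (i_e2 D v).a6 = 0 := rfl
@[simp] lemma i_e2_a7 (v : E₂) : (i_e2 D v).a7 = 0 := rfl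
@[simp] lemma i_e2_p (v : E₂) : (i_e2 D v).p = 0 := rfl
@[simp] lemma i_e2_q (v : E₂) : (i_e2 D v).q = 0 := rfl
@[simp] lemma i_e2_x (v : E₂) : (i_e2 D v).x = 0 := rfl
@[simp] lemma i_e2_h (v : E₂) : (i_e2 D v).h = 0 := rfl
@[simp] lemma i_e2_k (v : E₂) : (i_e2 D v).k = 0 := rfl
@[simp] lemma i_e2_t (v : E₂) : (i_e2 D v).t = 0 := rfl
@[simp] lemma i_e2_c (v : E₂) : (i_e2 D v).c = 0 := rfl
@[simp] lemma i_e2_g3 (v : E₂) : (i_e2 D v).g3 = 0 := rfl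
@[simp] lemma i_e2_g4 (v : E₂) : (i_e2 D v).g4 = 0 := rfl
@[simp] lemma i_e2_f (v : E₂) : (i_e2 D v).f = 0 := rfl
@[simp] lemma i_e2_e1 (v : E₂) : (i_e2 D v).e1 = 0 := rfl
@[simp] lemma i_e2_e2 (v : E₂) : (i_e2 D v).e2 = v := rfl
@[simp] lemma i_e2_g6 (v : E₂) : (i_e2 D v).g6 = 0 := rfl
@[simp] lemma i_g6_a1 (v : H →L[ℂ] ℂ) : (i_g6 D v).a1 = 0 := rfl
@[simp] lemma i_g6_a3 (v : H →L[ℂ] ℂ) : (i_g6 D v).a3 = 0 := rfl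
@[simp] lemma i_g6_a4 (v : H →L[ℂ] ℂ) : (i_g6 D v).a4 = 0 := rfl
@[simp] lemma i_g6_a5 (v : H →L[ℂ] ℂ) : (i_g6 D v).a5 = 0 := rfl
@[simp] lemma i_g6_a6 (v : H →L[ℂ] ℂ) : (i_g6 D v).a6 = 0 := rfl
@[simp] lemma i_g6_a7 (v : H →L[ℂ] ℂ) : (i_g6 D v).a7 = 0 := rfl
@[simp] lemma i_g6_p (v : H →L[ℂ] ℂ) : (i_g6 D v).p = 0 := rfl
@[simp] lemma i_g6_q (v : H →L[ℂ] ℂ) : (i_g6 D v).q = 0 := rfl
@[simp] lemma i_g6_x (v : H →L[ℂ] ℂ) : (i_g6 D v).x = 0 := rfl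
@[simp] lemma i_g6_h (v : H →L[ℂ] ℂ) : (i_g6 D v).h = 0 := rfl
@[simp] lemma i_g6_k (v : H →L[ℂ] ℂ) : (i_g6 D v).k = 0 := rfl
@[simp] lemma i_g6_t (v : H →L[ℂ] ℂ) : (i_g6 D v).t = 0 := rfl
@[simp] lemma i_g6_c (v : H →L[ℂ] ℂ) : (i_g6 D v).c = 0 := rfl
@[simp] lemma i_g6_g3 (v : H →L[ℂ] ℂ) : (i_g6 D v).g3 = 0 := rfl
@[simp] lemma i_g6_g4 (v : H →L[ℂ] ℂ) : (i_g6 D v).g4 = 0 := rfl
@[simp] lemma i_g6_f (v : H →L[ℂ] ℂ) : (i_g6 D v).f = 0 := rfl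
@[simp] lemma i_g6_e1 (v : H →L[ℂ] ℂ) : (i_g6 D v).e1 = 0 := rfl
@[simp] lemma i_g6_e2 (v : H →L[ℂ] ℂ) : (i_g6 D v).e2 = 0 := rfl
@[simp] lemma i_g6_g6 (v : H →L[ℂ] ℂ) : (i_g6 D v).g6 = v := rfl

end Alg

end Pool.Agent.R233.NA
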