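import Pool.Agent.R233.NA.TDefs

/-!
# NA-4e: the bilinear map `bh x` is bounded (MP_357fb8_an)
-/

set_option autoImplicit false

open Filter Topology
open scoped ENNReal Cardinal

namespace Pool.Agent.R233.NA

namespace BH

lemma norm_l1 {ι : Type} (c : L1 ι) : ‖c‖ = ∑' i, ‖c i‖ := by
  rw [lp.norm_eq_tsum_rpow (by norm_num) c]
  simp

lemma norm_ten {ι : Type} (c d : L1 ι) : ‖ten c d‖ = ‖c‖ * ‖d‖ := by
  rw [norm_l1, norm_l1, norm_l1]
  have h := tsum_mul_tsum_of_summable_norm (f := fun i => ‖c i‖) (g := fun i => ‖d i‖)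
    (by simpa using l1_summable c) (by simpa using l1_summable d)
  rw [h]
  refine tsum_congr fun p => ?_
  change ‖c p.1 * d p.2‖ = _
  rw [norm_mul]

lemma ten_apply {ι : Type} (c d : L1 ι) (p : ι × ι) : ten c d p = c p.1 * d p.2 := rfl

lemma ten_add_left {ι : Type} (c c' d : L1 ι) : ten (c + c') d = ten c d + ten c' d := by
  ext p
  rw [lp.coeFn_add, Pi.add_apply, ten_apply, ten_apply, ten_apply, lp.coeFn_add, Pi.add_apply,
    add_mul]

lemma ten_add_right {ι : Type} (c d d' : L1 ι) : ten c (d + d') = ten c d + ten c d' := by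
  ext p
  rw [lp.coeFn_add, Pi.add_apply, ten_apply, ten_apply, ten_apply, lp.coeFn_add, Pi.add_apply,
    mul_add]

lemma ten_smul_left {ι : Type} (a : ℂ) (c d : L1 ι) : ten (a • c) d = a • ten c d := by
  ext p
  rw [lp.coeFn_smul, Pi.smul_apply, ten_apply, ten_apply, lp.coeFn_smul, Pi.smul_apply,
    smul_eq_mul, smul_eq_mul, mul_assoc]

lemma ten_smul_right {ι : Type} (a : ℂ) (c d : L1 ι) : ten c (a • d) = a • ten c d := by
  ext p
  rw [lp.coeFn_smul, Pi.smul_apply, ten_apply, ten_apply, lp.coeFn_smul, Pi.smul_apply,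
    smul_eq_mul, smul_eq_mul]
  ring

variable {ι B : Type} [DecidableEq ι] [NormedAddCommGroup B] [NormedSpace ℂ B] [CompleteSpace B]

/-- the vectors in the sum -/
noncomputable def yy (x : ι → B × L1 (ι × ι)) (l : ι) : B × L1 (ι × ι) :=
  x l - (0, lp.single 1 (l, l) (1 : ℂ))

omit [NormedSpace ℂ B] [CompleteSpace B] in
lemma norm_yy {x : ι → B × L1 (ι × ι)} (hx : ∀ l, ‖x l‖ ≤ 1) (l : ι) : ‖yy x l‖ ≤ 2 := by
  unfold yy
  refine (norm_sub_le _ _).trans ?_
  have h1 : ‖((0 : B), (lp.single 1 (l, l) (1 : ℂ) : L1 (ι × ι)))‖ ≤ 1 := by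
    rw [Prod.norm_mk, norm_zero, lp.norm_single (by norm_num)]
    simp
  linarith [hx l]

omit [CompleteSpace B] in
lemma norm_term {x : ι → B × L1 (ι × ι)} (hx : ∀ l, ‖x l‖ ≤ 1) (c d : L1 ι) (l : ι) :
    ‖(c l * d l) • yy x l‖ ≤ 2 * ‖c‖ * ‖d l‖ := by
  rw [norm_smul, norm_mul]
  have h1 : ‖c l‖ ≤ ‖c‖ := lp.norm_apply_le_norm (by norm_num) c l
  have h2 := norm_yy hx l
  calc ‖c l‖ * ‖d l‖ * ‖yy x l‖ ≤ ‖c l‖ * ‖d l‖ * 2 :=
        mul_le_mul_of_nonneg_left h2 (by positivity)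
    _ ≤ ‖c‖ * ‖d l‖ * 2 := by gcongr
    _ = 2 * ‖c‖ * ‖d l‖ := by ring

omit [CompleteSpace B] in
lemma summable_norm {x : ι → B × L1 (ι × ι)} (hx : ∀ l, ‖x l‖ ≤ 1) (c d : L1 ι) :
    Summable fun l => ‖(c l * d l) • yy x l‖ :=
  Summable.of_nonneg_of_le (fun _ => norm_nonneg _) (norm_term hx c d)
    ((l1_summable d).mul_left _)

lemma summable {x : ι → B × L1 (ι × ι)} (hx : ∀ l, ‖x l‖ ≤ 1) (c d : L1 ι) :
    Summable fun l => (c l * d l) • yy x l := (summable_norm hx c d).of_norm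

omit [CompleteSpace B] in
lemma bh_eq (x : ι → B × L1 (ι × ι)) (c d : L1 ι) :
    bh x c d = (0, ten c d) + ∑' l, (c l * d l) • yy x l := rfl

lemma bh_add_left {x : ι → B × L1 (ι × ι)} (hx : ∀ l, ‖x l‖ ≤ 1) (c c' d : L1 ι) :
    bh x (c + c') d = bh x c d + bh x c' d := by
  have h1 : ∑' l, ((c + c') l * d l) • yy x l =
      ∑' l, (c l * d l) • yy x l + ∑' l, (c' l * d l) • yy x l := by
    rw [← (summable hx c d).tsum_add (summable hx c' d)]
    refine tsum_congr fun l => ?_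
    rw [lp.coeFn_add, Pi.add_apply, add_mul, add_smul]
  have h2 : ((0 : B), ten c d + ten c' d) = (0, ten c d) + (0, ten c' d) := by
    rw [Prod.mk_add_mk, add_zero]
  rw [bh_eq, bh_eq, bh_eq, h1, ten_add_left, h2]
  abel

lemma bh_add_right {x : ι → B × L1 (ι × ι)} (hx : ∀ l, ‖x l‖ ≤ 1) (c d d' : L1 ι) :
    bh x c (d + d') = bh x c d + bh x c d' := by
  have h1 : ∑' l, (c l * (d + d') l) • yy x l =
      ∑' l, (c l * d l) • yy x l + ∑' l, (c l * d' l) • yy x l := by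
    rw [← (summable hx c d).tsum_add (summable hx c d')]
    refine tsum_congr fun l => ?_
    rw [lp.coeFn_add, Pi.add_apply, mul_add, add_smul]
  have h2 : ((0 : B), ten c d + ten c d') = (0, ten c d) + (0, ten c d') := by
    rw [Prod.mk_add_mk, add_zero]
  rw [bh_eq, bh_eq, bh_eq, h1, ten_add_right, h2]
  abel

lemma bh_smul_left {x : ι → B × L1 (ι × ι)} (hx : ∀ l, ‖x l‖ ≤ 1) (a : ℂ) (c d : L1 ι) :
    bh x (a • c) d = a • bh x c d := by
  have h1 : ∑' l, ((a • c) l * d l) • yy x l = a • ∑' l, (c l * d l) • yy x l := by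
    rw [← (summable hx c d).tsum_const_smul a]
    refine tsum_congr fun l => ?_
    rw [lp.coeFn_smul, Pi.smul_apply, smul_eq_mul, smul_smul, mul_assoc]
  have h2 : ((0 : B), a • ten c d) = a • ((0 : B), ten c d) := by
    rw [Prod.smul_mk, smul_zero]
  rw [bh_eq, bh_eq, h1, ten_smul_left, h2, smul_add]

lemma bh_smul_right {x : ι → B × L1 (ι × ι)} (hx : ∀ l, ‖x l‖ ≤ 1) (a : ℂ) (c d : L1 ι) :
    bh x c (a • d) = a • bh x c d := by
  have h1 : ∑' l, (c l * (a • d) l) • yy x l = a • ∑' l, (c l * d l) • yy x l := by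
    rw [← (summable hx c d).tsum_const_smul a]
    refine tsum_congr fun l => ?_
    rw [lp.coeFn_smul, Pi.smul_apply, smul_eq_mul, smul_smul]
    congr 1
    ring
  have h2 : ((0 : B), a • ten c d) = a • ((0 : B), ten c d) := by
    rw [Prod.smul_mk, smul_zero]
  rw [bh_eq, bh_eq, h1, ten_smul_right, h2, smul_add]

omit [CompleteSpace B] in
lemma norm_bh {x : ι → B × L1 (ι × ι)} (hx : ∀ l, ‖x l‖ ≤ 1) (c d : L1 ι) :
    ‖bh x c d‖ ≤ 3 * ‖c‖ * ‖d‖ := by
  rw [bh_eq]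
  refine (norm_add_le _ _).trans ?_
  have h1 : ‖((0 : B), ten c d)‖ ≤ ‖c‖ * ‖d‖ := by
    rw [Prod.norm_mk, norm_zero, norm_ten]
    exact max_le (by positivity) le_rfl
  have h2 : ‖∑' l, (c l * d l) • yy x l‖ ≤ 2 * ‖c‖ * ‖d‖ := by
    refine (norm_tsum_le_tsum_norm (summable_norm hx c d)).trans ?_
    rw [norm_l1 d, ← tsum_mul_left]
    exact (summable_norm hx c d).tsum_le_tsum (norm_term hx c d) ((l1_summable d).mul_left _)
  linarith

/-- the bounded bilinear map -/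
noncomputable def bt {x : ι → B × L1 (ι × ι)} (hx : ∀ l, ‖x l‖ ≤ 1) :
    L1 ι →L[ℂ] L1 ι →L[ℂ] (B × L1 (ι × ι)) :=
  LinearMap.mkContinuous₂ (LinearMap.mk₂ ℂ (bh x) (bh_add_left hx) (fun a c d => bh_smul_left hx a c d)
    (bh_add_right hx) (fun a c d => bh_smul_right hx a c d)) 3 (norm_bh hx)

/-- a coordinate of the second component -/
noncomputable def ev (p : ι × ι) : (B × L1 (ι × ι)) →L[ℂ] ℂ :=
  (lp.evalCLM ℂ (fun _ : ι × ι => ℂ) 1 p).comp (ContinuousLinearMap.snd ℂ B (L1 (ι × ι)))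

omit [DecidableEq ι] [CompleteSpace B] in
lemma ev_apply (p : ι × ι) (v : B × L1 (ι × ι)) : ev p v = v.2 p := rfl

lemma coord {x : ι → B × L1 (ι × ι)} (hx : ∀ l, ‖x l‖ ≤ 1) (c d : L1 ι) (i j : ι) :
    (bh x c d).2 (i, j) =
      (if i = j then 0 else c i * d j) + ∑' l, c l * d l * (x l).2 (i, j) := by
  have h0 : (bh x c d).2 (i, j) = ev (i, j) (bh x c d) := rfl
  rw [h0, bh_eq, map_add, ContinuousLinearMap.map_tsum _ (summable hx c d)]
  have h2 : ev (i, j) ((0 : B), ten c d) = c i * d j := rfl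
  have hs1 : Summable fun l => c l * d l * (x l).2 (i, j) := by
    refine Summable.of_norm_bounded (g := fun l => ‖c‖ * ‖d l‖) ((l1_summable d).mul_left _) ?_
    intro l
    rw [norm_mul, norm_mul]
    have h1 : ‖c l‖ ≤ ‖c‖ := lp.norm_apply_le_norm (by norm_num) c l
    have h3 : ‖(x l).2 (i, j)‖ ≤ 1 :=
      (lp.norm_apply_le_norm (by norm_num) (x l).2 (i, j)).trans ((norm_snd_le (x l)).trans (hx l))
    calc ‖c l‖ * ‖d l‖ * ‖(x l).2 (i, j)‖ ≤ ‖c l‖ * ‖d l‖ * 1 :=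
          mul_le_mul_of_nonneg_left h3 (by positivity)
      _ ≤ ‖c‖ * ‖d l‖ * 1 := by gcongr
      _ = ‖c‖ * ‖d l‖ := mul_one _
  have h3 : ∀ l, ev (i, j) ((c l * d l) • yy x l) =
      c l * d l * (x l).2 (i, j) - (if l = i then (if i = j then c i * d i else 0) else 0) := by
    intro l
    rw [map_smul, yy, map_sub, ev_apply, ev_apply, smul_eq_mul, mul_sub]
    congr 1
    by_cases hl : l = i
    · subst hl
      rw [if_pos rfl]
      by_cases hij : l = j
      · subst hij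
        rw [if_pos rfl]
        change c l * d l * (lp.single 1 (l, l) (1 : ℂ) : L1 (ι × ι)) (l, l) = _
        rw [lp.single_apply_self, mul_one]
      · rw [if_neg hij]
        change c l * d l * (lp.single 1 (l, l) (1 : ℂ) : L1 (ι × ι)) (l, j) = _
        rw [lp.single_apply_ne _ _ _ (fun h => hij (Prod.ext_iff.1 h).2.symm), mul_zero]
    · rw [if_neg hl]
      change c l * d l * (lp.single 1 (l, l) (1 : ℂ) : L1 (ι × ι)) (i, j) = _
      rw [lp.single_apply_ne _ _ _ (fun h => hl (Prod.ext_iff.1 h).1.symm), mul_zero]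
  have hs2 : Summable fun l => (if l = i then (if i = j then c i * d i else 0) else (0 : ℂ)) :=
    (hasSum_ite_eq i _).summable
  rw [tsum_congr h3, hs1.tsum_sub hs2, tsum_ite_eq, h2]
  by_cases hij : i = j
  · subst hij
    rw [if_pos rfl, if_pos rfl]
    ring
  · rw [if_neg hij, if_neg hij]
    ring

omit [CompleteSpace B] in
lemma bh_single (x : ι → B × L1 (ι × ι)) (l : ι) :
    bh x (lp.single 1 l (1 : ℂ)) (lp.single 1 l (1 : ℂ)) = x l := by
  rw [bh_eq]
  have h1 : ten (lp.single 1 l (1 : ℂ) : L1 ι) (lp.single 1 l (1 : ℂ)) =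
      lp.single 1 (l, l) (1 : ℂ) := by
    ext p
    rw [ten_apply]
    by_cases hp : p = (l, l)
    · subst hp
      rw [lp.single_apply_self, lp.single_apply_self, mul_one]
    · rw [lp.single_apply_ne _ _ _ hp]
      by_cases h2 : p.1 = l
      · have h3 : p.2 ≠ l := fun h => hp (Prod.ext h2 h)
        rw [lp.single_apply_ne _ _ _ h3, mul_zero]
      · rw [lp.single_apply_ne _ _ _ h2, zero_mul]
  rw [h1, tsum_eq_single l]
  · rw [lp.single_apply_self, mul_one, one_smul, yy]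
    abel
  · intro m hm
    rw [lp.single_apply_ne _ _ _ hm, mul_zero, zero_smul]

end BH

theorem s_bh : S_bh := by
  intro ι B _ _ _ _ x hx
  exact ⟨⟨BH.bt hx, fun c d => rfl⟩, BH.bh_single x, BH.summable hx, BH.coord hx⟩

end Pool.Agent.R233.NA
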