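import Pool.Agent.R233.NA.Stm

/-!
# NA-4b and NA-4c: the first uncountable ordinal as a type, the cardinality of `ℓ¹` spaces
-/

set_option autoImplicit false

open Filter Topology Cardinal Ordinal
open scoped ENNReal Cardinal Ordinal

namespace Pool.Agent.R233.NA

theorem s_omega : S_omega := by
  refine ⟨(ω₁ : Ordinal.{0}).ToType, inferInstance, inferInstance, ?_, ?_⟩
  · rw [Cardinal.mk_toType]
    have h : (ω₁ : Ordinal.{0}).card = ℵ₁ := by simp
    rw [h]
    exact aleph_one_le_continuum
  · intro s hs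
    have : Countable s := hs.to_subtype
    have h1 : ⨆ i : s, Order.succ ((Ordinal.ToType.mk.symm (i : (ω₁ : Ordinal.{0}).ToType)) : Ordinal.{0}) < ω₁ := by
      apply Ordinal.iSup_lt_omega_one
      intro i
      have h2 : ((Ordinal.ToType.mk.symm (i : (ω₁ : Ordinal.{0}).ToType)) : Ordinal.{0}) < ω₁ :=
        (Ordinal.ToType.mk.symm (i : (ω₁ : Ordinal.{0}).ToType)).2
      exact (Cardinal.isSuccLimit_omega 1).succ_lt h2
    refine ⟨Ordinal.ToType.mk ⟨_, h1⟩, fun γ hγ => ?_⟩
    rw [← Ordinal.ToType.mk.symm.lt_iff_lt, OrderIso.symm_apply_apply]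
    change ((Ordinal.ToType.mk.symm γ) : Ordinal.{0}) < _
    refine lt_of_lt_of_le (Order.lt_succ _) ?_
    exact Ordinal.le_iSup (fun i : s =>
      Order.succ ((Ordinal.ToType.mk.symm (i : (ω₁ : Ordinal.{0}).ToType)) : Ordinal.{0})) ⟨γ, hγ⟩

theorem s_card : S_card := by
  classical
  intro ι V _ _ hι hV
  have key : ∀ (f : lp (fun _ : ι => V) 1) (n : ℕ), ∃ l : List (ι × V),
      ‖f - (l.map fun p => lp.single (E := fun _ : ι => V) 1 p.1 p.2).sum‖ < 1 / ((n : ℝ) + 1) := by
    intro f n
    have h1 := lp.hasSum_single (E := fun _ : ι => V) (p := 1) (by simp) f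
    have h2 : ∀ᶠ s : Finset ι in atTop, ‖f - ∑ i ∈ s, lp.single (E := fun _ : ι => V) 1 i (f i)‖ <
        1 / ((n : ℝ) + 1) := by
      have h3 := (Metric.tendsto_nhds.1 h1) (1 / ((n : ℝ) + 1)) (by positivity)
      filter_upwards [h3] with s hs
      rw [← dist_eq_norm, dist_comm]
      exact hs
    obtain ⟨s, hs⟩ := h2.exists
    refine ⟨s.toList.map fun i => (i, f i), ?_⟩
    have h4 : ((s.toList.map fun i => (i, f i)).map
        fun p => lp.single (E := fun _ : ι => V) 1 p.1 p.2).sum =
        ∑ i ∈ s, lp.single (E := fun _ : ι => V) 1 i (f i) := by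
      rw [List.map_map, ← Finset.sum_map_toList]
      rfl
    rw [h4]
    exact hs
  choose g hg using key
  have hinj : Function.Injective g := by
    intro f f' h
    have h1 : ‖f - f'‖ ≤ 0 := by
      apply le_of_forall_pos_lt_add
      intro ε hε
      obtain ⟨n, hn⟩ := exists_nat_one_div_lt (half_pos hε)
      have h2 := hg f n
      have h3 := hg f' n
      rw [← h] at h3
      have h4 := norm_sub_le (f - ((g f n).map fun p => lp.single (E := fun _ : ι => V) 1 p.1 p.2).sum)
        (f' - ((g f n).map fun p => lp.single (E := fun _ : ι => V) 1 p.1 p.2).sum)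
      rw [sub_sub_sub_cancel_right] at h4
      linarith
    exact sub_eq_zero.1 (norm_le_zero_iff.1 h1)
  calc #(lp (fun _ : ι => V) 1) ≤ #(ℕ → List (ι × V)) := Cardinal.mk_le_of_injective hinj
    _ = #(List (ι × V)) ^ ℵ₀ := by simp
    _ ≤ 𝔠 ^ ℵ₀ := by
        apply Cardinal.power_le_power_right
        refine (Cardinal.mk_list_le_max _).trans (max_le aleph0_le_continuum ?_)
        rw [Cardinal.mk_prod, Cardinal.lift_id, Cardinal.lift_id]
        calc #ι * #V ≤ 𝔠 * 𝔠 := mul_le_mul' hι hV
          _ = 𝔠 := continuum_mul_self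
    _ = 𝔠 := continuum_power_aleph0

end Pool.Agent.R233.NA
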