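import Pool.Agent.R233.NA.Stm

/-!
# MP_357fb8_an : NA-3, classification at the level of components
-/

open Filter Topology

namespace Pool.Agent.R233.NA

namespace IsBNorm

variable {V : Type*} [AddCommGroup V] [Module ℂ V] {n : V → ℝ} (h : IsBNorm n)
include h

lemma zero' : n 0 = 0 := by
  have := h.smul 0 0
  simpa using this

lemma neg' (v : V) : n (-v) = n v := by
  have := h.smul (-1) v
  simpa using this

lemma nonneg' (v : V) : 0 ≤ n v := by
  have h1 := h.add_le v (-v)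
  rw [h.neg', add_neg_cancel, h.zero'] at h1
  linarith

lemma sub_le (v w : V) : n (v - w) ≤ n v + n w := by
  have h1 := h.add_le v (-w)
  rw [h.neg', ← sub_eq_add_neg] at h1
  exact h1

lemma le_of (v w : V) : n v ≤ n w + n (v - w) := by
  have h1 := h.add_le w (v - w)
  rwa [add_sub_cancel] at h1

lemma comm (v w : V) : n (v - w) = n (w - v) := by
  rw [← h.neg', neg_sub]

end IsBNorm

lemma posK {α : Type*} {f g : α → ℝ} (hg : ∀ a, 0 ≤ g a) (h : ∃ K : ℝ, ∀ a, f a ≤ K * g a) :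
    ∃ K : ℝ, 0 < K ∧ ∀ a, f a ≤ K * g a := by
  obtain ⟨K, hK⟩ := h
  refine ⟨max K 1, lt_max_of_lt_right one_pos, fun a => (hK a).trans ?_⟩
  exact mul_le_mul_of_nonneg_right (le_max_left _ _) (hg a)

lemma normEquiv_of {V : Type*} {n n' : V → ℝ}
    (h1 : ∃ K : ℝ, 0 < K ∧ ∀ v, n v ≤ K * n' v) (h2 : ∃ K : ℝ, 0 < K ∧ ∀ v, n' v ≤ K * n v) :
    NormEquiv n n' := by
  obtain ⟨K, hK, h1⟩ := h1
  obtain ⟨K', hK', h2⟩ := h2
  refine ⟨K⁻¹, K', inv_pos.2 hK, hK', fun v => ⟨?_, h2 v⟩⟩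
  rw [inv_mul_le_iff₀ hK]
  exact h1 v

/-- extend an estimate from the unit ball of a graph norm by homogeneity -/
lemma scale_bound {W V : Type*} [AddCommGroup W] [Module ℂ W] {n : W → ℝ} (hn : IsBNorm n)
    [NormedAddCommGroup V] [NormedSpace ℂ V] {G : Type*} [NormedAddCommGroup G] [NormedSpace ℂ G]
    (φ : V →ₗ[ℂ] G) (ι : V →ₗ[ℂ] W) (K : ℝ)
    (h : ∀ v, ‖v‖ ≤ 1 → ‖φ v‖ ≤ 1 → n (ι v) ≤ K) (v : V) : n (ι v) ≤ K * (‖v‖ + ‖φ v‖) := by
  have hK : 0 ≤ K := (hn.nonneg' (ι 0)).trans (h 0 (by simp) (by simp))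
  rcases (add_nonneg (norm_nonneg v) (norm_nonneg (φ v))).eq_or_lt with h0 | h0
  · have hv : v = 0 := by
      have h1 := norm_nonneg v
      have h2 := norm_nonneg (φ v)
      exact norm_eq_zero.1 (by linarith)
    simp [hv, hn.zero']
  · set s := ‖v‖ + ‖φ v‖ with hs
    have hsC : (s : ℂ) ≠ 0 := by exact_mod_cast h0.ne'
    have key := h ((s : ℂ)⁻¹ • v) (by
      rw [norm_smul, norm_inv, Complex.norm_real, Real.norm_of_nonneg h0.le, inv_mul_le_iff₀ h0,
        mul_one]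
      linarith [norm_nonneg (φ v)]) (by
      rw [map_smul, norm_smul, norm_inv, Complex.norm_real, Real.norm_of_nonneg h0.le,
        inv_mul_le_iff₀ h0, mul_one]
      linarith [norm_nonneg v])
    rw [map_smul, hn.smul, norm_inv, Complex.norm_real, Real.norm_of_nonneg h0.le,
      inv_mul_le_iff₀ h0] at key
    linarith

theorem s_class (hd : S_dominated) : S_class := by
  intro M Z H E₁ E₂ Y C _ _ _ _ _ _ _ _ _ _ _ _ _ _ _ _ _ _ _ _ _ D nP nQ nX hP hQ hX
    hm hz hbM hbZ hQP hXP hkap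
  -- positive constants
  obtain ⟨Km, hKm, hm⟩ := posK (g := nQ) hQ.nonneg' hm
  obtain ⟨Kz, hKz, hz⟩ := posK (g := nX) hX.nonneg' hz
  obtain ⟨Kp, hKp, hQP'⟩ := posK (g := nP) hP.nonneg' hQP
  obtain ⟨Kx, hKx, hXP'⟩ := posK (g := nP) hP.nonneg' hXP
  obtain ⟨KM, hbM⟩ := hbM
  obtain ⟨KZ, hbZ⟩ := hbZ
  -- graph norm estimates
  have hQ0 : ∀ m, nQ (0, m) ≤ |KM| * (‖m‖ + ‖D.mu m‖) := by
    intro m
    refine scale_bound hQ D.mu (LinearMap.inr ℂ ℂ M) (|KM|) ?_ m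
    intro v h1 h2
    obtain ⟨h, e, hh, he, hhe⟩ := D.cover_M v h1 h2
    have := hbM h e
    rw [hhe] at this
    refine this.trans ?_
    have h3 : ‖h‖ * ‖e‖ ≤ 1 := mul_le_one₀ hh (norm_nonneg _) he
    calc KM * (‖h‖ * ‖e‖) ≤ |KM| * (‖h‖ * ‖e‖) :=
          mul_le_mul_of_nonneg_right (le_abs_self _) (by positivity)
      _ ≤ |KM| * 1 := mul_le_mul_of_nonneg_left h3 (abs_nonneg _)
      _ = |KM| := mul_one _
  have hX0 : ∀ z, nX (0, 0, z) ≤ |KZ| * (‖z‖ + ‖D.T z‖) := by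
    intro z
    refine scale_bound hX D.T ((LinearMap.inr ℂ ℂ (M × Z)).comp (LinearMap.inr ℂ M Z)) (|KZ|) ?_ z
    intro v h1 h2
    obtain ⟨h, e, hh, he, hhe⟩ := D.cover_Z v h1 h2
    have := hbZ h e
    rw [hhe] at this
    refine this.trans ?_
    have h3 : ‖h‖ * ‖e‖ ≤ 1 := mul_le_one₀ hh (norm_nonneg _) he
    calc KZ * (‖h‖ * ‖e‖) ≤ |KZ| * (‖h‖ * ‖e‖) :=
          mul_le_mul_of_nonneg_right (le_abs_self _) (by positivity)
      _ ≤ |KZ| * 1 := mul_le_mul_of_nonneg_left h3 (abs_nonneg _)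
      _ = |KZ| := mul_one _
  -- the norm of `X` on `X₀ = ℂ × M`
  set nX0 : ℂ × M → ℝ := fun p => nX (p.1, p.2, 0) with hnX0
  have hX0n : IsBNorm nX0 := by
    refine ⟨?_, ?_, ?_, ?_⟩
    · intro v hv
      have := hX.eq_zero _ hv
      simp only [Prod.mk_eq_zero] at this
      exact Prod.ext this.1 this.2.1
    · intro v w
      have := hX.add_le (v.1, v.2, 0) (w.1, w.2, 0)
      simpa [hnX0] using this
    · intro c v
      have := hX.smul c (v.1, v.2, 0)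
      simpa [hnX0] using this
    · intro u hu
      have hu' : ∀ ε > 0, ∃ N : ℕ, ∀ i ≥ N, ∀ j ≥ N,
          nX ((fun i => ((u i).1, (u i).2, (0 : Z))) i -
            (fun i => ((u i).1, (u i).2, (0 : Z))) j) < ε := by
        intro ε hε
        obtain ⟨N, hN⟩ := hu ε hε
        refine ⟨N, fun i hi j hj => ?_⟩
        have := hN i hi j hj
        simpa [hnX0] using this
      obtain ⟨x, hx⟩ := hX.complete _ hu'
      have hx2 : x.2.2 = 0 := by
        by_contra hne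
        have hpos : 0 < ‖x.2.2‖ := norm_pos_iff.2 hne
        obtain ⟨N, hN⟩ := hx (‖x.2.2‖ / Kz) (by positivity)
        have h1 := hN N le_rfl
        have h2 := hz ((fun i => ((u i).1, (u i).2, (0 : Z))) N - x)
        simp only [Prod.snd_sub, zero_sub, norm_neg] at h2
        have h3 := mul_lt_mul_of_pos_left h1 hKz
        rw [mul_div_cancel₀ _ hKz.ne'] at h3
        linarith
      refine ⟨(x.1, x.2.1), fun ε hε => ?_⟩
      obtain ⟨N, hN⟩ := hx ε hε
      refine ⟨N, fun i hi => ?_⟩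
      have := hN i hi
      have hxx : x = (x.1, x.2.1, (0 : Z)) := by
        rw [← hx2]
      rw [hxx] at this
      simpa [hnX0] using this
  obtain ⟨Kq, hKq, hPQ⟩ := posK (g := nQ) hQ.nonneg' (hd _ nP nQ hP hQ hQP)
  obtain ⟨Ky, hKy, hPX⟩ := posK (g := nX0) hX0n.nonneg' (hd _ nP nX0 hP hX0n hXP)
  -- the sequence `mk`
  set mk : ℕ → M := fun k => D.inc (D.ub (D.cs k)) with hmk
  have hmu : ∀ k, D.mu (mk k) = 1 := fun k => by rw [hmk]; simp [D.mu_ub, D.sg_cs]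
  have hmk0 : Tendsto mk atTop (𝓝 0) := by
    have := (D.inc.continuous.tendsto 0).comp D.ub_cs
    simpa [hmk, Function.comp_def] using this
  have hmkn : Tendsto (fun k => ‖mk k‖) atTop (𝓝 0) := by
    have := hmk0.norm
    simpa using this
  -- the limit `(r, 0)`
  obtain ⟨q, hq⟩ : ∃ q : ℂ × M, ∀ ε > 0, ∃ N : ℕ, ∀ i ≥ N, nQ ((0, mk i) - q) < ε := by
    apply hQ.complete (fun i => ((0 : ℂ), mk i))
    intro ε hε
    have h1 : ∀ᶠ k in atTop, ‖mk k‖ < ε / (2 * (|KM| + 1)) :=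
      hmkn.eventually (gt_mem_nhds (by positivity))
    obtain ⟨N, hN⟩ := eventually_atTop.1 h1
    refine ⟨N, fun i hi j hj => ?_⟩
    have h2 : ((0 : ℂ), mk i) - (0, mk j) = (0, mk i - mk j) := by simp
    rw [h2]
    have h3 := hQ0 (mk i - mk j)
    rw [map_sub, hmu, hmu, sub_self, norm_zero, add_zero] at h3
    have h4 : ‖mk i - mk j‖ < ε / (|KM| + 1) := by
      have := norm_sub_le (mk i) (mk j)
      have h5 : ε / (|KM| + 1) = ε / (2 * (|KM| + 1)) + ε / (2 * (|KM| + 1)) := by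
        field_simp; ring
      rw [h5]
      linarith [hN i hi, hN j hj]
    have h6 : |KM| * ‖mk i - mk j‖ ≤ |KM| * (ε / (|KM| + 1)) :=
      mul_le_mul_of_nonneg_left h4.le (abs_nonneg _)
    have h7 : |KM| * (ε / (|KM| + 1)) < ε := by
      rw [mul_div_assoc', div_lt_iff₀ (by positivity)]
      nlinarith [abs_nonneg KM]
    linarith
  have hqt : Tendsto (fun k => nQ ((0, mk k) - q)) atTop (𝓝 0) := by
    rw [Metric.tendsto_atTop]
    intro ε hε
    obtain ⟨N, hN⟩ := hq ε hε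
    refine ⟨N, fun k hk => ?_⟩
    rw [Real.dist_eq, sub_zero, abs_of_nonneg (hQ.nonneg' _)]
    exact hN k hk
  have hq2 : q.2 = 0 := by
    have h1 : Tendsto (fun k => ‖mk k - q.2‖) atTop (𝓝 0) := by
      refine squeeze_zero (fun _ => norm_nonneg _) (fun k => ?_)
        (by simpa using hqt.const_mul Km)
      have := hm ((0, mk k) - q)
      simpa using this
    have h2 : Tendsto (fun k => ‖mk k - q.2‖) atTop (𝓝 ‖(0 : M) - q.2‖) :=
      (hmk0.sub_const q.2).norm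
    have := tendsto_nhds_unique h1 h2
    rw [zero_sub, norm_neg] at this
    exact norm_eq_zero.1 this.symm
  set r : ℂ := q.1 with hr
  have hqr : q = (r, 0) := Prod.ext rfl hq2
  rw [hqr] at hqt
  -- Claim A
  have hA : ∀ m, nQ (-(r * D.mu m), m) ≤ |KM| * ‖m‖ := by
    intro m
    have h1 : ∀ k, nQ (-(r * D.mu m), m) ≤
        |KM| * ‖m - D.mu m • mk k‖ + ‖D.mu m‖ * nQ ((0, mk k) - (r, 0)) := by
      intro k
      have h2 : ((-(r * D.mu m), m) : ℂ × M) =
          (0, m - D.mu m • mk k) + D.mu m • ((0, mk k) - (r, 0)) := by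
        ext
        · simp; ring
        · simp
      rw [h2]
      refine (hQ.add_le _ _).trans ?_
      rw [hQ.smul]
      have h3 := hQ0 (m - D.mu m • mk k)
      rw [map_sub, map_smul, hmu, smul_eq_mul, mul_one, sub_self, norm_zero, add_zero] at h3
      linarith
    have h2 : Tendsto (fun k => |KM| * ‖m - D.mu m • mk k‖ +
        ‖D.mu m‖ * nQ ((0, mk k) - (r, 0))) atTop (𝓝 (|KM| * ‖m‖)) := by
      have h3 : Tendsto (fun k => m - D.mu m • mk k) atTop (𝓝 (m - D.mu m • 0)) :=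
        (hmk0.const_smul (D.mu m)).const_sub m
      have h4 := (h3.norm.const_mul |KM|).add (hqt.const_mul ‖D.mu m‖)
      simpa using h4
    exact ge_of_tendsto' h2 h1
  have hn10 : 0 < nQ (1, 0) := by
    rcases (hQ.nonneg' (1, 0)).eq_or_lt with h | h
    · exfalso
      have := hQ.eq_zero _ h.symm
      simp at this
    · exact h
  have hs0 : ∀ s : ℂ, nQ (s, 0) = ‖s‖ * nQ (1, 0) := by
    intro s
    have := hQ.smul s (1, 0)
    simpa using this
  -- `nQ` is equivalent to `nP r`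
  have hQr1 : ∃ K : ℝ, 0 < K ∧ ∀ v, nQ v ≤ K * D.nP r v := by
    refine ⟨|KM| + nQ (1, 0), by positivity, fun v => ?_⟩
    have h2 : v = (-(r * D.mu v.2), v.2) + (v.1 + r * D.mu v.2, 0) := by
      ext <;> simp
    have h1 : nQ v ≤ nQ (-(r * D.mu v.2), v.2) + nQ (v.1 + r * D.mu v.2, 0) := by
      conv_lhs => rw [h2]
      exact hQ.add_le _ _
    rw [hs0] at h1
    have h3 := hA v.2
    simp only [Dat.nP]
    nlinarith [norm_nonneg v.2, norm_nonneg (v.1 + r * D.mu v.2), abs_nonneg KM,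
      mul_nonneg (abs_nonneg KM) (norm_nonneg (v.1 + r * D.mu v.2)),
      mul_nonneg hn10.le (norm_nonneg v.2)]
  have hQr2 : ∃ K : ℝ, 0 < K ∧ ∀ v, D.nP r v ≤ K * nQ v := by
    refine ⟨(1 + |KM| * Km) / nQ (1, 0) + Km, by positivity, fun v => ?_⟩
    have h1 : ‖v.1 + r * D.mu v.2‖ * nQ (1, 0) ≤ (1 + |KM| * Km) * nQ v := by
      rw [← hs0]
      have h2 : ((v.1 + r * D.mu v.2, 0) : ℂ × M) = v - (-(r * D.mu v.2), v.2) := by
        ext <;> simp
      rw [h2]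
      have h3 := hQ.sub_le v (-(r * D.mu v.2), v.2)
      have h4 := hA v.2
      have h5 := mul_le_mul_of_nonneg_left (hm v) (abs_nonneg KM)
      linarith
    have h2 : ‖v.1 + r * D.mu v.2‖ ≤ (1 + |KM| * Km) / nQ (1, 0) * nQ v := by
      rw [div_mul_eq_mul_div, le_div_iff₀ hn10]
      exact h1
    have h3 := hm v
    simp only [Dat.nP]
    linarith
  -- `nP` at `(-r mu m, m)`
  have hPA : ∃ K : ℝ, 0 < K ∧ ∀ m, nP (-(r * D.mu m), m) ≤ K * ‖m‖ := by
    refine ⟨Kq * (|KM| + 1), by positivity, fun m => ?_⟩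
    have h1 := hPQ (-(r * D.mu m), m)
    have h2 := mul_le_mul_of_nonneg_left (hA m) hKq.le
    nlinarith [norm_nonneg m, mul_nonneg hKq.le (norm_nonneg m)]
  obtain ⟨KA, hKA, hPA⟩ := hPA
  obtain ⟨Kk, hkap⟩ := hkap
  -- the key relation
  have hrel : ∃ K : ℝ, 0 < K ∧ ∀ m c, nX (D.sg c * (r * D.mu m), -(r * D.mu m) • D.inc (D.ub c),
      D.j m c) ≤ K * (‖m‖ * ‖c‖) := by
    refine ⟨(|Kk| + 1) * KA, by positivity, fun m c => ?_⟩
    have h1 := hkap (-(r * D.mu m), m) c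
    have h2 : ((-(D.sg c * (-(r * D.mu m), m).1), (-(r * D.mu m), m).1 • D.inc (D.ub c),
        D.j (-(r * D.mu m), m).2 c) : ℂ × M × Z) =
        (D.sg c * (r * D.mu m), -(r * D.mu m) • D.inc (D.ub c), D.j m c) := by
      ext <;> simp
    rw [h2] at h1
    refine h1.trans ?_
    have h3 : nP (-(r * D.mu m), m) * ‖c‖ ≤ KA * ‖m‖ * ‖c‖ :=
      mul_le_mul_of_nonneg_right (hPA m) (norm_nonneg _)
    have h4 : 0 ≤ nP (-(r * D.mu m), m) * ‖c‖ := mul_nonneg (hP.nonneg' _) (norm_nonneg _)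
    have h5 : Kk ≤ |Kk| + 1 := (le_abs_self _).trans (by linarith)
    calc Kk * (nP (-(r * D.mu m), m) * ‖c‖)
        ≤ (|Kk| + 1) * (nP (-(r * D.mu m), m) * ‖c‖) := mul_le_mul_of_nonneg_right h5 h4
      _ ≤ (|Kk| + 1) * (KA * ‖m‖ * ‖c‖) := mul_le_mul_of_nonneg_left h3 (by positivity)
      _ = (|Kk| + 1) * KA * (‖m‖ * ‖c‖) := by ring
  obtain ⟨Kr, hKr, hrel⟩ := hrel
  have hjn : ∀ m c, ‖D.j m c‖ ≤ ‖D.j‖ * ‖m‖ * ‖c‖ := fun m c => D.j.le_opNorm₂ m c
  -- `r ^ 2 = r`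
  have hstep : ∀ l, nX (r, -r • mk l, 0) ≤ |KZ| * ‖D.ub (D.cs l)‖ := by
    intro l
    have h1 : ∀ k, nX (r, -r • mk l, 0) ≤ Kr * ‖mk k‖ +
        |KZ| * (‖D.j‖ * ‖mk k‖ + ‖D.ub (D.cs l)‖) := by
      intro k
      have h2 := hrel (mk k) (D.cs l)
      rw [hmu, D.sg_cs, mul_one, one_mul] at h2
      have h3 := hX0 (D.j (mk k) (D.cs l))
      rw [D.T_j, hmu, one_smul] at h3
      have h4 : ((r, -r • mk l, 0) : ℂ × M × Z) =
          (r, -r • D.inc (D.ub (D.cs l)), D.j (mk k) (D.cs l)) -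
            (0, 0, D.j (mk k) (D.cs l)) := by
        ext <;> simp [hmk]
      rw [h4]
      refine (hX.sub_le _ _).trans ?_
      have h5 := hjn (mk k) (D.cs l)
      have h6 : ‖mk k‖ * ‖D.cs l‖ ≤ ‖mk k‖ := by
        have := mul_le_mul_of_nonneg_left (D.cs_norm l) (norm_nonneg (mk k))
        linarith
      have h7 : ‖D.j‖ * ‖mk k‖ * ‖D.cs l‖ ≤ ‖D.j‖ * ‖mk k‖ := by
        have := mul_le_mul_of_nonneg_left (D.cs_norm l)
          (mul_nonneg (norm_nonneg D.j) (norm_nonneg (mk k)))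
        linarith
      have h8 := mul_le_mul_of_nonneg_left h6 hKr.le
      have h9 := mul_le_mul_of_nonneg_left
        (add_le_add (h5.trans h7) (le_refl ‖D.ub (D.cs l)‖)) (abs_nonneg KZ)
      linarith
    have h2 : Tendsto (fun k => Kr * ‖mk k‖ +
        |KZ| * (‖D.j‖ * ‖mk k‖ + ‖D.ub (D.cs l)‖)) atTop (𝓝 (|KZ| * ‖D.ub (D.cs l)‖)) := by
      have h3 := (hmkn.const_mul Kr).add
        (((hmkn.const_mul ‖D.j‖).add_const ‖D.ub (D.cs l)‖).const_mul |KZ|)
      simpa using h3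
    exact ge_of_tendsto' h2 h1
  have hr2 : r - r * r = 0 := by
    have h1 : ∀ l, nX (r - r * r, 0, 0) ≤ |KZ| * ‖D.ub (D.cs l)‖ +
        ‖r‖ * (Kx * (Kq * nQ ((0, mk l) - (r, 0)))) := by
      intro l
      have h2 : ((r - r * r, 0, 0) : ℂ × M × Z) =
          (r, -r • mk l, 0) + r • (((0 : ℂ) - r, mk l - 0, 0) : ℂ × M × Z) := by
        ext <;> simp; ring
      rw [h2]
      refine (hX.add_le _ _).trans ?_
      rw [hX.smul]
      have h3 : nX (((0 : ℂ) - r, mk l - 0, 0) : ℂ × M × Z) ≤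
          Kx * (Kq * nQ ((0, mk l) - (r, 0))) := by
        have h4 := hXP' ((0, mk l) - (r, 0))
        have h5 := hPQ ((0, mk l) - (r, 0))
        have h6 := mul_le_mul_of_nonneg_left h5 hKx.le
        exact le_trans h4 h6
      have := mul_le_mul_of_nonneg_left h3 (norm_nonneg r)
      linarith [hstep l]
    have h2 : Tendsto (fun l => |KZ| * ‖D.ub (D.cs l)‖ +
        ‖r‖ * (Kx * (Kq * nQ ((0, mk l) - (r, 0))))) atTop (𝓝 0) := by
      have h3 : Tendsto (fun l => ‖D.ub (D.cs l)‖) atTop (𝓝 0) := by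
        simpa using D.ub_cs.norm
      have h4 := (h3.const_mul |KZ|).add (((hqt.const_mul Kq).const_mul Kx).const_mul ‖r‖)
      simpa using h4
    have h3 : nX (r - r * r, 0, 0) ≤ 0 := ge_of_tendsto' h2 h1
    have h4 := hX.eq_zero _ (le_antisymm h3 (hX.nonneg' _))
    simpa using h4
  have hrr : r * r = r := by linear_combination -hr2
  -- Claim B
  have hB : ∃ K : ℝ, 0 < K ∧ ∀ z, nX (r * D.mu (D.inc (D.T z)), -r • D.inc (D.T z), z) ≤
      K * ‖z‖ := by
    refine ⟨|KZ| + 1, by positivity, fun z => ?_⟩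
    have hε : ∀ ε : ℝ, 0 < ε → nX (r * D.mu (D.inc (D.T z)), -r • D.inc (D.T z), z) ≤
        |KZ| * (‖z‖ + (‖D.j‖ + 1) * ε) + Kr * ε + Kx * (‖r‖ * (KA * (‖D.inc‖ * ε))) := by
      intro ε hε
      obtain ⟨c, hc⟩ := D.ub_dense.exists_dist_lt (D.T z) hε
      rw [dist_eq_norm] at hc
      obtain ⟨k, hk⟩ : ∃ k, ‖mk k‖ * ‖c‖ ≤ ε := by
        have h1 : Tendsto (fun k => ‖mk k‖ * ‖c‖) atTop (𝓝 0) := by
          simpa using hmkn.mul_const ‖c‖
        obtain ⟨k, hk⟩ := (h1.eventually (gt_mem_nhds hε)).exists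
        exact ⟨k, hk.le⟩
      have hT : D.T (D.j (mk k) c) = D.ub c := by rw [D.T_j, hmu, one_smul]
      have hjj : ‖D.j (mk k) c‖ ≤ ‖D.j‖ * ε := by
        have := hjn (mk k) c
        rw [mul_assoc] at this
        exact this.trans (mul_le_mul_of_nonneg_left hk (norm_nonneg D.j))
      -- first piece
      have p1 : nX (0, 0, z - D.j (mk k) c) ≤ |KZ| * (‖z‖ + (‖D.j‖ + 1) * ε) := by
        refine (hX0 _).trans (mul_le_mul_of_nonneg_left ?_ (abs_nonneg _))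
        rw [map_sub, hT]
        have := norm_sub_le z (D.j (mk k) c)
        linarith
      -- second piece
      have p2 : nX (D.sg c * r, -r • D.inc (D.ub c), D.j (mk k) c) ≤ Kr * ε := by
        have h1 := hrel (mk k) c
        rw [hmu, mul_one] at h1
        exact h1.trans (mul_le_mul_of_nonneg_left hk hKr.le)
      -- third piece
      set w : M := D.inc (D.T z) - D.inc (D.ub c) with hw
      have hwn : ‖w‖ ≤ ‖D.inc‖ * ε := by
        rw [hw, ← map_sub]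
        exact (D.inc.le_opNorm _).trans (mul_le_mul_of_nonneg_left hc.le (norm_nonneg _))
      have p3 : nX (r * D.mu w, -r • w, 0) ≤ Kx * (‖r‖ * (KA * (‖D.inc‖ * ε))) := by
        have h1 : ((r * D.mu w, -r • w) : ℂ × M) = (-r) • (-(r * D.mu w), w) := by
          ext
          · simp only [Prod.smul_fst, smul_eq_mul]
            linear_combination (-(D.mu w)) * hrr
          · simp
        have h2 := hXP' (r * D.mu w, -r • w)
        refine h2.trans (mul_le_mul_of_nonneg_left ?_ hKx.le)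
        rw [h1, hP.smul, norm_neg]
        refine mul_le_mul_of_nonneg_left ?_ (norm_nonneg _)
        exact (hPA w).trans (mul_le_mul_of_nonneg_left hwn hKA.le)
      have hsum : ((r * D.mu (D.inc (D.T z)), -r • D.inc (D.T z), z) : ℂ × M × Z) =
          (0, 0, z - D.j (mk k) c) + (D.sg c * r, -r • D.inc (D.ub c), D.j (mk k) c) +
            (r * D.mu w, -r • w, 0) := by
        have h1 : D.mu w = D.mu (D.inc (D.T z)) - D.sg c := by
          rw [hw, map_sub, D.mu_ub]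
        ext
        · simp [h1]; ring
        · simp [hw, smul_sub]
        · simp
      rw [hsum]
      have h1 := hX.add_le ((0, 0, z - D.j (mk k) c) +
        (D.sg c * r, -r • D.inc (D.ub c), D.j (mk k) c)) (r * D.mu w, -r • w, 0)
      have h2 := hX.add_le (0, 0, z - D.j (mk k) c)
        (D.sg c * r, -r • D.inc (D.ub c), D.j (mk k) c)
      linarith
    have hlim : Tendsto (fun ε : ℝ => |KZ| * (‖z‖ + (‖D.j‖ + 1) * ε) + Kr * ε +
        Kx * (‖r‖ * (KA * (‖D.inc‖ * ε)))) (𝓝[>] 0) (𝓝 (|KZ| * ‖z‖)) := by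
      have hcont : Continuous (fun ε : ℝ => |KZ| * (‖z‖ + (‖D.j‖ + 1) * ε) + Kr * ε +
        Kx * (‖r‖ * (KA * (‖D.inc‖ * ε)))) := by fun_prop
      have := (hcont.tendsto 0).mono_left (nhdsWithin_le_nhds (s := Set.Ioi (0:ℝ)))
      simpa using this
    have h1 : nX (r * D.mu (D.inc (D.T z)), -r • D.inc (D.T z), z) ≤ |KZ| * ‖z‖ :=
      ge_of_tendsto hlim (eventually_nhdsWithin_of_forall (fun ε hε' => hε ε hε'))
    nlinarith [norm_nonneg z]
  obtain ⟨KB, hKB, hB⟩ := hB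
  obtain ⟨Kc, hKc, hQr1'⟩ := hQr1
  obtain ⟨Kd, hKd, hQr2'⟩ := hQr2
  -- decomposition of an element of `X`
  have hdec : ∀ x : ℂ × M × Z, x =
      (r * D.mu (D.inc (D.T x.2.2)), -r • D.inc (D.T x.2.2), x.2.2) +
        (x.1 - r * D.mu (D.inc (D.T x.2.2)), x.2.1 + r • D.inc (D.T x.2.2), 0) := by
    intro x
    ext <;> simp
  have hnp : ∀ x : ℂ × M × Z, D.nP r (x.1 - r * D.mu (D.inc (D.T x.2.2)),
      x.2.1 + r • D.inc (D.T x.2.2)) =
      ‖x.1 + r * D.mu x.2.1‖ + ‖x.2.1 + r • D.inc (D.T x.2.2)‖ := by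
    intro x
    simp only [Dat.nP, map_add, map_smul, smul_eq_mul]
    congr 2
    linear_combination (D.mu (D.inc (D.T x.2.2))) * hrr
  have hXr1 : ∃ K : ℝ, 0 < K ∧ ∀ x, nX x ≤ K * D.nX r x := by
    refine ⟨KB + Kx * (Kq * Kc), by positivity, fun x => ?_⟩
    have h1 := hX.add_le (r * D.mu (D.inc (D.T x.2.2)), -r • D.inc (D.T x.2.2), x.2.2)
        (x.1 - r * D.mu (D.inc (D.T x.2.2)), x.2.1 + r • D.inc (D.T x.2.2), 0)
    rw [← hdec x] at h1
    have h2 := hB x.2.2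
    have h3 := hXP' (x.1 - r * D.mu (D.inc (D.T x.2.2)), x.2.1 + r • D.inc (D.T x.2.2))
    have h4 := mul_le_mul_of_nonneg_left
      (hPQ (x.1 - r * D.mu (D.inc (D.T x.2.2)), x.2.1 + r • D.inc (D.T x.2.2))) hKx.le
    have h5 := mul_le_mul_of_nonneg_left (mul_le_mul_of_nonneg_left
      (hQr1' (x.1 - r * D.mu (D.inc (D.T x.2.2)), x.2.1 + r • D.inc (D.T x.2.2))) hKq.le) hKx.le
    rw [hnp] at h5
    simp only [Dat.nX]
    have h6 : 0 ≤ ‖x.1 + r * D.mu x.2.1‖ + ‖x.2.1 + r • D.inc (D.T x.2.2)‖ := by positivity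
    have h7 := mul_nonneg hKB.le h6
    have h8 := mul_nonneg (mul_nonneg hKx.le (mul_nonneg hKq.le hKc.le)) (norm_nonneg x.2.2)
    simp only at h3
    nlinarith
  have hXr2 : ∃ K : ℝ, 0 < K ∧ ∀ x, D.nX r x ≤ K * nX x := by
    refine ⟨Kz + Kd * (Kp * (Ky * (1 + KB * Kz))), by positivity, fun x => ?_⟩
    have h1 := hz x
    have h2 : nX (x.1 - r * D.mu (D.inc (D.T x.2.2)), x.2.1 + r • D.inc (D.T x.2.2), 0) ≤
        (1 + KB * Kz) * nX x := by
      have h3 : ((x.1 - r * D.mu (D.inc (D.T x.2.2)), x.2.1 + r • D.inc (D.T x.2.2), 0) :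
          ℂ × M × Z) = x - (r * D.mu (D.inc (D.T x.2.2)), -r • D.inc (D.T x.2.2), x.2.2) := by
        ext <;> simp
      rw [h3]
      have h4 := hX.sub_le x (r * D.mu (D.inc (D.T x.2.2)), -r • D.inc (D.T x.2.2), x.2.2)
      have h5 := hB x.2.2
      have h6 := mul_le_mul_of_nonneg_left h1 hKB.le
      linarith
    have h3 := hPX (x.1 - r * D.mu (D.inc (D.T x.2.2)), x.2.1 + r • D.inc (D.T x.2.2))
    have h4 := hQP' (x.1 - r * D.mu (D.inc (D.T x.2.2)), x.2.1 + r • D.inc (D.T x.2.2))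
    have h5 := hQr2' (x.1 - r * D.mu (D.inc (D.T x.2.2)), x.2.1 + r • D.inc (D.T x.2.2))
    rw [hnp] at h5
    simp only [hnX0] at h3
    have h6 := mul_le_mul_of_nonneg_left h2 hKy.le
    have h7 := mul_le_mul_of_nonneg_left (h3.trans h6) hKp.le
    have h8 := mul_le_mul_of_nonneg_left (h4.trans h7) hKd.le
    simp only [Dat.nX]
    linarith
  have hPr1 : ∃ K : ℝ, 0 < K ∧ ∀ v, nP v ≤ K * D.nP r v := by
    refine ⟨Kq * Kc, by positivity, fun v => ?_⟩
    have := mul_le_mul_of_nonneg_left (hQr1' v) hKq.le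
    linarith [hPQ v]
  have hPr2 : ∃ K : ℝ, 0 < K ∧ ∀ v, D.nP r v ≤ K * nP v := by
    refine ⟨Kd * Kp, by positivity, fun v => ?_⟩
    have := mul_le_mul_of_nonneg_left (hQP' v) hKd.le
    linarith [hQr2' v]
  have hr01 : r = 0 ∨ r = 1 := by
    have h1 : r * (1 - r) = 0 := by linear_combination -hrr
    rcases mul_eq_zero.1 h1 with h | h
    · exact Or.inl h
    · exact Or.inr (by linear_combination -h)
  have hfin : NormEquiv nP (D.nP r) ∧ NormEquiv nQ (D.nP r) ∧ NormEquiv nX (D.nX r) :=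
    ⟨normEquiv_of hPr1 hPr2, normEquiv_of ⟨Kc, hKc, hQr1'⟩ ⟨Kd, hKd, hQr2'⟩,
      normEquiv_of hXr1 hXr2⟩
  rcases hr01 with h | h
  · left; rwa [h] at hfin
  · right; rwa [h] at hfin

end Pool.Agent.R233.NA
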