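import Mathlib

/-!
# MP_357fb8_an : algebras with exactly two inequivalent Banach algebra norms.  Definitions.
-/

open Filter Topology

namespace Pool.Agent.R233.NA

/-- `n` is a complete norm on the complex vector space `V`. -/
structure IsBNorm {V : Type*} [AddCommGroup V] [Module ℂ V] (n : V → ℝ) : Prop where
  eq_zero : ∀ v, n v = 0 → v = 0
  add_le : ∀ v w, n (v + w) ≤ n v + n w
  smul : ∀ (c : ℂ) (v : V), n (c • v) = ‖c‖ * n v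
  complete : ∀ u : ℕ → V, (∀ ε > 0, ∃ N : ℕ, ∀ i ≥ N, ∀ j ≥ N, n (u i - u j) < ε) →
    ∃ v, ∀ ε > 0, ∃ N : ℕ, ∀ i ≥ N, n (u i - v) < ε

/-- `n` is a Banach algebra norm on the complex algebra `A`. -/
structure IsBAlgNorm {A : Type*} [Ring A] [Algebra ℂ A] (n : A → ℝ) : Prop extends
    IsBNorm n where
  mul_le : ∀ a b, n (a * b) ≤ n a * n b

/-- Equivalence of two norms. -/
def NormEquiv {V : Type*} (n n' : V → ℝ) : Prop :=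
  ∃ c C : ℝ, 0 < c ∧ 0 < C ∧ ∀ v, c * n v ≤ n' v ∧ n' v ≤ C * n v

/-- The Banach space data from which the algebra is built. -/
structure Dat (M Z H E₁ E₂ Y C : Type)
    [NormedAddCommGroup M] [NormedSpace ℂ M]
    [NormedAddCommGroup Z] [NormedSpace ℂ Z]
    [NormedAddCommGroup H] [NormedSpace ℂ H]
    [NormedAddCommGroup E₁] [NormedSpace ℂ E₁]
    [NormedAddCommGroup E₂] [NormedSpace ℂ E₂]
    [NormedAddCommGroup Y] [NormedSpace ℂ Y]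
    [NormedAddCommGroup C] [NormedSpace ℂ C] where
  /-- a discontinuous functional -/
  mu : M →ₗ[ℂ] ℂ
  /-- a discontinuous linear map -/
  T : Z →ₗ[ℂ] Y
  inc : Y →L[ℂ] M
  ub : C →L[ℂ] Y
  sg : C →L[ℂ] ℂ
  j : M →L[ℂ] C →L[ℂ] Z
  bM : H →L[ℂ] E₁ →L[ℂ] M
  bZ : H →L[ℂ] E₂ →L[ℂ] Z
  mu_ub : ∀ c, mu (inc (ub c)) = sg c
  T_j : ∀ m c, T (j m c) = mu m • ub c
  ub_dense : DenseRange ub
  cs : ℕ → C
  cs_norm : ∀ k, ‖cs k‖ ≤ 1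
  ub_cs : Tendsto (fun k => ub (cs k)) atTop (𝓝 0)
  sg_cs : ∀ k, sg (cs k) = 1
  j_inj : ∀ c, (∀ m, j m c = 0) → c = 0
  bM_inj : ∀ e, (∀ h, bM h e = 0) → e = 0
  bZ_inj : ∀ e, (∀ h, bZ h e = 0) → e = 0
  mu_bM : ∃ K : ℝ, ∀ h e, ‖mu (bM h e)‖ ≤ K * ‖h‖ * ‖e‖
  T_bZ : ∃ K : ℝ, ∀ h e, ‖T (bZ h e)‖ ≤ K * ‖h‖ * ‖e‖
  cover_M : ∀ m, ‖m‖ ≤ 1 → ‖mu m‖ ≤ 1 → ∃ h e, ‖h‖ ≤ 1 ∧ ‖e‖ ≤ 1 ∧ bM h e = m
  cover_Z : ∀ z, ‖z‖ ≤ 1 → ‖T z‖ ≤ 1 → ∃ h e, ‖h‖ ≤ 1 ∧ ‖e‖ ≤ 1 ∧ bZ h e = z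

section norms

variable {M Z H E₁ E₂ Y C : Type}
    [NormedAddCommGroup M] [NormedSpace ℂ M]
    [NormedAddCommGroup Z] [NormedSpace ℂ Z]
    [NormedAddCommGroup H] [NormedSpace ℂ H]
    [NormedAddCommGroup E₁] [NormedSpace ℂ E₁]
    [NormedAddCommGroup E₂] [NormedSpace ℂ E₂]
    [NormedAddCommGroup Y] [NormedSpace ℂ Y]
    [NormedAddCommGroup C] [NormedSpace ℂ C]

/-- The two norms on `P = ℂ × M`, `r = 0` or `r = 1`. -/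
noncomputable def Dat.nP (D : Dat M Z H E₁ E₂ Y C) (r : ℂ) (p : ℂ × M) : ℝ := ‖p.1 + r * D.mu p.2‖ + ‖p.2‖

/-- The two norms on `X = ℂ × M × Z`, `r = 0` or `r = 1`. -/
noncomputable def Dat.nX (D : Dat M Z H E₁ E₂ Y C) (r : ℂ) (x : ℂ × M × Z) : ℝ :=
  ‖x.1 + r * D.mu x.2.1‖ + ‖x.2.1 + r • D.inc (D.T x.2.2)‖ + ‖x.2.2‖

end norms

end Pool.Agent.R233.NA
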