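import Pool.Agent.R233.NA.TDefs

/-!
# MP_357fb8_an : one step of the transfinite construction (NA-4d)
-/

open Filter Topology
open scoped ENNReal Cardinal

namespace Pool.Agent.R233.NA

namespace EX

/-- A linear map which kills the kernel of `Φ` factors through `Φ`. -/
lemma exists_factor {D W Y : Type*} [AddCommGroup D] [Module ℂ D] [AddCommGroup W] [Module ℂ W]
    [AddCommGroup Y] [Module ℂ Y] (Φ : D →ₗ[ℂ] W) (Ψ : D →ₗ[ℂ] Y) (h : ∀ x, Φ x = 0 → Ψ x = 0) :
    ∃ σ : W →ₗ[ℂ] Y, ∀ x, σ (Φ x) = Ψ x := by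
  have hk : LinearMap.ker Φ ≤ LinearMap.ker Ψ := fun x hx => h x hx
  obtain ⟨σ, hσ⟩ := LinearMap.exists_extend (((LinearMap.ker Φ).liftQ Ψ hk) ∘ₗ
    (Φ.quotKerEquivRange.symm : LinearMap.range Φ →ₗ[ℂ] _))
  refine ⟨σ, fun x => ?_⟩
  have h1 := LinearMap.congr_fun hσ ⟨Φ x, LinearMap.mem_range_self Φ x⟩
  have h2 : Φ.quotKerEquivRange.symm ⟨Φ x, LinearMap.mem_range_self Φ x⟩ =
      (LinearMap.ker Φ).mkQ x := by
    rw [LinearEquiv.symm_apply_eq]
    rfl
  simp only [LinearMap.comp_apply, Submodule.subtype_apply, LinearEquiv.coe_coe, h2] at h1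
  rw [h1]
  exact Submodule.liftQ_apply _ _ _

section

variable {ι B Y Ω : Type} [DecidableEq ι] [NormedAddCommGroup B] [NormedSpace ℂ B]
  [NormedAddCommGroup Y] [NormedSpace ℂ Y]

/-- the sum `∑ c_l d_l t_l` -/
noncomputable def sh (t : ι → Y) (c d : L1 ι) : Y := ∑' l, (c l * d l) • t l

omit [DecidableEq ι] in
lemma norm_coord_le (c : L1 ι) (l : ι) : ‖c l‖ ≤ ‖c‖ :=
  lp.norm_apply_le_norm (by norm_num) c l

omit [DecidableEq ι] in
lemma sh_summable [CompleteSpace Y] {t : ι → Y} (ht : ∀ l, ‖t l‖ ≤ 1) (c d : L1 ι) :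
    Summable fun l => (c l * d l) • t l := by
  apply Summable.of_norm_bounded (g := fun l => ‖c l‖ * ‖d‖) ((l1_summable c).mul_right _)
  intro l
  rw [norm_smul, norm_mul]
  calc ‖c l‖ * ‖d l‖ * ‖t l‖ ≤ ‖c l‖ * ‖d l‖ * 1 := by gcongr; exact ht l
    _ = ‖c l‖ * ‖d l‖ := mul_one _
    _ ≤ ‖c l‖ * ‖d‖ := by gcongr; exact norm_coord_le d l

omit [DecidableEq ι] in
lemma sh_zero_sum [CompleteSpace Y] {t : ι → Y} (ht : ∀ l, ‖t l‖ ≤ 1) {K : Type} [Fintype K]
    (c d : K → L1 ι) (h : ∀ i j, ∑ k, c k i * d k j = 0) : ∑ k, sh t (c k) (d k) = 0 := by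
  unfold sh
  rw [← Summable.tsum_finsetSum (fun k _ => sh_summable ht (c k) (d k))]
  have : ∀ l, ∑ k, (c k l * d k l) • t l = 0 := by
    intro l
    rw [← Finset.sum_smul, h, zero_smul]
  simp [this]

lemma bh_zero_sum {x : ι → B × L1 (ι × ι)}
    (hs : ∀ c d : L1 ι, Summable fun l => (c l * d l) • (x l - (0, lp.single 1 (l, l) (1 : ℂ))))
    {K : Type} [Fintype K]
    (c d : K → L1 ι) (h : ∀ i j, ∑ k, c k i * d k j = 0) : ∑ k, bh x (c k) (d k) = 0 := by
  unfold bh
  rw [Finset.sum_add_distrib, ← Summable.tsum_finsetSum (fun k _ => hs (c k) (d k))]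
  have h1 : ∀ l, ∑ k, (c k l * d k l) • (x l - (0, lp.single 1 (l, l) (1 : ℂ))) = 0 := by
    intro l
    rw [← Finset.sum_smul, h, zero_smul]
  have h2 : ∑ k, ((0 : B), ten (c k) (d k)) = 0 := by
    apply Prod.ext
    · simp [Prod.fst_sum]
    · rw [Prod.snd_sum]
      apply lp.ext
      funext p
      rw [lp.coeFn_sum]
      simp only [Finset.sum_apply, Prod.snd_zero, lp.coeFn_zero, Pi.zero_apply]
      exact h p.1 p.2
  rw [h2]
  simp [h1]

/-- the restriction of a sequence to a set of indices -/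
noncomputable def restr (P : ι → Prop) [DecidablePred P] (c : L1 ι) : L1 ι :=
  ⟨fun i => if P i then c i else 0, by
    apply memℓp_gen
    have h : Summable fun i => ‖c i‖ := l1_summable c
    have h2 : Summable fun i => ‖(if P i then c i else 0 : ℂ)‖ := by
      apply Summable.of_nonneg_of_le (fun _ => norm_nonneg _) _ h
      intro i
      split_ifs
      · exact le_rfl
      · simp
    simpa using h2⟩

omit [DecidableEq ι] in
lemma restr_apply (P : ι → Prop) [DecidablePred P] (c : L1 ι) (i : ι) :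
    restr P c i = if P i then c i else 0 := rfl

end

section key

variable {ι B Y Ω : Type} [DecidableEq ι] [LinearOrder Ω] [NormedAddCommGroup B]
  [NormedSpace ℂ B] [CompleteSpace B] [NormedAddCommGroup Y] [NormedSpace ℂ Y] [CompleteSpace Y]

lemma key (hm : S_matrix) (hb : S_bh) {lev : ι → Ω} {x : ι → B × L1 (ι × ι)} {t : ι → Y}
    {L : Submodule ℂ B} {t0 : L →ₗ[ℂ] Y}
    {tau : Ω → (B × L1 (ι × ι)) →ₗ[ℂ] Y} {𝒜 : Set Ω}
    (hx : ∀ l, x l ∈ lowV (B := B) lev (lev l)) (hx1 : ∀ l, ‖x l‖ ≤ 1) (ht : ∀ l, ‖t l‖ ≤ 1)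
    (hxt : ∀ l, lev l ∈ 𝒜 → tau (lev l) (x l) = t l)
    (hgood : ∀ γ ∈ 𝒜, Good lev x t L t0 tau (Set.Iio γ) (tau γ))
    {γ : Ω} (hγ : γ ∈ 𝒜) {v : B × L1 (ι × ι)} (hv : v ∈ lowV (B := B) lev γ)
    {K : Type} [Fintype K] (c d : K → L1 ι) (hc : ∀ k, SuppIn lev 𝒜 (c k))
    (hd : ∀ k, SuppIn lev 𝒜 (d k)) (h0 : v + ∑ k, bh x (c k) (d k) = 0) :
    tau γ v + ∑ k, sh t (c k) (d k) = 0 := by
  classical
  obtain ⟨⟨bt, hbt⟩, hdiag, hsum, hcoord⟩ := hb ι B x hx1
  have hx2 : ∀ l, ‖(x l).2‖ ≤ 1 := fun l => (norm_snd_le (x l)).trans (hx1 l)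
  have hint : ∀ i j, ∑ k, ∑' l, c k l * d k l * (x l).2 (i, j) =
      ∑' l, (∑ k, c k l * d k l) * (x l).2 (i, j) := by
    intro i j
    rw [← Summable.tsum_finsetSum]
    · apply tsum_congr; intro l; rw [Finset.sum_mul]
    · intro k _
      have := sh_summable (Y := ℂ) (t := fun l => (x l).2 (i, j))
        (fun l => (norm_coord_le _ _).trans (hx2 l)) (c k) (d k)
      simpa using this
  obtain ⟨ρ, hρA, hγρ, hS1, hS2, hfin⟩ := hm ι Ω K lev (fun l => (x l).2) c d 𝒜 γ hx2
    (fun l i j h => hx l i j h) hγ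
    (fun k i hi => by by_contra h; exact hi (hc k i h))
    (fun k i hi => by by_contra h; exact hi (hd k i h))
    (by
      intro i j hij hlev
      have h1 : v.2 (i, j) = 0 := by
        by_contra h
        have := hv i j h
        rcases hlev with h2 | h2
        · exact absurd this.1 (not_lt.mpr h2)
        · exact absurd this.2 (not_lt.mpr h2)
      have h2 : (v + ∑ k, bh x (c k) (d k)).2 (i, j) = 0 := by rw [h0]; rfl
      rw [Prod.snd_add, Prod.snd_sum, lp.coeFn_add, lp.coeFn_sum] at h2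
      simp only [Pi.add_apply, Finset.sum_apply, hcoord, if_neg hij, h1, zero_add,
        Finset.sum_add_distrib] at h2
      rw [hint] at h2
      exact h2)
  set S : ι → ℂ := fun l => ∑ k, c k l * d k l with hS
  set F : Finset ι := hfin.toFinset with hF
  have hFmem : ∀ l, l ∈ F ↔ (ρ ≤ lev l ∧ S l ≠ 0) := by
    intro l
    rw [hF, Set.Finite.mem_toFinset]
    rfl
  have hFlev : ∀ l ∈ F, lev l = ρ := by
    intro l hl
    rw [hFmem] at hl
    by_contra hne
    exact hl.2 (hS1 l l (Or.inl (lt_of_le_of_ne hl.1 (Ne.symm hne))))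
  set e : ι → L1 ι := fun l => lp.single 1 l (1 : ℂ) with he
  set c' : K → L1 ι := fun k => restr (fun i => lev i < ρ) (c k) with hc'
  set d' : K → L1 ι := fun k => restr (fun i => lev i < ρ) (d k) with hd'
  let C : K ⊕ (K ⊕ F) → L1 ι := Sum.elim c (Sum.elim (fun k => - c' k)
    (fun l => (-(S l.1)) • e l.1))
  let D : K ⊕ (K ⊕ F) → L1 ι := Sum.elim d (Sum.elim (fun k => d' k) (fun l => e l.1))
  have heapp : ∀ l i, e l i = if i = l then 1 else 0 := by
    intro l i
    rw [he]
    simp only [lp.coeFn_single]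
    by_cases h : i = l
    · subst h; simp
    · simp [h]
  have hzero : ∀ i j, ∑ k, C k i * D k j = 0 := by
    intro i j
    rw [Fintype.sum_sum_type, Fintype.sum_sum_type]
    have e1 : ∀ k, C (Sum.inl k) i * D (Sum.inl k) j = c k i * d k j := fun k => rfl
    have e2 : ∀ k, C (Sum.inr (Sum.inl k)) i * D (Sum.inr (Sum.inl k)) j =
        - ((if lev i < ρ then c k i else 0) * (if lev j < ρ then d k j else 0)) := by
      intro k
      change (- c' k) i * d' k j = _
      rw [lp.coeFn_neg, Pi.neg_apply, neg_mul]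
      rfl
    have e3 : ∀ l : F, C (Sum.inr (Sum.inr l)) i * D (Sum.inr (Sum.inr l)) j =
        - (S l.1 * ((if i = l.1 then 1 else 0) * (if j = l.1 then 1 else 0))) := by
      intro l
      change ((-(S l.1)) • e l.1) i * e l.1 j = _
      rw [lp.coeFn_smul, Pi.smul_apply, heapp, heapp, smul_eq_mul]
      ring
    simp only [e1, e2, e3, Finset.sum_neg_distrib]
    rw [Finset.sum_coe_sort F (fun l => S l * ((if i = l then 1 else 0) * (if j = l then 1 else 0)))]
    by_cases hi : lev i < ρ
    · have h3 : ∑ l ∈ F, S l * ((if i = l then (1 : ℂ) else 0) * (if j = l then 1 else 0)) = 0 := by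
        apply Finset.sum_eq_zero
        intro l hl
        have : i ≠ l := by
          rintro rfl
          exact absurd hi (not_lt.mpr (hFlev i hl).ge)
        simp [this]
      rw [h3]
      by_cases hj : lev j < ρ
      · simp [hi, hj]
      · have hij : i ≠ j := by rintro rfl; exact hj hi
        simp [hi, hj, hS2 i j hij (Or.inr (not_lt.mp hj))]
    · by_cases hij : i = j
      · subst hij
        have h3 : ∑ l ∈ F, S l * ((if i = l then (1 : ℂ) else 0) * (if i = l then 1 else 0)) =
            S i := by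
          by_cases hiF : i ∈ F
          · rw [Finset.sum_eq_single i]
            · simp
            · intro b _ hb
              simp [Ne.symm hb]
            · intro h; exact absurd hiF h
          · have : S i = 0 := by
              by_contra h
              exact hiF ((hFmem i).mpr ⟨not_lt.mp hi, h⟩)
            rw [this]
            apply Finset.sum_eq_zero
            intro l hl
            have : i ≠ l := by
              rintro rfl
              exact hiF hl
            simp [this]
        rw [h3]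
        simp [hi, hS]
      · have h3 : ∑ l ∈ F, S l * ((if i = l then (1 : ℂ) else 0) * (if j = l then 1 else 0)) =
            0 := by
          apply Finset.sum_eq_zero
          intro l hl
          by_cases h1 : i = l
          · have h2 : j ≠ l := by rintro rfl; exact hij h1
            simp [h2]
          · simp [h1]
        rw [h3, hS2 i j hij (Or.inl (not_lt.mp hi))]
        simp [hi]
  have hB := bh_zero_sum hsum C D hzero
  have hY := sh_zero_sum ht C D hzero
  rw [Fintype.sum_sum_type, Fintype.sum_sum_type] at hB hY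
  have b1 : ∀ k, bh x (C (Sum.inl k)) (D (Sum.inl k)) = bh x (c k) (d k) := fun k => rfl
  have b2 : ∀ k, bh x (C (Sum.inr (Sum.inl k))) (D (Sum.inr (Sum.inl k))) =
      - bh x (c' k) (d' k) := by
    intro k
    change bh x (- c' k) (d' k) = _
    rw [← hbt, ← hbt, map_neg]
    rfl
  have b3 : ∀ l : F, bh x (C (Sum.inr (Sum.inr l))) (D (Sum.inr (Sum.inr l))) =
      - (S l.1 • x l.1) := by
    intro l
    change bh x ((-(S l.1)) • e l.1) (e l.1) = _
    rw [← hbt, map_smul]
    change (-(S l.1)) • bt (e l.1) (e l.1) = _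
    rw [hbt, hdiag, neg_smul]
  have y1 : ∀ k, sh t (C (Sum.inl k)) (D (Sum.inl k)) = sh t (c k) (d k) := fun k => rfl
  have y2 : ∀ k, sh t (C (Sum.inr (Sum.inl k))) (D (Sum.inr (Sum.inl k))) =
      - sh t (c' k) (d' k) := by
    intro k
    change sh t (- c' k) (d' k) = _
    unfold sh
    rw [← tsum_neg]
    apply tsum_congr
    intro l
    rw [lp.coeFn_neg, Pi.neg_apply, neg_mul, neg_smul]
  have y3 : ∀ l : F, sh t (C (Sum.inr (Sum.inr l))) (D (Sum.inr (Sum.inr l))) =
      - (S l.1 • t l.1) := by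
    intro l
    change sh t ((-(S l.1)) • e l.1) (e l.1) = _
    unfold sh
    rw [tsum_eq_single l.1]
    · rw [lp.coeFn_smul, Pi.smul_apply, heapp]
      simp
    · intro i hi
      rw [lp.coeFn_smul, Pi.smul_apply, heapp]
      simp [hi]
  simp only [b1, b2, b3] at hB
  simp only [y1, y2, y3] at hY
  have hv1 : tau γ v = tau ρ v := by
    rcases eq_or_lt_of_le hγρ with h | h
    · rw [h]
    · exact ((hgood ρ hρA).agree γ h v hv).symm
  have hB2 := congrArg (tau ρ) hB
  rw [map_add, map_add, map_zero, map_sum (tau ρ) _ (Finset.univ : Finset K),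
    map_sum (tau ρ) (fun k => - bh x (c' k) (d' k)), map_sum (tau ρ) _ (Finset.univ : Finset F)]
    at hB2
  have p2 : ∀ k, tau ρ (- bh x (c' k) (d' k)) = - sh t (c' k) (d' k) := by
    intro k
    rw [map_neg, (hgood ρ hρA).prod (c' k) (d' k)]
    · rfl
    · intro i hi
      by_contra h
      apply hi
      rw [hc']
      simp only [restr_apply]
      exact if_neg h
    · intro i hi
      by_contra h
      apply hi
      rw [hd']
      simp only [restr_apply]
      exact if_neg h
  have p3 : ∀ l : F, tau ρ (- (S l.1 • x l.1)) = - (S l.1 • t l.1) := by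
    intro l
    rw [map_neg, map_smul]
    have h1 : lev l.1 = ρ := hFlev l.1 l.2
    have h2 := hxt l.1 (h1 ▸ hρA)
    rw [h1] at h2
    rw [h2]
  simp only [p2, p3] at hB2
  have h3 : ∑ k, tau ρ (bh x (c k) (d k)) = ∑ k, sh t (c k) (d k) := by
    exact add_right_cancel (hB2.trans hY.symm)
  rw [← h3, hv1, ← map_sum, ← map_add, h0, map_zero]

end key

end EX

theorem s_ext (hm : S_matrix) (hb : S_bh) : S_ext := by
  classical
  intro ι Ω B Y _ _ _ _ _ _ _ _ lev x t L t0 tau 𝒜 hlow hx hx1 ht hxt hgood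
  obtain ⟨⟨bt, hbt⟩, hdiag, hsum, hcoord⟩ := hb ι B x hx1
  rcases 𝒜.eq_empty_or_nonempty with hA | ⟨γ0, hγ0⟩
  · -- the empty case
    let Φ : L →ₗ[ℂ] B × L1 (ι × ι) := (LinearMap.inl ℂ B (L1 (ι × ι))) ∘ₗ L.subtype
    obtain ⟨σ, hσ⟩ := EX.exists_factor Φ t0 (by
      intro b hb
      have h1 : (b : B) = 0 := congrArg Prod.fst hb
      have h2 : b = 0 := Subtype.ext h1
      rw [h2, map_zero])
    refine ⟨σ, ?_, ?_, fun b => hσ b⟩
    · intro γ hγ
      rw [hA] at hγ
      exact absurd hγ (Set.notMem_empty γ)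
    · intro c d hc hd
      have hc0 : c = 0 := by
        apply lp.ext
        funext i
        by_contra h
        have h2 := hc i h
        rw [hA] at h2
        exact h2
      rw [hc0, ← hbt, map_zero, zero_apply, map_zero]
      simp
  · -- the nonempty case
    have hag : ∀ γ ρ : Ω, γ ≤ ρ → ρ ∈ 𝒜 → ∀ v ∈ lowV (B := B) lev γ, tau γ v = tau ρ v := by
      intro γ ρ h hρ v hv
      rcases eq_or_lt_of_le h with h | h
      · rw [h]
      · exact ((hgood ρ hρ).agree γ h v hv).symm
    have hmono : ∀ γ ρ : Ω, γ ≤ ρ → ∀ v ∈ lowV (B := B) lev γ, v ∈ lowV (B := B) lev ρ := by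
      intro γ ρ h v hv i j hij
      exact ⟨(hv i j hij).1.trans_le h, (hv i j hij).2.trans_le h⟩
    let G : Submodule ℂ ((B × L1 (ι × ι)) × Y) :=
      { carrier := {p | ∃ γ ∈ 𝒜, ∃ v ∈ lowV (B := B) lev γ, ∃ (K : Type) (_ : Fintype K)
          (c d : K → L1 ι), (∀ k, SuppIn lev 𝒜 (c k)) ∧ (∀ k, SuppIn lev 𝒜 (d k)) ∧
          p.1 = v + ∑ k, bh x (c k) (d k) ∧ p.2 = tau γ v + ∑ k, EX.sh t (c k) (d k)}
        add_mem' := by
          rintro p q ⟨γ, hγ, v, hv, K, _, c, d, hc, hd, hp1, hp2⟩
            ⟨γ', hγ', v', hv', K', _, c', d', hc', hd', hq1, hq2⟩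
          have hmax : max γ γ' ∈ 𝒜 := by
            rcases max_choice γ γ' with h | h <;> rw [h] <;> assumption
          refine ⟨max γ γ', hmax, v + v', Submodule.add_mem _
            (hmono _ _ (le_max_left _ _) v hv) (hmono _ _ (le_max_right _ _) v' hv'),
            K ⊕ K', inferInstance, Sum.elim c c', Sum.elim d d', ?_, ?_, ?_, ?_⟩
          · rintro (k | k)
            · exact hc k
            · exact hc' k
          · rintro (k | k)
            · exact hd k
            · exact hd' k
          · rw [Fintype.sum_sum_type, Prod.fst_add, hp1, hq1]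
            simp only [Sum.elim_inl, Sum.elim_inr]
            abel
          · rw [Fintype.sum_sum_type, Prod.snd_add, hp2, hq2, map_add,
              hag γ _ (le_max_left _ _) hmax v hv, hag γ' _ (le_max_right _ _) hmax v' hv']
            simp only [Sum.elim_inl, Sum.elim_inr]
            abel
        zero_mem' := ⟨γ0, hγ0, 0, Submodule.zero_mem _, Empty, inferInstance,
          fun k => k.elim, fun k => k.elim, fun k => k.elim, fun k => k.elim, by simp, by simp⟩
        smul_mem' := by
          rintro a p ⟨γ, hγ, v, hv, K, _, c, d, hc, hd, hp1, hp2⟩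
          refine ⟨γ, hγ, a • v, Submodule.smul_mem _ a hv, K, inferInstance,
            fun k => a • c k, d, ?_, hd, ?_, ?_⟩
          · intro k i hi
            apply hc k i
            intro h0
            apply hi
            rw [lp.coeFn_smul, Pi.smul_apply, h0, smul_zero]
          · rw [Prod.smul_fst, hp1, smul_add, Finset.smul_sum]
            congr 1
            apply Finset.sum_congr rfl
            intro k _
            rw [← hbt, ← hbt, map_smul]
            rfl
          · rw [Prod.smul_snd, hp2, smul_add, map_smul, Finset.smul_sum]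
            congr 1
            apply Finset.sum_congr rfl
            intro k _
            unfold EX.sh
            rw [← (EX.sh_summable ht (c k) (d k)).tsum_const_smul a]
            apply tsum_congr
            intro l
            rw [lp.coeFn_smul, Pi.smul_apply, smul_eq_mul, smul_smul, mul_assoc] }
    obtain ⟨σ, hσ⟩ := EX.exists_factor ((LinearMap.fst ℂ (B × L1 (ι × ι)) Y) ∘ₗ G.subtype)
      ((LinearMap.snd ℂ (B × L1 (ι × ι)) Y) ∘ₗ G.subtype) (by
      rintro ⟨p, γ, hγ, v, hv, K, _, c, d, hc, hd, hp1, hp2⟩ hp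
      have hp' : p.1 = 0 := hp
      change p.2 = 0
      rw [hp2]
      apply EX.key hm hb hx hx1 ht hxt hgood hγ hv c d hc hd
      rw [← hp1, hp'])
    have hσ' : ∀ v y, (v, y) ∈ G → σ v = y := fun v y h => hσ ⟨(v, y), h⟩
    refine ⟨σ, ?_, ?_, ?_⟩
    · intro γ hγ v hv
      apply hσ'
      exact ⟨γ, hγ, v, hv, Empty, inferInstance, fun k => k.elim, fun k => k.elim,
        fun k => k.elim, fun k => k.elim, by simp, by simp⟩
    · intro c d hc hd
      apply hσ'
      exact ⟨γ0, hγ0, 0, Submodule.zero_mem _, Unit, inferInstance, fun _ => c, fun _ => d,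
        fun _ => hc, fun _ => hd, by simp, by simp [EX.sh]⟩
    · intro b
      apply hσ'
      refine ⟨γ0, hγ0, ((b : B), 0), ?_, Empty, inferInstance, fun k => k.elim, fun k => k.elim,
        fun k => k.elim, fun k => k.elim, by simp, ?_⟩
      · intro i j hij
        exact absurd rfl hij
      · simp [(hgood γ0 hγ0).base b]

end Pool.Agent.R233.NA
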