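import Pool.Agent.R233.NA.Stm

set_option autoImplicit false

/-!
# NA-1: closed graph and open mapping theorems for norm functions
-/

open Filter Topology

namespace Pool.Agent.R233.NA

/-- type synonym carrying the norm `n` -/
def Syn {V : Type} (_n : V → ℝ) : Type := V

section

variable {V : Type} [AddCommGroup V] [Module ℂ V] {n : V → ℝ}

instance : AddCommGroup (Syn n) := inferInstanceAs (AddCommGroup V)
instance : Module ℂ (Syn n) := inferInstanceAs (Module ℂ V)
instance : Norm (Syn n) := ⟨n⟩

theorem IsBNorm.zero (h : IsBNorm n) : n 0 = 0 := by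
  have := h.smul 0 0
  simpa using this

theorem IsBNorm.neg (h : IsBNorm n) (v : V) : n (-v) = n v := by
  have := h.smul (-1) v
  simpa using this

theorem IsBNorm.nonneg (h : IsBNorm n) (v : V) : 0 ≤ n v := by
  have h1 := h.add_le v (-v)
  rw [add_neg_cancel, h.zero, h.neg] at h1
  linarith

theorem IsBNorm.core (h : IsBNorm n) : NormedSpace.Core ℂ (Syn n) where
  norm_nonneg := h.nonneg
  norm_smul := h.smul
  norm_triangle := h.add_le
  norm_eq_zero_iff := fun v => ⟨h.eq_zero v, fun hv => by
    have : v = (0 : V) := hv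
    rw [this]; exact h.zero⟩

end

theorem syn_complete {V : Type} [AddCommGroup V] [Module ℂ V] {n : V → ℝ} (h : IsBNorm n) :
    letI : NormedAddCommGroup (Syn n) := NormedAddCommGroup.ofCore h.core
    CompleteSpace (Syn n) := by
  letI : NormedAddCommGroup (Syn n) := NormedAddCommGroup.ofCore h.core
  refine Metric.complete_of_cauchySeq_tendsto ?_
  intro u hu
  rw [Metric.cauchySeq_iff] at hu
  obtain ⟨v, hv⟩ := h.complete u (by
    intro ε hε
    obtain ⟨N, hN⟩ := hu ε hε
    refine ⟨N, fun i hi j hj => ?_⟩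
    have := hN i hi j hj
    rw [dist_eq_norm] at this
    exact this)
  refine ⟨v, ?_⟩
  rw [Metric.tendsto_atTop]
  intro ε hε
  obtain ⟨N, hN⟩ := hv ε hε
  refine ⟨N, fun i hi => ?_⟩
  rw [dist_eq_norm]
  exact hN i hi

theorem s_two_norms : S_two_norms := by
  intro V _ _ _ n h hg
  letI : NormedAddCommGroup (Syn n) := NormedAddCommGroup.ofCore h.core
  letI : NormedSpace ℂ (Syn n) := NormedSpace.ofCore h.core
  haveI : CompleteSpace (Syn n) := syn_complete h
  have hnorm : ∀ v : Syn n, ‖v‖ = n v := fun _ => rfl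
  let F : V →ₗ[ℂ] Syn n := { toFun := fun v => v, map_add' := fun _ _ => rfl, map_smul' := fun _ _ => rfl }
  let G : Syn n →ₗ[ℂ] V := { toFun := fun v => v, map_add' := fun _ _ => rfl, map_smul' := fun _ _ => rfl }
  have hF : Continuous F := by
    refine LinearMap.continuous_of_seq_closed_graph F ?_
    intro u x y hx hy
    let y' : V := y
    have h1 : Tendsto (fun k => u k - x) atTop (𝓝 0) := by
      have := hx.sub_const x
      rwa [sub_self] at this
    have h2 : Tendsto (fun k => n ((u k - x) - (y' - x))) atTop (𝓝 0) := by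
      have h3 : Tendsto (fun k => ‖(F ∘ u) k - y‖) atTop (𝓝 0) := by
        rw [← tendsto_iff_norm_sub_tendsto_zero]
        exact hy
      refine h3.congr ?_
      intro k
      have : (u k - x) - (y' - x) = u k - y' := by abel
      rw [this]
      rfl
    have h3 := hg _ _ h1 h2
    exact sub_eq_zero.1 h3
  have hG : Continuous G := by
    refine LinearMap.continuous_of_seq_closed_graph G ?_
    intro u x y hx hy
    let u' : ℕ → V := u
    let x' : V := x
    have h1 : Tendsto (fun k => u' k - y) atTop (𝓝 0) := by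
      have := hy.sub_const y
      rwa [sub_self] at this
    have h2 : Tendsto (fun k => n ((u' k - y) - (x' - y))) atTop (𝓝 0) := by
      have h3 : Tendsto (fun k => ‖u k - x‖) atTop (𝓝 0) := by
        rw [← tendsto_iff_norm_sub_tendsto_zero]
        exact hx
      refine h3.congr ?_
      intro k
      have : (u' k - y) - (x' - y) = u' k - x' := by abel
      rw [this]
      rfl
    have h3 := hg _ _ h1 h2
    exact (sub_eq_zero.1 h3).symm
  let F' : V →L[ℂ] Syn n := ⟨F, hF⟩
  let G' : Syn n →L[ℂ] V := ⟨G, hG⟩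
  refine ⟨max ‖F'‖ ‖G'‖ + 1, ?_, ?_, ?_⟩
  · have := (norm_nonneg F').trans (le_max_left ‖F'‖ ‖G'‖)
    linarith
  · intro v
    have h1 : n v ≤ ‖F'‖ * ‖v‖ := F'.le_opNorm v
    have h2 := le_max_left ‖F'‖ ‖G'‖
    exact h1.trans (mul_le_mul_of_nonneg_right (by linarith) (norm_nonneg v))
  · intro v
    have h1 : ‖v‖ ≤ ‖G'‖ * n v := G'.le_opNorm v
    have h2 := le_max_right ‖F'‖ ‖G'‖
    exact h1.trans (mul_le_mul_of_nonneg_right (by linarith) (h.nonneg v))

theorem s_dominated : S_dominated := by
  intro V _ _ n n' h h' hK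
  obtain ⟨K, hK⟩ := hK
  letI : NormedAddCommGroup (Syn n) := NormedAddCommGroup.ofCore h.core
  letI : NormedSpace ℂ (Syn n) := NormedSpace.ofCore h.core
  haveI : CompleteSpace (Syn n) := syn_complete h
  let n'' : Syn n → ℝ := n'
  have h'' : @IsBNorm (Syn n) _ _ n'' := ⟨h'.eq_zero, h'.add_le, h'.smul, h'.complete⟩
  have hK' : ∀ v : Syn n, n'' v ≤ K * ‖v‖ := hK
  obtain ⟨C, _, _, h2⟩ := s_two_norms (Syn n) n'' h'' (by
    intro v w hv hw
    apply h''.eq_zero
    have h3 : Tendsto (fun k => ‖v k‖) atTop (𝓝 0) := by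
      have := hv.norm
      rwa [norm_zero] at this
    have h4 : Tendsto (fun k => K * ‖v k‖ + n'' (v k - w)) atTop (𝓝 0) := by
      have := (h3.const_mul K).add hw
      simpa using this
    have h5 : ∀ k, n'' w ≤ K * ‖v k‖ + n'' (v k - w) := by
      intro k
      have h6 := h''.add_le (v k) (-(v k - w))
      rw [h''.neg] at h6
      have e : v k + -(v k - w) = w := by abel
      rw [e] at h6
      exact h6.trans (add_le_add (hK' _) le_rfl)
    have h7 : n'' w ≤ 0 := ge_of_tendsto' h4 h5
    exact le_antisymm h7 (h''.nonneg w))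
  exact ⟨C, fun v => h2 v⟩

end Pool.Agent.R233.NA
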