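import Pool.Agent.R233.NA.Stm

/-!
# NA-5 (helper451): existence of the data, from `S_tame`, `S_omega`, `S_card`.
-/

open Filter Topology
open scoped ENNReal Cardinal

namespace Pool.Agent.R233.NA

namespace Inst451

section gen

variable {ι : Type} {E : Type} [NormedAddCommGroup E] [NormedSpace ℂ E]

lemma mem_iff (f : ι → E) : Memℓp f 1 ↔ Summable (fun i => ‖f i‖) := by
  rw [memℓp_gen_iff (by norm_num)]
  simp

lemma norm_eq (f : lp (fun _ : ι => E) 1) : ‖f‖ = ∑' i, ‖f i‖ := by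
  rw [lp.norm_eq_tsum_rpow (by norm_num)]
  simp

lemma summ (f : lp (fun _ : ι => E) 1) : Summable (fun i => ‖f i‖) :=
  (mem_iff _).mp (lp.memℓp f)

/-- the sequences `m` with `∑ |w n φ (m n)| < ∞` -/
def Lsub (w : ι → ℂ) (φ : E →ₗ[ℂ] ℂ) : Submodule ℂ (lp (fun _ : ι => E) 1) where
  carrier := {m | Summable (fun n => ‖w n * φ (m n)‖)}
  zero_mem' := by simp [summable_zero]
  add_mem' := by
    intro a b ha hb
    refine Summable.of_nonneg_of_le (fun n => norm_nonneg _) (fun n => ?_) (ha.add hb)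
    rw [lp.coeFn_add, Pi.add_apply, map_add, mul_add]
    exact norm_add_le _ _
  smul_mem' := by
    intro c a ha
    have h : Summable (fun n => ‖c‖ * ‖w n * φ (a n)‖) := Summable.mul_left _ ha
    refine h.congr (fun n => ?_)
    rw [lp.coeFn_smul, Pi.smul_apply, map_smul, smul_eq_mul, norm_mul, norm_mul, norm_mul]
    ring

lemma mem_Lsub (w : ι → ℂ) (φ : E →ₗ[ℂ] ℂ) (m : lp (fun _ : ι => E) 1) :
    m ∈ Lsub w φ ↔ Summable (fun n => ‖w n * φ (m n)‖) := Iff.rfl

/-- the map `m ↦ (w n φ (m n))_n` -/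
noncomputable def tL (w : ι → ℂ) (φ : E →ₗ[ℂ] ℂ) : Lsub w φ →ₗ[ℂ] lp (fun _ : ι => ℂ) 1 where
  toFun m := ⟨fun n => w n * φ ((m : lp (fun _ : ι => E) 1) n), (mem_iff _).mpr m.2⟩
  map_add' a b := by
    ext n
    show w n * φ (((a + b : Lsub w φ) : lp (fun _ : ι => E) 1) n) = _
    rw [Submodule.coe_add, lp.coeFn_add, Pi.add_apply, map_add, mul_add]
    rfl
  map_smul' c a := by
    ext n
    show w n * φ (((c • a : Lsub w φ) : lp (fun _ : ι => E) 1) n) = _
    rw [Submodule.coe_smul, lp.coeFn_smul, Pi.smul_apply, map_smul, smul_eq_mul]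
    show _ = c * (w n * φ ((a : lp (fun _ : ι => E) 1) n))
    ring

lemma tL_apply (w : ι → ℂ) (φ : E →ₗ[ℂ] ℂ) (m : Lsub w φ) (n : ι) :
    (tL w φ m) n = w n * φ ((m : lp (fun _ : ι => E) 1) n) := rfl

/-- the sum -/
noncomputable def sgL : lp (fun _ : ι => ℂ) 1 →L[ℂ] ℂ :=
  LinearMap.mkContinuous
    { toFun := fun c => ∑' n, c n
      map_add' := fun a b => by
        rw [lp.coeFn_add]
        exact (summ a).of_norm.tsum_add (summ b).of_norm
      map_smul' := fun c a => by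
        rw [lp.coeFn_smul]
        simp only [Pi.smul_apply, smul_eq_mul, RingHom.id_apply]
        exact tsum_mul_left } 1
    (fun c => by
      rw [one_mul, norm_eq]
      exact norm_tsum_le_tsum_norm (summ c))

lemma sgL_apply (c : lp (fun _ : ι => ℂ) 1) : sgL c = ∑' n, c n := rfl

/-- multiplication by a bounded sequence -/
noncomputable def ubL (w : ι → ℂ) (hw : ∀ n, ‖w n‖ ≤ 1) :
    lp (fun _ : ι => ℂ) 1 →L[ℂ] lp (fun _ : ι => ℂ) 1 :=
  LinearMap.mkContinuous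
    { toFun := fun c => ⟨fun n => w n * c n, (mem_iff _).mpr
        (Summable.of_nonneg_of_le (fun n => norm_nonneg _) (fun n => by
          rw [norm_mul]
          exact mul_le_of_le_one_left (norm_nonneg _) (hw n)) (summ c))⟩
      map_add' := fun a b => by
        ext n
        show w n * (a + b : lp (fun _ : ι => ℂ) 1) n = w n * a n + w n * b n
        rw [lp.coeFn_add, Pi.add_apply, mul_add]
      map_smul' := fun c a => by
        ext n
        show w n * (c • a : lp (fun _ : ι => ℂ) 1) n = c * (w n * a n)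
        rw [lp.coeFn_smul, Pi.smul_apply, smul_eq_mul]
        ring } 1
    (fun c => by
      rw [one_mul, norm_eq, norm_eq]
      have h1 : ∀ n, ‖w n * c n‖ ≤ ‖c n‖ := fun n => by
        rw [norm_mul]
        exact mul_le_of_le_one_left (norm_nonneg _) (hw n)
      exact Summable.tsum_le_tsum h1
        (Summable.of_nonneg_of_le (fun n => norm_nonneg _) h1 (summ c)) (summ c))

lemma ubL_apply (w : ι → ℂ) (hw : ∀ n, ‖w n‖ ≤ 1) (c : lp (fun _ : ι => ℂ) 1) (n : ι) :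
    (ubL w hw c) n = w n * c n := rfl

/-- the map `(m, c) ↦ (c n • m)_n` -/
noncomputable def jL (W : Type) [NormedAddCommGroup W] [NormedSpace ℂ W] :
    E →L[ℂ] lp (fun _ : ι => ℂ) 1 →L[ℂ] (lp (fun _ : ι => E) 1 × W) :=
  LinearMap.mkContinuous₂
    (LinearMap.mk₂ ℂ (fun m c => ((⟨fun n => c n • m, (mem_iff _).mpr (by
        have h := (summ c).mul_right ‖m‖
        refine h.congr (fun n => ?_)
        rw [norm_smul])⟩ : lp (fun _ : ι => E) 1), (0 : W)))
      (fun m m' c => by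
        refine Prod.ext ?_ ?_
        · ext n
          show c n • (m + m') = c n • m + c n • m'
          exact smul_add _ _ _
        · simp)
      (fun a m c => by
        refine Prod.ext ?_ ?_
        · ext n
          show c n • (a • m) = a • (c n • m)
          exact smul_comm _ _ _
        · simp)
      (fun m c c' => by
        refine Prod.ext ?_ ?_
        · ext n
          show (c + c' : lp (fun _ : ι => ℂ) 1) n • m = c n • m + c' n • m
          rw [lp.coeFn_add, Pi.add_apply, add_smul]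
        · simp)
      (fun a m c => by
        refine Prod.ext ?_ ?_
        · ext n
          show (a • c : lp (fun _ : ι => ℂ) 1) n • m = a • (c n • m)
          rw [lp.coeFn_smul, Pi.smul_apply, smul_eq_mul, mul_smul]
        · simp)) 1
    (fun m c => by
      rw [LinearMap.mk₂_apply, Prod.norm_def]
      simp only [norm_zero]
      rw [max_eq_left (norm_nonneg _), norm_eq, one_mul, norm_eq, mul_comm, ← tsum_mul_right]
      apply le_of_eq
      apply tsum_congr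
      intro n
      show ‖c n • m‖ = _
      rw [norm_smul])

lemma jL_fst (W : Type) [NormedAddCommGroup W] [NormedSpace ℂ W] (m : E)
    (c : lp (fun _ : ι => ℂ) 1) (n : ι) : (jL W m c).1 n = c n • m := rfl

lemma jL_snd (W : Type) [NormedAddCommGroup W] [NormedSpace ℂ W] (m : E)
    (c : lp (fun _ : ι => ℂ) 1) : (jL W m c).2 = 0 := rfl

end gen

lemma surj (X : Type) [Nonempty X] (h : #X ≤ 𝔠) : ∃ f : ℝ → X, Function.Surjective f := by
  rw [← Cardinal.mk_real, Cardinal.le_def] at h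
  obtain ⟨e⟩ := h
  exact ⟨Function.invFun e, Function.invFun_surjective e.injective⟩

lemma card_prod (X Y : Type) (hX : #X ≤ 𝔠) (hY : #Y ≤ 𝔠) : #(X × Y) ≤ 𝔠 := by
  rw [Cardinal.mk_prod, Cardinal.lift_id, Cardinal.lift_id]
  exact (mul_le_mul' hX hY).trans_eq Cardinal.continuum_mul_self

/-- `ℓ¹(ℕ)` -/
abbrev B1 : Type := lp (fun _ : ℕ => ℂ) 1

lemma half_le (n : ℕ) : ‖((1:ℂ) / 2) ^ n‖ ≤ 1 := by
  rw [norm_pow]
  apply pow_le_one₀ (norm_nonneg _)
  norm_num

/-- weights `2^-n` -/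
noncomputable def ub0 : B1 →L[ℂ] B1 := ubL (fun n => ((1:ℂ) / 2) ^ n) half_le

lemma ub0_apply (c : B1) (n : ℕ) : ub0 c n = ((1:ℂ) / 2) ^ n * c n := rfl

lemma ub0_single (k : ℕ) (a : ℂ) :
    ub0 (lp.single 1 k a) = lp.single 1 k (((1:ℂ) / 2) ^ k * a) := by
  ext n
  rw [ub0_apply, lp.single_apply, lp.single_apply]
  by_cases h : n = k
  · subst h; simp
  · rw [Pi.single_eq_of_ne h, Pi.single_eq_of_ne h, mul_zero]

lemma ub0_dense : DenseRange ub0 := by
  have hs : ∀ c : B1, c ∈ closure (Set.range ub0) := by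
    intro c
    have h1 : HasSum (fun i => lp.single 1 i (c i)) c :=
      lp.hasSum_single ENNReal.one_ne_top c
    have h2 : ∀ s : Finset ℕ, ∑ i ∈ s, lp.single (E := fun _ : ℕ => ℂ) 1 i (c i)
        ∈ Set.range ub0 := by
      intro s
      refine ⟨∑ i ∈ s, lp.single 1 i ((2:ℂ) ^ i * c i), ?_⟩
      rw [map_sum]
      apply Finset.sum_congr rfl
      intro i _
      rw [ub0_single]
      congr 1
      rw [← mul_assoc, ← mul_pow]
      norm_num
    exact mem_closure_of_tendsto h1 (Filter.Eventually.of_forall h2)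
  exact hs

lemma sgL_single (k : ℕ) (a : ℂ) : sgL (lp.single 1 k a : B1) = a := by
  rw [sgL_apply]
  rw [tsum_eq_single k]
  · exact lp.single_apply_self _ _ _
  · intro n hn
    rw [lp.single_apply, Pi.single_eq_of_ne hn]

end Inst451

open Inst451 in
theorem s_dat (ht : S_tame) (ho : S_omega) (hc : S_card) : S_dat := by
  obtain ⟨Ω, lo, wf, hΩ, hb⟩ := ho
  have hJ : #(Ω × ℝ) ≤ 𝔠 := card_prod _ _ hΩ Cardinal.mk_real.le
  have hJJ : #((Ω × ℝ) × (Ω × ℝ)) ≤ 𝔠 := card_prod _ _ hJ hJ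
  have hW : #(lp (fun _ : (Ω × ℝ) × (Ω × ℝ) => ℂ) 1) ≤ 𝔠 :=
    hc _ ℂ hJJ Cardinal.mk_complex.le
  have hN : #ℕ ≤ 𝔠 := by
    rw [Cardinal.mk_nat]
    exact Cardinal.aleph0_le_continuum
  have hB1 : #B1 ≤ 𝔠 := hc _ ℂ hN Cardinal.mk_complex.le
  have hM : #(B1 × lp (fun _ : (Ω × ℝ) × (Ω × ℝ) => ℂ) 1) ≤ 𝔠 := card_prod _ _ hB1 hW
  obtain ⟨f, hf⟩ := surj _ hM
  obtain ⟨τ, bt, h1, h2, h3, h4⟩ := ht Ω ℝ B1 ℂ f
    (Lsub (fun n => (2:ℂ) ^ n) LinearMap.id)
    ((sgL (ι := ℕ)).toLinearMap.comp (tL (fun n => (2:ℂ) ^ n) LinearMap.id)) hb hf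
  -- second space
  have hB2 : #(lp (fun _ : ℕ => B1 × lp (fun _ : (Ω × ℝ) × (Ω × ℝ) => ℂ) 1) 1) ≤ 𝔠 :=
    hc _ _ hN hM
  have hZ : #(lp (fun _ : ℕ => B1 × lp (fun _ : (Ω × ℝ) × (Ω × ℝ) => ℂ) 1) 1 ×
      lp (fun _ : (Ω × ℝ) × (Ω × ℝ) => ℂ) 1) ≤ 𝔠 := card_prod _ _ hB2 hW
  obtain ⟨f', hf'⟩ := surj _ hZ
  obtain ⟨τ', bt', h1', h2', h3', h4'⟩ := ht Ω ℝ
    (lp (fun _ : ℕ => B1 × lp (fun _ : (Ω × ℝ) × (Ω × ℝ) => ℂ) 1) 1) B1 f'
    (Lsub (fun n => ((1:ℂ) / 2) ^ n) τ)
    (tL (fun n => ((1:ℂ) / 2) ^ n) τ) hb hf'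
  refine ⟨B1 × lp (fun _ : (Ω × ℝ) × (Ω × ℝ) => ℂ) 1,
    lp (fun _ : ℕ => B1 × lp (fun _ : (Ω × ℝ) × (Ω × ℝ) => ℂ) 1) 1 ×
      lp (fun _ : (Ω × ℝ) × (Ω × ℝ) => ℂ) 1,
    lp (fun _ : Ω × ℝ => ℂ) 1, lp (fun _ : Ω × ℝ => ℂ) 1, lp (fun _ : Ω × ℝ => ℂ) 1, B1, B1,
    inferInstance, inferInstance, inferInstance, inferInstance, inferInstance, inferInstance,
    inferInstance, inferInstance, inferInstance, inferInstance, inferInstance, inferInstance,
    inferInstance, inferInstance, inferInstance, inferInstance, inferInstance, inferInstance,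
    inferInstance, inferInstance, inferInstance, ⟨?_⟩⟩
  refine
    { mu := τ
      T := τ'
      inc := ContinuousLinearMap.inl ℂ _ _
      ub := ub0
      sg := sgL
      j := jL _
      bM := bt
      bZ := bt'
      mu_ub := ?_
      T_j := ?_
      ub_dense := ub0_dense
      cs := fun k => lp.single 1 k 1
      cs_norm := ?_
      ub_cs := ?_
      sg_cs := fun k => sgL_single k 1
      j_inj := ?_
      bM_inj := h4
      bZ_inj := h4'
      mu_bM := ⟨1, fun h e => by rw [one_mul]; exact h2 h e⟩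
      T_bZ := ⟨1, fun h e => by rw [one_mul]; exact h2' h e⟩
      cover_M := h3
      cover_Z := h3' }
  · -- mu_ub
    intro c
    have hmem : ub0 c ∈ Lsub (fun n => (2:ℂ) ^ n) (LinearMap.id : ℂ →ₗ[ℂ] ℂ) := by
      rw [mem_Lsub]
      refine (summ c).congr (fun n => ?_)
      rw [ub0_apply, LinearMap.id_apply, ← mul_assoc, ← mul_pow]
      norm_num
    have h5 := h1 ⟨ub0 c, hmem⟩
    rw [ContinuousLinearMap.inl_apply]
    refine h5.trans ?_
    show sgL (tL (fun n => (2:ℂ) ^ n) LinearMap.id ⟨ub0 c, hmem⟩) = sgL c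
    congr 1
    ext n
    rw [tL_apply]
    show (2:ℂ) ^ n * (ub0 c n) = c n
    rw [ub0_apply, ← mul_assoc, ← mul_pow]
    norm_num
  · -- T_j
    intro m c
    have hmem : (jL (lp (fun _ : (Ω × ℝ) × (Ω × ℝ) => ℂ) 1) m c).1 ∈
        Lsub (fun n => ((1:ℂ) / 2) ^ n) τ := by
      rw [mem_Lsub]
      refine Summable.of_nonneg_of_le (fun n => norm_nonneg _) (fun n => ?_)
        ((summ c).mul_right ‖τ m‖)
      rw [jL_fst, map_smul, smul_eq_mul, norm_mul, norm_mul]
      exact mul_le_of_le_one_left (by positivity) (half_le n)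
    have h5 := h1' ⟨_, hmem⟩
    have h6 : jL (lp (fun _ : (Ω × ℝ) × (Ω × ℝ) => ℂ) 1) m c =
        ((jL (lp (fun _ : (Ω × ℝ) × (Ω × ℝ) => ℂ) 1) m c).1, 0) :=
      Prod.ext rfl (jL_snd _ m c)
    rw [h6]
    refine h5.trans ?_
    ext n
    rw [tL_apply, lp.coeFn_smul, Pi.smul_apply, ub0_apply]
    show ((1:ℂ) / 2) ^ n * τ ((jL (lp (fun _ : (Ω × ℝ) × (Ω × ℝ) => ℂ) 1) m c).1 n) = _
    rw [jL_fst, map_smul, smul_eq_mul, smul_eq_mul]
    ring
  · intro k
    rw [lp.norm_single one_pos]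
    simp
  · -- ub_cs
    rw [tendsto_zero_iff_norm_tendsto_zero]
    have h5 : ∀ k : ℕ, ‖ub0 (lp.single 1 k (1:ℂ))‖ = (1 / 2 : ℝ) ^ k := by
      intro k
      rw [ub0_single, lp.norm_single one_pos, mul_one, norm_pow]
      norm_num
    simp only [h5]
    exact tendsto_pow_atTop_nhds_zero_of_lt_one (by norm_num) (by norm_num)
  · -- j_inj
    intro c hc0
    have h5 := hc0 ((lp.single 1 0 1 : B1), 0)
    ext n
    have h6 : (jL (lp (fun _ : (Ω × ℝ) × (Ω × ℝ) => ℂ) 1)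
        ((lp.single 1 0 1 : B1), (0 : lp (fun _ : (Ω × ℝ) × (Ω × ℝ) => ℂ) 1)) c).1 n = 0 := by
      rw [h5]
      rfl
    rw [jL_fst] at h6
    have h7 : c n • (lp.single 1 0 1 : B1) = 0 := congrArg Prod.fst h6
    have h8 : (c n • (lp.single 1 0 1 : B1)) 0 = 0 := by rw [h7]; rfl
    rw [lp.coeFn_smul, Pi.smul_apply, lp.single_apply_self, smul_eq_mul, mul_one] at h8
    exact h8

end Pool.Agent.R233.NA
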