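import Pool.Agent.R233.NA.Stm

/-!
# NA-4a: the matrix lemma
-/

open Filter Topology
open scoped ENNReal Cardinal

namespace Pool.Agent.R233.NA

namespace MX

lemma summable_lp {ι : Type} (v : lp (fun _ : ι => ℂ) 1) : Summable (fun i => ‖v i‖) := by
  have h := (lp.memℓp v).summable (by norm_num)
  simpa using h

lemma norm_lp {ι : Type} (v : lp (fun _ : ι => ℂ) 1) : ‖v‖ = ∑' i, ‖v i‖ := by
  rw [lp.norm_eq_tsum_rpow (by norm_num)]
  simp

lemma enorm_lp {ι : Type} (v : lp (fun _ : ι => ℂ) 1) : ∑' i, ‖v i‖ₑ = ‖v‖ₑ := by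
  rw [← ofReal_norm v, norm_lp,
    ENNReal.ofReal_tsum_of_nonneg (fun i => norm_nonneg _) (summable_lp v)]
  exact tsum_congr fun i => (ofReal_norm _).symm

/-- The coordinates of the elements of a finite dimensional subspace are small, up to finitely many
indices. -/
lemma fin_set {ι K : Type} [Fintype K] (c : K → lp (fun _ : ι => ℂ) 1) :
    ∃ F : Set ι, F.Finite ∧ ∀ j ∉ F, ∀ v ∈ Submodule.span ℂ (Set.range c), 4 * ‖v j‖ ≤ ‖v‖ := by
  set C := Submodule.span ℂ (Set.range c) with hC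
  have : FiniteDimensional ℂ C := FiniteDimensional.span_of_finite ℂ (Set.finite_range c)
  let b := Module.finBasis ℂ C
  let f : C →L[ℂ] (Fin (Module.finrank ℂ C) → ℂ) :=
    LinearMap.toContinuousLinearMap (b.equivFun : C →ₗ[ℂ] (Fin (Module.finrank ℂ C) → ℂ))
  have hf : ∀ v : C, ∀ i, ‖b.equivFun v i‖ ≤ ‖f‖ * ‖v‖ := by
    intro v i
    exact (norm_le_pi_norm (f v) i).trans (f.le_opNorm v)
  have hsum : Summable (fun j => ∑ i, ‖(b i : lp (fun _ : ι => ℂ) 1) j‖) :=
    summable_sum fun i _ => summable_lp _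
  have ht : Tendsto (fun j => 4 * ‖f‖ * ∑ i, ‖(b i : lp (fun _ : ι => ℂ) 1) j‖) cofinite (𝓝 0) := by
    have := hsum.tendsto_cofinite_zero.const_mul (4 * ‖f‖)
    simpa using this
  have hev : ∀ᶠ j in cofinite, 4 * ‖f‖ * ∑ i, ‖(b i : lp (fun _ : ι => ℂ) 1) j‖ < 1 :=
    ht.eventually (gt_mem_nhds one_pos)
  refine ⟨{j | ¬ 4 * ‖f‖ * ∑ i, ‖(b i : lp (fun _ : ι => ℂ) 1) j‖ < 1}, hev, ?_⟩
  intro j hj v hv
  have hj' : 4 * ‖f‖ * ∑ i, ‖(b i : lp (fun _ : ι => ℂ) 1) j‖ < 1 := not_not.mp hj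
  have hv' : v = ∑ i, b.equivFun ⟨v, hv⟩ i • (b i : lp (fun _ : ι => ℂ) 1) := by
    have := congrArg (Subtype.val) (b.sum_equivFun ⟨v, hv⟩)
    have e : ((∑ i, b.equivFun ⟨v, hv⟩ i • b i : C) : lp (fun _ : ι => ℂ) 1) =
        ∑ i, b.equivFun ⟨v, hv⟩ i • (b i : lp (fun _ : ι => ℂ) 1) := by
      rw [Submodule.coe_sum]
      rfl
    exact this.symm.trans e
  have hvj : v j = ∑ i, b.equivFun ⟨v, hv⟩ i * (b i : lp (fun _ : ι => ℂ) 1) j := by
    conv_lhs => rw [hv']
    rw [lp.coeFn_sum, Finset.sum_apply]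
    rfl
  have h1 : ‖v j‖ ≤ ‖f‖ * ‖v‖ * ∑ i, ‖(b i : lp (fun _ : ι => ℂ) 1) j‖ := by
    rw [hvj, Finset.mul_sum]
    refine (norm_sum_le _ _).trans (Finset.sum_le_sum fun i _ => ?_)
    rw [norm_mul]
    exact mul_le_mul_of_nonneg_right (hf ⟨v, hv⟩ i) (norm_nonneg _)
  have h2 : 0 ≤ ‖v‖ := norm_nonneg v
  nlinarith

end MX

open MX

theorem s_matrix : S_matrix := by
  classical
  intro ι Ω K _ _ lev x c d 𝒜 γ hx hsupp hγ hc hd hyp
  -- the matrix
  set S : ι → ι → ℂ := fun i j => ∑ k, c k i * d k j with hS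
  have hyp' : ∀ i j, i ≠ j → (γ ≤ lev i ∨ γ ≤ lev j) → S i j + ∑' l, S l l * x l (i, j) = 0 := hyp
  obtain ⟨F, hF, hF'⟩ := fin_set c
  -- the level
  set G : Finset Ω := insert γ ((hF.toFinset.image lev).filter (· ∈ 𝒜)) with hG
  have hGne : G.Nonempty := ⟨γ, Finset.mem_insert_self _ _⟩
  obtain ⟨ρ, hρG, hρmax⟩ := Finset.exists_max_image G id hGne
  have hρ : ρ ∈ 𝒜 := by
    rcases Finset.mem_insert.mp hρG with h | h
    · rw [h]; exact hγ
    · exact (Finset.mem_filter.mp h).2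
  have hγρ : γ ≤ ρ := hρmax γ (Finset.mem_insert_self _ _)
  have hFρ : ∀ j ∈ F, lev j ∈ 𝒜 → lev j ≤ ρ := by
    intro j hj hjA
    exact hρmax (lev j) (Finset.mem_insert_of_mem (Finset.mem_filter.mpr
      ⟨Finset.mem_image_of_mem lev (hF.mem_toFinset.mpr hj), hjA⟩))
  -- columns
  set C : ι → lp (fun _ : ι => ℂ) 1 := fun j => ∑ k, d k j • c k with hCdef
  have hC : ∀ i j, C j i = S i j := by
    intro i j
    rw [hCdef, hS]
    change (∑ k, d k j • c k : lp (fun _ : ι => ℂ) 1) i = _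
    rw [lp.coeFn_sum, Finset.sum_apply]
    refine Finset.sum_congr rfl fun k _ => ?_
    change d k j * c k i = _
    rw [mul_comm]
  have hCspan : ∀ j, C j ∈ Submodule.span ℂ (Set.range c) := by
    intro j
    refine Submodule.sum_mem _ fun k _ => Submodule.smul_mem _ _ (Submodule.subset_span ⟨k, rfl⟩)
  have hN : ∀ j, ∑' i, ‖S i j‖ₑ = ‖C j‖ₑ := by
    intro j
    rw [← enorm_lp]
    exact tsum_congr fun i => by rw [hC]
  -- the diagonal
  have hdiag : ∀ j, ρ < lev j → 4 * ‖S j j‖ₑ ≤ ‖C j‖ₑ := by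
    intro j hj
    by_cases hjF : j ∈ F
    · have hjA : lev j ∉ 𝒜 := fun h => absurd (hFρ j hjF h) (not_le.mpr hj)
      have : S j j = 0 := by
        rw [hS]
        exact Finset.sum_eq_zero fun k _ => by rw [hd k j hjA, mul_zero]
      rw [this]
      simp
    · have h1 := hF' j hjF (C j) (hCspan j)
      rw [hC] at h1
      rw [← ofReal_norm, ← ofReal_norm,
        show (4 : ℝ≥0∞) = ENNReal.ofReal 4 by norm_num, ← ENNReal.ofReal_mul (by norm_num)]
      exact ENNReal.ofReal_le_ofReal h1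
  set g : ι → ℝ≥0∞ := fun l => if ρ < lev l then ‖S l l‖ₑ else 0 with hg
  set D : ℝ≥0∞ := ∑' l, g l with hD
  set Sg : ℝ≥0∞ := ∑' j, (if ρ < lev j then ‖C j‖ₑ else 0) with hSg
  have hA : 4 * D ≤ Sg := by
    rw [hD, hSg, ← ENNReal.tsum_mul_left]
    refine ENNReal.tsum_le_tsum fun l => ?_
    rw [hg]
    dsimp only
    split_ifs with h
    · exact hdiag l h
    · simp
  have hoff : ∀ i j, i ≠ j → ρ < lev j → ‖S i j‖ₑ ≤ ∑' l, g l * ‖x l (i, j)‖ₑ := by
    intro i j hij hj
    have h1 := hyp' i j hij (Or.inr (hγρ.trans hj.le))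
    have h2 : S i j = - ∑' l, S l l * x l (i, j) := eq_neg_of_add_eq_zero_left h1
    rw [h2, enorm_neg]
    refine enorm_tsum_le_tsum_enorm.trans (ENNReal.tsum_le_tsum fun l => ?_)
    rw [enorm_mul]
    by_cases hxl : x l (i, j) = 0
    · rw [hxl]; simp
    · have := (hsupp l i j hxl).2
      rw [hg]
      dsimp only
      rw [if_pos (hj.trans this)]
  have hxe : ∀ l, ∑' j, ∑' i, ‖x l (i, j)‖ₑ ≤ 1 := by
    intro l
    rw [ENNReal.tsum_comm, ← ENNReal.tsum_prod (f := fun i j => ‖x l (i, j)‖ₑ)]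
    have h1 : ∑' p : ι × ι, ‖x l (p.1, p.2)‖ₑ = ‖x l‖ₑ := enorm_lp (x l)
    rw [h1, ← ofReal_norm]
    exact (ENNReal.ofReal_le_ofReal (hx l)).trans (by simp)
  have hB : Sg ≤ D + D := by
    have h1 : ∀ j, (if ρ < lev j then ‖C j‖ₑ else 0) ≤
        g j + ∑' i, ∑' l, g l * ‖x l (i, j)‖ₑ := by
      intro j
      split_ifs with hj
      · rw [← hN j]
        have h2 : ∀ i, ‖S i j‖ₑ ≤ (if i = j then ‖S j j‖ₑ else 0) +
            ∑' l, g l * ‖x l (i, j)‖ₑ := by
          intro i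
          by_cases hij : i = j
          · subst hij
            rw [if_pos rfl]
            exact le_self_add
          · rw [if_neg hij, zero_add]
            exact hoff i j hij hj
        refine (ENNReal.tsum_le_tsum h2).trans ?_
        rw [ENNReal.tsum_add, tsum_ite_eq]
        have : g j = ‖S j j‖ₑ := by
          rw [hg]; dsimp only; rw [if_pos hj]
        rw [this]
      · exact zero_le
    refine (ENNReal.tsum_le_tsum h1).trans ?_
    rw [ENNReal.tsum_add]
    refine add_le_add_right ?_ _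
    calc ∑' j, ∑' i, ∑' l, g l * ‖x l (i, j)‖ₑ
        = ∑' l, g l * ∑' j, ∑' i, ‖x l (i, j)‖ₑ := by
          have e1 : ∀ j, ∑' i, ∑' l, g l * ‖x l (i, j)‖ₑ = ∑' l, g l * ∑' i, ‖x l (i, j)‖ₑ := by
            intro j
            rw [ENNReal.tsum_comm]
            exact tsum_congr fun l => ENNReal.tsum_mul_left
          rw [tsum_congr e1, ENNReal.tsum_comm]
          exact tsum_congr fun l => ENNReal.tsum_mul_left
      _ ≤ ∑' l, g l * 1 := ENNReal.tsum_le_tsum fun l => mul_le_mul_right (hxe l) _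
      _ = D := by simp [hD]
  have hfin : Sg ≠ ∞ := by
    have h1 : Sg ≤ ∑ k, (∑' j, ‖d k j‖ₑ) * ‖c k‖ₑ := by
      calc Sg ≤ ∑' j, ∑ k, ‖d k j‖ₑ * ‖c k‖ₑ := by
            refine ENNReal.tsum_le_tsum fun j => ?_
            split_ifs
            · rw [hCdef]
              refine (enorm_sum_le _ _).trans (Finset.sum_le_sum fun k _ => ?_)
              rw [enorm_smul]
            · exact zero_le
        _ = ∑ k, ∑' j, ‖d k j‖ₑ * ‖c k‖ₑ := by
            rw [Summable.tsum_finsetSum (fun k _ => ENNReal.summable)]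
        _ = ∑ k, (∑' j, ‖d k j‖ₑ) * ‖c k‖ₑ :=
            Finset.sum_congr rfl fun k _ => ENNReal.tsum_mul_right
    refine ne_top_of_le_ne_top ?_ h1
    refine ENNReal.sum_ne_top.mpr fun k _ => ?_
    rw [enorm_lp]
    exact ENNReal.mul_ne_top enorm_ne_top enorm_ne_top
  have hD0 : Sg = 0 := by
    have hDfin : D ≠ ∞ := by
      intro h
      rw [h] at hA
      simp only [ENNReal.mul_top (by norm_num : (4 : ℝ≥0∞) ≠ 0), top_le_iff] at hA
      exact hfin hA
    lift Sg to NNReal using hfin with sg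
    lift D to NNReal using hDfin with dd
    norm_cast at hA hB ⊢
    have h1 : (sg : ℝ) ≤ dd + dd := by exact_mod_cast hB
    have h2 : 4 * (dd : ℝ) ≤ sg := by exact_mod_cast hA
    have h3 : (0 : ℝ) ≤ sg := sg.2
    apply NNReal.eq
    rw [NNReal.coe_zero]
    linarith
  have hcol : ∀ i j, ρ < lev j → S i j = 0 := by
    intro i j hj
    have h1 := ENNReal.tsum_eq_zero.mp hD0 j
    rw [if_pos hj, ← hN j] at h1
    have h2 := ENNReal.tsum_eq_zero.mp h1 i
    exact enorm_eq_zero.mp h2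
  have hoff2 : ∀ i j, i ≠ j → (ρ ≤ lev i ∨ ρ ≤ lev j) → S i j = 0 := by
    intro i j hij hor
    have h1 := hyp' i j hij (hor.imp (fun h => hγρ.trans h) (fun h => hγρ.trans h))
    have h2 : ∑' l, S l l * x l (i, j) = 0 := by
      have : ∀ l, S l l * x l (i, j) = 0 := by
        intro l
        by_cases hxl : x l (i, j) = 0
        · rw [hxl, mul_zero]
        · obtain ⟨h3, h4⟩ := hsupp l i j hxl
          have h5 : ρ < lev l := by
            rcases hor with h | h
            · exact lt_of_le_of_lt h h3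
            · exact lt_of_le_of_lt h h4
          rw [hcol l l h5, zero_mul]
      rw [tsum_congr this, tsum_zero]
    rw [h2, add_zero] at h1
    exact h1
  refine ⟨ρ, hρ, hγρ, ?_, hoff2, ?_⟩
  · intro i j hor
    rcases hor with h | h
    · by_cases hij : i = j
      · subst hij
        exact hcol i i h
      · exact hoff2 i j hij (Or.inl h.le)
    · exact hcol i j h
  · -- finiteness
    set P : Set ι := {l | ρ ≤ lev l ∧ S l l ≠ 0} with hP
    have hli : LinearIndependent ℂ (fun l : P => (fun k => c k l : K → ℂ)) := by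
      rw [linearIndependent_iff']
      intro s a ha l' hl'
      have h1 : ∑ l ∈ s, a l * S l l' = 0 := by
        have h2 : ∑ l ∈ s, a l * S l l' = ∑ k, (∑ l ∈ s, a l • (fun k => c k l : K → ℂ)) k * d k l' := by
          simp only [Finset.sum_apply, Pi.smul_apply, smul_eq_mul, hS, Finset.mul_sum,
            Finset.sum_mul]
          rw [Finset.sum_comm]
          refine Finset.sum_congr rfl fun k _ => Finset.sum_congr rfl fun l _ => ?_
          ring
        rw [h2, ha]
        simp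
      rw [Finset.sum_eq_single l'] at h1
      · exact (mul_eq_zero.mp h1).resolve_right l'.2.2
      · intro l _ hne
        rw [hoff2 l l' (fun h => hne (Subtype.ext h)) (Or.inl l.2.1), mul_zero]
      · intro h
        exact absurd hl' h
    have : Finite P := hli.finite
    exact Set.toFinite P

end Pool.Agent.R233.NA
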