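import Pool.Agent.R233.NA.AlgDefs

/-!
# NA-2b: the two norms of the algebra (MP_357fb8_an)
-/

set_option autoImplicit false

open Filter Topology

namespace Pool.Agent.R233.NA

namespace NRM

/-! ### complete norms -/

theorem bnorm_norm {E : Type} [NormedAddCommGroup E] [NormedSpace ℂ E] [CompleteSpace E] :
    IsBNorm (fun v : E => ‖v‖) where
  eq_zero v h := norm_eq_zero.1 h
  add_le v w := norm_add_le v w
  smul c v := norm_smul c v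
  complete u hu := by
    have hc : CauchySeq u := by
      rw [Metric.cauchySeq_iff]
      intro ε hε
      obtain ⟨N, hN⟩ := hu ε hε
      exact ⟨N, fun i hi j hj => by rw [dist_eq_norm]; exact hN i hi j hj⟩
    obtain ⟨v, hv⟩ := cauchySeq_tendsto_of_complete hc
    refine ⟨v, fun ε hε => ?_⟩
    rw [Metric.tendsto_atTop] at hv
    obtain ⟨N, hN⟩ := hv ε hε
    exact ⟨N, fun i hi => by rw [← dist_eq_norm]; exact hN i hi⟩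

theorem IsBNorm.nonneg {V : Type} [AddCommGroup V] [Module ℂ V] {n : V → ℝ} (h : IsBNorm n)
    (v : V) : 0 ≤ n v := by
  have h0 : n 0 = 0 := by
    have := h.smul 0 0
    rwa [zero_smul, norm_zero, zero_mul] at this
  have h1 := h.add_le v (-v)
  have h2 : n (-v) = n v := by
    have := h.smul (-1) v
    rw [neg_one_smul, norm_neg, norm_one, one_mul] at this
    exact this
  rw [add_neg_cancel, h0, h2] at h1
  linarith

theorem bnorm_prod {V W : Type} [AddCommGroup V] [Module ℂ V] [AddCommGroup W] [Module ℂ W]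
    {n : V → ℝ} {m : W → ℝ} (hn : IsBNorm n) (hm : IsBNorm m) :
    IsBNorm (fun v : V × W => n v.1 + m v.2) where
  eq_zero v h := by
    have h1 := IsBNorm.nonneg hn v.1
    have h2 := IsBNorm.nonneg hm v.2
    have h3 : n v.1 = 0 := by linarith
    have h4 : m v.2 = 0 := by linarith
    exact Prod.ext (hn.eq_zero _ h3) (hm.eq_zero _ h4)
  add_le v w := by
    have h1 := hn.add_le v.1 w.1
    have h2 := hm.add_le v.2 w.2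
    change n (v.1 + w.1) + m (v.2 + w.2) ≤ _
    linarith
  smul c v := by
    change n (c • v.1) + m (c • v.2) = _
    rw [hn.smul, hm.smul]
    ring
  complete u hu := by
    obtain ⟨v, hv⟩ := hn.complete (fun i => (u i).1) (fun ε hε => by
      obtain ⟨N, hN⟩ := hu ε hε
      refine ⟨N, fun i hi j hj => ?_⟩
      have h1 := hN i hi j hj
      have h2 := IsBNorm.nonneg hm ((u i).2 - (u j).2)
      change n ((u i).1 - (u j).1) + m ((u i).2 - (u j).2) < ε at h1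
      change n ((u i).1 - (u j).1) < ε
      linarith)
    obtain ⟨w, hw⟩ := hm.complete (fun i => (u i).2) (fun ε hε => by
      obtain ⟨N, hN⟩ := hu ε hε
      refine ⟨N, fun i hi j hj => ?_⟩
      have h1 := hN i hi j hj
      have h2 := IsBNorm.nonneg hn ((u i).1 - (u j).1)
      change n ((u i).1 - (u j).1) + m ((u i).2 - (u j).2) < ε at h1
      change m ((u i).2 - (u j).2) < ε
      linarith)
    refine ⟨(v, w), fun ε hε => ?_⟩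
    obtain ⟨N1, h1⟩ := hv (ε / 2) (by linarith)
    obtain ⟨N2, h2⟩ := hw (ε / 2) (by linarith)
    refine ⟨max N1 N2, fun i hi => ?_⟩
    have h3 := h1 i ((le_max_left _ _).trans hi)
    have h4 := h2 i ((le_max_right _ _).trans hi)
    change n ((u i).1 - v) + m ((u i).2 - w) < ε
    linarith

theorem bnorm_pull {V W : Type} [AddCommGroup V] [Module ℂ V] [AddCommGroup W] [Module ℂ W]
    {m : W → ℝ} (hm : IsBNorm m) (e : V ≃ₗ[ℂ] W) : IsBNorm (fun v => m (e v)) where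
  eq_zero v h := by
    have := hm.eq_zero _ h
    exact (LinearEquiv.map_eq_zero_iff e).1 this
  add_le v w := by
    change m (e (v + w)) ≤ _
    rw [map_add]
    exact hm.add_le _ _
  smul c v := by
    change m (e (c • v)) = _
    rw [map_smul]
    exact hm.smul _ _
  complete u hu := by
    obtain ⟨w, hw⟩ := hm.complete (fun i => e (u i)) (fun ε hε => by
      obtain ⟨N, hN⟩ := hu ε hε
      refine ⟨N, fun i hi j hj => ?_⟩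
      have := hN i hi j hj
      change m (e (u i - u j)) < ε at this
      rwa [map_sub] at this)
    refine ⟨e.symm w, fun ε hε => ?_⟩
    obtain ⟨N, hN⟩ := hw ε hε
    refine ⟨N, fun i hi => ?_⟩
    change m (e (u i - e.symm w)) < ε
    rw [map_sub, LinearEquiv.apply_symm_apply]
    exact hN i hi

variable {M Z H E₁ E₂ Y C : Type}
    [NormedAddCommGroup M] [NormedSpace ℂ M]
    [NormedAddCommGroup Z] [NormedSpace ℂ Z]
    [NormedAddCommGroup H] [NormedSpace ℂ H]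
    [NormedAddCommGroup E₁] [NormedSpace ℂ E₁]
    [NormedAddCommGroup E₂] [NormedSpace ℂ E₂]
    [NormedAddCommGroup Y] [NormedSpace ℂ Y]
    [NormedAddCommGroup C] [NormedSpace ℂ C]

/-- the shear on `ℂ × M` -/
noncomputable def eP (D : Dat M Z H E₁ E₂ Y C) (r : ℂ) : (ℂ × M) ≃ₗ[ℂ] (ℂ × M) where
  toFun p := (p.1 + r * D.mu p.2, p.2)
  invFun p := (p.1 - r * D.mu p.2, p.2)
  map_add' p q := by
    ext
    · change (p.1 + q.1) + r * D.mu (p.2 + q.2) = (p.1 + r * D.mu p.2) + (q.1 + r * D.mu q.2)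
      rw [map_add]; ring
    · rfl
  map_smul' c p := by
    ext
    · change (c * p.1) + r * D.mu (c • p.2) = c * (p.1 + r * D.mu p.2)
      rw [map_smul, smul_eq_mul]; ring
    · rfl
  left_inv p := by
    ext
    · change (p.1 + r * D.mu p.2) - r * D.mu p.2 = p.1
      ring
    · rfl
  right_inv p := by
    ext
    · change (p.1 - r * D.mu p.2) + r * D.mu p.2 = p.1
      ring
    · rfl

theorem bnorm_nP [CompleteSpace M] (D : Dat M Z H E₁ E₂ Y C) (r : ℂ) : IsBNorm (D.nP r) :=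
  bnorm_pull (bnorm_prod bnorm_norm bnorm_norm) (eP D r)

/-- the shear on `ℂ × M × Z` -/
noncomputable def eX (D : Dat M Z H E₁ E₂ Y C) (r : ℂ) : (ℂ × M × Z) ≃ₗ[ℂ] (ℂ × M × Z) where
  toFun x := (x.1 + r * D.mu x.2.1, x.2.1 + r • D.inc (D.T x.2.2), x.2.2)
  invFun y := (y.1 - r * D.mu (y.2.1 - r • D.inc (D.T y.2.2)), y.2.1 - r • D.inc (D.T y.2.2),
    y.2.2)
  map_add' p q := by
    ext
    · change (p.1 + q.1) + r * D.mu (p.2.1 + q.2.1) =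
        (p.1 + r * D.mu p.2.1) + (q.1 + r * D.mu q.2.1)
      rw [map_add]; ring
    · change (p.2.1 + q.2.1) + r • D.inc (D.T (p.2.2 + q.2.2)) =
        (p.2.1 + r • D.inc (D.T p.2.2)) + (q.2.1 + r • D.inc (D.T q.2.2))
      rw [map_add, map_add, smul_add]; abel
    · rfl
  map_smul' c p := by
    ext
    · change (c * p.1) + r * D.mu (c • p.2.1) = c * (p.1 + r * D.mu p.2.1)
      rw [map_smul, smul_eq_mul]; ring
    · change (c • p.2.1) + r • D.inc (D.T (c • p.2.2)) = c • (p.2.1 + r • D.inc (D.T p.2.2))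
      rw [map_smul, map_smul, smul_add, smul_comm]
    · rfl
  left_inv p := by
    ext
    · change (p.1 + r * D.mu p.2.1) -
        r * D.mu (p.2.1 + r • D.inc (D.T p.2.2) - r • D.inc (D.T p.2.2)) = p.1
      rw [add_sub_cancel_right]
      ring
    · change p.2.1 + r • D.inc (D.T p.2.2) - r • D.inc (D.T p.2.2) = p.2.1
      rw [add_sub_cancel_right]
    · rfl
  right_inv p := by
    ext
    · change (p.1 - r * D.mu (p.2.1 - r • D.inc (D.T p.2.2))) +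
        r * D.mu (p.2.1 - r • D.inc (D.T p.2.2)) = p.1
      ring
    · change p.2.1 - r • D.inc (D.T p.2.2) + r • D.inc (D.T p.2.2) = p.2.1
      rw [sub_add_cancel]
    · rfl

theorem bnorm_nX [CompleteSpace M] [CompleteSpace Z] (D : Dat M Z H E₁ E₂ Y C) (r : ℂ) :
    IsBNorm (D.nX r) := by
  have h := bnorm_pull (bnorm_prod (bnorm_norm (E := ℂ))
    (bnorm_prod (bnorm_norm (E := M)) (bnorm_norm (E := Z)))) (eX D r)
  have e : (fun v : ℂ × M × Z => ‖(eX D r v).1‖ + (‖(eX D r v).2.1‖ + ‖(eX D r v).2.2‖)) =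
      D.nX r := by
    funext v
    change ‖v.1 + r * D.mu v.2.1‖ + (‖v.2.1 + r • D.inc (D.T v.2.2)‖ + ‖v.2.2‖) = _
    unfold Dat.nX
    ring
  rw [← e]
  exact h

/-- the algebra as a product -/
noncomputable def eA (D : Dat M Z H E₁ E₂ Y C) : Alg D ≃ₗ[ℂ]
    (ℂ × ℂ × ℂ × ℂ × ℂ × ℂ × (ℂ × M) × (ℂ × M) × (ℂ × M × Z) × H × ℂ × ℂ × (ℂ × C) ×
      (M →L[ℂ] ℂ) × (M →L[ℂ] ℂ) × (Z →L[ℂ] ℂ) × E₁ × E₂ × (H →L[ℂ] ℂ)) where
  toFun a := (a.a1, a.a3, a.a4, a.a5, a.a6, a.a7, a.p, a.q, a.x, a.h, a.k, a.t, a.c, a.g3, a.g4,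
    a.f, a.e1, a.e2, a.g6)
  invFun v :=
    { a1 := v.1
      a3 := v.2.1
      a4 := v.2.2.1
      a5 := v.2.2.2.1
      a6 := v.2.2.2.2.1
      a7 := v.2.2.2.2.2.1
      p := v.2.2.2.2.2.2.1
      q := v.2.2.2.2.2.2.2.1
      x := v.2.2.2.2.2.2.2.2.1
      h := v.2.2.2.2.2.2.2.2.2.1
      k := v.2.2.2.2.2.2.2.2.2.2.1
      t := v.2.2.2.2.2.2.2.2.2.2.2.1
      c := v.2.2.2.2.2.2.2.2.2.2.2.2.1
      g3 := v.2.2.2.2.2.2.2.2.2.2.2.2.2.1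
      g4 := v.2.2.2.2.2.2.2.2.2.2.2.2.2.2.1
      f := v.2.2.2.2.2.2.2.2.2.2.2.2.2.2.2.1
      e1 := v.2.2.2.2.2.2.2.2.2.2.2.2.2.2.2.2.1
      e2 := v.2.2.2.2.2.2.2.2.2.2.2.2.2.2.2.2.2.1
      g6 := v.2.2.2.2.2.2.2.2.2.2.2.2.2.2.2.2.2.2 }
  map_add' a b := rfl
  map_smul' c a := rfl
  left_inv a := rfl
  right_inv v := rfl

theorem bnorm_nrm [CompleteSpace M] [CompleteSpace Z] [CompleteSpace H] [CompleteSpace E₁]
    [CompleteSpace E₂] [CompleteSpace C] (D : Dat M Z H E₁ E₂ Y C) (r : ℂ) :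
    IsBNorm (Alg.nrm (D := D) r) := by
  have b := bnorm_norm (E := ℂ)
  have h := bnorm_pull (bnorm_prod b (bnorm_prod b (bnorm_prod b (bnorm_prod b (bnorm_prod b
    (bnorm_prod b (bnorm_prod (bnorm_nP D r) (bnorm_prod (bnorm_nP D r) (bnorm_prod (bnorm_nX D r)
    (bnorm_prod (bnorm_norm (E := H)) (bnorm_prod b (bnorm_prod b
    (bnorm_prod (bnorm_norm (E := ℂ × C)) (bnorm_prod (bnorm_norm (E := M →L[ℂ] ℂ))
    (bnorm_prod (bnorm_norm (E := M →L[ℂ] ℂ)) (bnorm_prod (bnorm_norm (E := Z →L[ℂ] ℂ))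
    (bnorm_prod (bnorm_norm (E := E₁)) (bnorm_prod (bnorm_norm (E := E₂))
    (bnorm_norm (E := H →L[ℂ] ℂ)))))))))))))))))))) (eA D)
  have e : (fun a : Alg D => ‖a.a1‖ + (‖a.a3‖ + (‖a.a4‖ + (‖a.a5‖ + (‖a.a6‖ + (‖a.a7‖ + (D.nP r a.p +
      (D.nP r a.q + (D.nX r a.x + (‖a.h‖ + (‖a.k‖ + (‖a.t‖ + (‖a.c‖ + (‖a.g3‖ + (‖a.g4‖ +
      (‖a.f‖ + (‖a.e1‖ + (‖a.e2‖ + ‖a.g6‖)))))))))))))))))) = Alg.nrm (D := D) r := by
    funext a
    unfold Alg.nrm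
    ring
  rw [← e]
  exact h

/-! ### the product bound -/

theorem nP_nonneg (D : Dat M Z H E₁ E₂ Y C) (r : ℂ) (p : ℂ × M) : 0 ≤ D.nP r p :=
  add_nonneg (norm_nonneg _) (norm_nonneg _)

theorem nX_nonneg (D : Dat M Z H E₁ E₂ Y C) (r : ℂ) (x : ℂ × M × Z) : 0 ≤ D.nX r x :=
  add_nonneg (add_nonneg (norm_nonneg _) (norm_nonneg _)) (norm_nonneg _)

theorem nP_add (D : Dat M Z H E₁ E₂ Y C) (r : ℂ) (p q : ℂ × M) :
    D.nP r (p + q) ≤ D.nP r p + D.nP r q := by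
  unfold Dat.nP
  have h1 : (p + q).1 + r * D.mu (p + q).2 = (p.1 + r * D.mu p.2) + (q.1 + r * D.mu q.2) := by
    change (p.1 + q.1) + r * D.mu (p.2 + q.2) = _
    rw [map_add]; ring
  rw [h1]
  have h2 := norm_add_le (p.1 + r * D.mu p.2) (q.1 + r * D.mu q.2)
  have h3 : ‖(p + q).2‖ ≤ ‖p.2‖ + ‖q.2‖ := norm_add_le _ _
  linarith

theorem nP_smul (D : Dat M Z H E₁ E₂ Y C) (r c : ℂ) (p : ℂ × M) :
    D.nP r (c • p) = ‖c‖ * D.nP r p := by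
  unfold Dat.nP
  have h1 : (c • p).1 + r * D.mu (c • p).2 = c * (p.1 + r * D.mu p.2) := by
    change c * p.1 + r * D.mu (c • p.2) = _
    rw [map_smul, smul_eq_mul]; ring
  rw [h1, norm_mul]
  have h3 : ‖(c • p).2‖ = ‖c‖ * ‖p.2‖ := norm_smul _ _
  rw [h3]
  ring

theorem nX_add (D : Dat M Z H E₁ E₂ Y C) (r : ℂ) (p q : ℂ × M × Z) :
    D.nX r (p + q) ≤ D.nX r p + D.nX r q := by
  unfold Dat.nX
  have h1 : (p + q).1 + r * D.mu (p + q).2.1 =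
      (p.1 + r * D.mu p.2.1) + (q.1 + r * D.mu q.2.1) := by
    change (p.1 + q.1) + r * D.mu (p.2.1 + q.2.1) = _
    rw [map_add]; ring
  have h2 : (p + q).2.1 + r • D.inc (D.T (p + q).2.2) =
      (p.2.1 + r • D.inc (D.T p.2.2)) + (q.2.1 + r • D.inc (D.T q.2.2)) := by
    change (p.2.1 + q.2.1) + r • D.inc (D.T (p.2.2 + q.2.2)) = _
    rw [map_add, map_add, smul_add]; abel
  rw [h1, h2]
  have h3 := norm_add_le (p.1 + r * D.mu p.2.1) (q.1 + r * D.mu q.2.1)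
  have h4 := norm_add_le (p.2.1 + r • D.inc (D.T p.2.2)) (q.2.1 + r • D.inc (D.T q.2.2))
  have h5 : ‖(p + q).2.2‖ ≤ ‖p.2.2‖ + ‖q.2.2‖ := norm_add_le _ _
  linarith

theorem nX_smul (D : Dat M Z H E₁ E₂ Y C) (r c : ℂ) (p : ℂ × M × Z) :
    D.nX r (c • p) = ‖c‖ * D.nX r p := by
  unfold Dat.nX
  have h1 : (c • p).1 + r * D.mu (c • p).2.1 = c * (p.1 + r * D.mu p.2.1) := by
    change c * p.1 + r * D.mu (c • p.2.1) = _
    rw [map_smul, smul_eq_mul]; ring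
  have h2 : (c • p).2.1 + r • D.inc (D.T (c • p).2.2) = c • (p.2.1 + r • D.inc (D.T p.2.2)) := by
    change c • p.2.1 + r • D.inc (D.T (c • p.2.2)) = _
    rw [map_smul, map_smul, smul_add, smul_comm]
  have h3 : ‖(c • p).2.2‖ = ‖c‖ * ‖p.2.2‖ := norm_smul _ _
  rw [h1, h2, h3, norm_mul, norm_smul]
  ring

theorem snd_le_nP (D : Dat M Z H E₁ E₂ Y C) (r : ℂ) (p : ℂ × M) : ‖p.2‖ ≤ D.nP r p := by
  unfold Dat.nP
  have := norm_nonneg (p.1 + r * D.mu p.2)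
  linarith

theorem fst_le_nP (D : Dat M Z H E₁ E₂ Y C) (r : ℂ) (p : ℂ × M) :
    ‖p.1 + r * D.mu p.2‖ ≤ D.nP r p := by
  unfold Dat.nP
  have := norm_nonneg p.2
  linarith

theorem trd_le_nX (D : Dat M Z H E₁ E₂ Y C) (r : ℂ) (x : ℂ × M × Z) : ‖x.2.2‖ ≤ D.nX r x := by
  unfold Dat.nX
  have := norm_nonneg (x.1 + r * D.mu x.2.1)
  have := norm_nonneg (x.2.1 + r • D.inc (D.T x.2.2))
  linarith

theorem mle {x y A B : ℝ} (hy : 0 ≤ y) (hA : 0 ≤ A) (h1 : x ≤ A) (h2 : y ≤ B) :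
    x * y ≤ A * B := mul_le_mul h1 h2 hy hA

/-- all the fields are bounded by `A` -/
structure Bd {D : Dat M Z H E₁ E₂ Y C} (r : ℂ) (a : Alg D) (A : ℝ) : Prop where
  a1 : ‖a.a1‖ ≤ A
  a3 : ‖a.a3‖ ≤ A
  a4 : ‖a.a4‖ ≤ A
  a5 : ‖a.a5‖ ≤ A
  a6 : ‖a.a6‖ ≤ A
  a7 : ‖a.a7‖ ≤ A
  p : D.nP r a.p ≤ A
  q : D.nP r a.q ≤ A
  x : D.nX r a.x ≤ A
  h : ‖a.h‖ ≤ A
  k : ‖a.k‖ ≤ A
  t : ‖a.t‖ ≤ A
  c : ‖a.c‖ ≤ A
  g3 : ‖a.g3‖ ≤ A
  g4 : ‖a.g4‖ ≤ A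
  f : ‖a.f‖ ≤ A
  e1 : ‖a.e1‖ ≤ A
  e2 : ‖a.e2‖ ≤ A
  g6 : ‖a.g6‖ ≤ A

theorem bd {D : Dat M Z H E₁ E₂ Y C} (r : ℂ) (a : Alg D) : Bd r a (Alg.nrm r a) := by
  have h1 := norm_nonneg a.a1
  have h2 := norm_nonneg a.a3
  have h3 := norm_nonneg a.a4
  have h4 := norm_nonneg a.a5
  have h5 := norm_nonneg a.a6
  have h6 := norm_nonneg a.a7
  have h7 := nP_nonneg D r a.p
  have h8 := nP_nonneg D r a.q
  have h9 := nX_nonneg D r a.x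
  have h10 := norm_nonneg a.h
  have h11 := norm_nonneg a.k
  have h12 := norm_nonneg a.t
  have h13 := norm_nonneg a.c
  have h14 := norm_nonneg a.g3
  have h15 := norm_nonneg a.g4
  have h16 := norm_nonneg a.f
  have h17 := norm_nonneg a.e1
  have h18 := norm_nonneg a.e2
  have h19 := norm_nonneg a.g6
  constructor <;> (unfold Alg.nrm; linarith)

theorem nX_kap (D : Dat M Z H E₁ E₂ Y C) (r : ℂ) (hr : r = 0 ∨ r = 1) (p : ℂ × M) (c : ℂ × C) :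
    D.nX r (Alg.kap D p c) ≤
      (2 + ‖D.sg‖ + ‖D.inc‖ * ‖D.ub‖ + ‖D.j‖) * (D.nP r p * ‖c‖) := by
  have hc1 : ‖c.1‖ ≤ ‖c‖ := norm_fst_le c
  have hc2 : ‖c.2‖ ≤ ‖c‖ := norm_snd_le c
  have hP := nP_nonneg D r p
  have hp2 := snd_le_nP D r p
  have hp1 := fst_le_nP D r p
  have hN : 0 ≤ D.nP r p * ‖c‖ := mul_nonneg hP (norm_nonneg _)
  have e1 : (Alg.kap D p c).1 + r * D.mu (Alg.kap D p c).2.1 =
      c.1 * (p.1 + r * D.mu p.2) - (1 - r) * (D.sg c.2 * p.1) := by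
    change (c.1 * p.1 - D.sg c.2 * p.1) + r * D.mu (c.1 • p.2 + p.1 • D.inc (D.ub c.2)) = _
    rw [map_add, map_smul, map_smul, D.mu_ub, smul_eq_mul, smul_eq_mul]
    ring
  have e2 : (Alg.kap D p c).2.1 + r • D.inc (D.T (Alg.kap D p c).2.2) =
      c.1 • p.2 + (p.1 + r * D.mu p.2) • D.inc (D.ub c.2) := by
    change (c.1 • p.2 + p.1 • D.inc (D.ub c.2)) + r • D.inc (D.T (D.j p.2 c.2)) = _
    rw [D.T_j, map_smul, add_smul, mul_smul, add_assoc]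
  have b1 : ‖(Alg.kap D p c).1 + r * D.mu (Alg.kap D p c).2.1‖ ≤
      (1 + ‖D.sg‖) * (D.nP r p * ‖c‖) := by
    rw [e1]
    have h1 : ‖c.1 * (p.1 + r * D.mu p.2)‖ ≤ D.nP r p * ‖c‖ := by
      rw [norm_mul, mul_comm]
      exact mul_le_mul hp1 hc1 (norm_nonneg _) hP
    have h2 : ‖(1 - r) * (D.sg c.2 * p.1)‖ ≤ ‖D.sg‖ * (D.nP r p * ‖c‖) := by
      rcases hr with hr | hr
      · subst hr
        have h3 : ‖p.1‖ ≤ D.nP 0 p := by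
          have := fst_le_nP D 0 p
          rwa [zero_mul, add_zero] at this
        rw [sub_zero, one_mul, norm_mul]
        have h4 := D.sg.le_opNorm c.2
        calc ‖D.sg c.2‖ * ‖p.1‖ ≤ (‖D.sg‖ * ‖c.2‖) * ‖p.1‖ :=
              mul_le_mul_of_nonneg_right h4 (norm_nonneg _)
          _ = ‖D.sg‖ * (‖p.1‖ * ‖c.2‖) := by ring
          _ ≤ ‖D.sg‖ * (D.nP 0 p * ‖c‖) :=
              mul_le_mul_of_nonneg_left (mul_le_mul h3 hc2 (norm_nonneg _) hP) (norm_nonneg _)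
      · subst hr
        rw [sub_self, zero_mul, norm_zero]
        exact mul_nonneg (norm_nonneg _) hN
    have h5 := norm_sub_le (c.1 * (p.1 + r * D.mu p.2)) ((1 - r) * (D.sg c.2 * p.1))
    have h6 : (1 + ‖D.sg‖) * (D.nP r p * ‖c‖) = D.nP r p * ‖c‖ + ‖D.sg‖ * (D.nP r p * ‖c‖) := by
      ring
    linarith
  have b2 : ‖(Alg.kap D p c).2.1 + r • D.inc (D.T (Alg.kap D p c).2.2)‖ ≤
      (1 + ‖D.inc‖ * ‖D.ub‖) * (D.nP r p * ‖c‖) := by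
    rw [e2]
    have h1 : ‖c.1 • p.2‖ ≤ D.nP r p * ‖c‖ := by
      rw [norm_smul, mul_comm]
      exact mul_le_mul hp2 hc1 (norm_nonneg _) hP
    have h2 : ‖(p.1 + r * D.mu p.2) • D.inc (D.ub c.2)‖ ≤
        (‖D.inc‖ * ‖D.ub‖) * (D.nP r p * ‖c‖) := by
      rw [norm_smul]
      have h3 : ‖D.inc (D.ub c.2)‖ ≤ ‖D.inc‖ * (‖D.ub‖ * ‖c‖) :=
        (D.inc.le_opNorm _).trans (mul_le_mul_of_nonneg_left
          ((D.ub.le_opNorm _).trans (mul_le_mul_of_nonneg_left hc2 (norm_nonneg _)))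
          (norm_nonneg _))
      calc ‖p.1 + r * D.mu p.2‖ * ‖D.inc (D.ub c.2)‖
          ≤ D.nP r p * (‖D.inc‖ * (‖D.ub‖ * ‖c‖)) := mul_le_mul hp1 h3 (norm_nonneg _) hP
        _ = (‖D.inc‖ * ‖D.ub‖) * (D.nP r p * ‖c‖) := by ring
    have h5 := norm_add_le (c.1 • p.2) ((p.1 + r * D.mu p.2) • D.inc (D.ub c.2))
    have h6 : (1 + ‖D.inc‖ * ‖D.ub‖) * (D.nP r p * ‖c‖) =
        D.nP r p * ‖c‖ + (‖D.inc‖ * ‖D.ub‖) * (D.nP r p * ‖c‖) := by ring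
    linarith
  have b3 : ‖(Alg.kap D p c).2.2‖ ≤ ‖D.j‖ * (D.nP r p * ‖c‖) := by
    change ‖D.j p.2 c.2‖ ≤ _
    have h1 := D.j.le_opNorm₂ p.2 c.2
    calc ‖D.j p.2 c.2‖ ≤ ‖D.j‖ * ‖p.2‖ * ‖c.2‖ := h1
      _ = ‖D.j‖ * (‖p.2‖ * ‖c.2‖) := by ring
      _ ≤ ‖D.j‖ * (D.nP r p * ‖c‖) :=
          mul_le_mul_of_nonneg_left (mul_le_mul hp2 hc2 (norm_nonneg _) hP) (D.j.opNorm_nonneg)
  unfold Dat.nX
  have e : (2 + ‖D.sg‖ + ‖D.inc‖ * ‖D.ub‖ + ‖D.j‖) * (D.nP r p * ‖c‖) =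
      (1 + ‖D.sg‖) * (D.nP r p * ‖c‖) + (1 + ‖D.inc‖ * ‖D.ub‖) * (D.nP r p * ‖c‖) +
      ‖D.j‖ * (D.nP r p * ‖c‖) := by ring
  linarith

theorem norm_r {r : ℂ} (hr : r = 0 ∨ r = 1) : ‖r‖ ≤ 1 := by
  rcases hr with hr | hr
  · rw [hr, norm_zero]; exact zero_le_one
  · rw [hr, norm_one]

theorem nP_bM (D : Dat M Z H E₁ E₂ Y C) (r : ℂ) (hr : r = 0 ∨ r = 1) {K1 : ℝ}
    (hK : ∀ h e, ‖D.mu (D.bM h e)‖ ≤ K1 * ‖h‖ * ‖e‖) (h : H) (e : E₁) :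
    D.nP r (0, D.bM h e) ≤ (|K1| + ‖D.bM‖) * (‖h‖ * ‖e‖) := by
  unfold Dat.nP
  change ‖0 + r * D.mu (D.bM h e)‖ + ‖D.bM h e‖ ≤ _
  have h0 : 0 ≤ ‖h‖ * ‖e‖ := mul_nonneg (norm_nonneg _) (norm_nonneg _)
  have h1 : ‖(0 : ℂ) + r * D.mu (D.bM h e)‖ ≤ |K1| * (‖h‖ * ‖e‖) := by
    rw [zero_add, norm_mul]
    calc ‖r‖ * ‖D.mu (D.bM h e)‖ ≤ 1 * ‖D.mu (D.bM h e)‖ :=
          mul_le_mul_of_nonneg_right (norm_r hr) (norm_nonneg _)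
      _ = ‖D.mu (D.bM h e)‖ := one_mul _
      _ ≤ K1 * ‖h‖ * ‖e‖ := hK h e
      _ = K1 * (‖h‖ * ‖e‖) := by ring
      _ ≤ |K1| * (‖h‖ * ‖e‖) := mul_le_mul_of_nonneg_right (le_abs_self _) h0
  have h2 := D.bM.le_opNorm₂ h e
  have h3 : (|K1| + ‖D.bM‖) * (‖h‖ * ‖e‖) = |K1| * (‖h‖ * ‖e‖) + ‖D.bM‖ * ‖h‖ * ‖e‖ := by ring
  linarith

theorem nX_bZ (D : Dat M Z H E₁ E₂ Y C) (r : ℂ) (hr : r = 0 ∨ r = 1) {K2 : ℝ}
    (hK : ∀ h e, ‖D.T (D.bZ h e)‖ ≤ K2 * ‖h‖ * ‖e‖) (h : H) (e : E₂) :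
    D.nX r (0, 0, D.bZ h e) ≤ (‖D.inc‖ * |K2| + ‖D.bZ‖) * (‖h‖ * ‖e‖) := by
  unfold Dat.nX
  change ‖0 + r * D.mu 0‖ + ‖0 + r • D.inc (D.T (D.bZ h e))‖ + ‖D.bZ h e‖ ≤ _
  have h0 : 0 ≤ ‖h‖ * ‖e‖ := mul_nonneg (norm_nonneg _) (norm_nonneg _)
  have h1 : ‖(0 : M) + r • D.inc (D.T (D.bZ h e))‖ ≤ ‖D.inc‖ * |K2| * (‖h‖ * ‖e‖) := by
    rw [zero_add, norm_smul]
    calc ‖r‖ * ‖D.inc (D.T (D.bZ h e))‖ ≤ 1 * ‖D.inc (D.T (D.bZ h e))‖ :=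
          mul_le_mul_of_nonneg_right (norm_r hr) (norm_nonneg _)
      _ = ‖D.inc (D.T (D.bZ h e))‖ := one_mul _
      _ ≤ ‖D.inc‖ * ‖D.T (D.bZ h e)‖ := D.inc.le_opNorm _
      _ ≤ ‖D.inc‖ * (K2 * ‖h‖ * ‖e‖) := mul_le_mul_of_nonneg_left (hK h e) (norm_nonneg _)
      _ = ‖D.inc‖ * (K2 * (‖h‖ * ‖e‖)) := by ring
      _ ≤ ‖D.inc‖ * (|K2| * (‖h‖ * ‖e‖)) :=
          mul_le_mul_of_nonneg_left (mul_le_mul_of_nonneg_right (le_abs_self _) h0) (norm_nonneg _)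
      _ = ‖D.inc‖ * |K2| * (‖h‖ * ‖e‖) := by ring
  have h2 := D.bZ.le_opNorm₂ h e
  have h4 : ‖(0 : ℂ) + r * D.mu 0‖ = 0 := by rw [map_zero, mul_zero, add_zero, norm_zero]
  have h3 : (‖D.inc‖ * |K2| + ‖D.bZ‖) * (‖h‖ * ‖e‖) =
      ‖D.inc‖ * |K2| * (‖h‖ * ‖e‖) + ‖D.bZ‖ * ‖h‖ * ‖e‖ := by ring
  linarith

theorem prod_bound (D : Dat M Z H E₁ E₂ Y C) (r : ℂ) (hr : r = 0 ∨ r = 1) :
    ∃ K : ℝ, 0 < K ∧ ∀ a b : Alg D, Alg.nrm r (a * b) ≤ K * (Alg.nrm r a * Alg.nrm r b) := by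
  obtain ⟨K1, hK1⟩ := D.mu_bM
  obtain ⟨K2, hK2⟩ := D.T_bZ
  refine ⟨6 + 2 + (3 + (|K1| + ‖D.bM‖)) + (2 + (2 + ‖D.sg‖ + ‖D.inc‖ * ‖D.ub‖ + ‖D.j‖) +
    (‖D.inc‖ * |K2| + ‖D.bZ‖)) + 2 + 6 + 2 + 2 + (3 + ‖D.j‖) + 2 + 2 + 2 + 2 +
    (2 + ‖D.bM‖ + ‖D.bZ‖), ?_, ?_⟩
  · positivity
  intro a b
  have ha := bd r a
  have hb := bd r b
  set A := Alg.nrm r a with hA
  set B := Alg.nrm r b with hB
  have hA0 : 0 ≤ A := (norm_nonneg _).trans ha.a1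
  have hB0 : 0 ≤ B := (norm_nonneg _).trans hb.a1
  -- scalar fields
  have f1 : ‖(a * b).a1‖ ≤ A * B := by
    rw [Alg.mul_a1, norm_mul]; exact mle (norm_nonneg _) hA0 ha.a1 hb.a1
  have f2 : ‖(a * b).a3‖ ≤ A * B := by
    rw [Alg.mul_a3, norm_mul]; exact mle (norm_nonneg _) hA0 ha.a3 hb.a3
  have f3 : ‖(a * b).a4‖ ≤ A * B := by
    rw [Alg.mul_a4, norm_mul]; exact mle (norm_nonneg _) hA0 ha.a4 hb.a4
  have f4 : ‖(a * b).a5‖ ≤ A * B := by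
    rw [Alg.mul_a5, norm_mul]; exact mle (norm_nonneg _) hA0 ha.a5 hb.a5
  have f5 : ‖(a * b).a6‖ ≤ A * B := by
    rw [Alg.mul_a6, norm_mul]; exact mle (norm_nonneg _) hA0 ha.a6 hb.a6
  have f6 : ‖(a * b).a7‖ ≤ A * B := by
    rw [Alg.mul_a7, norm_mul]; exact mle (norm_nonneg _) hA0 ha.a7 hb.a7
  -- p
  have s1 : ∀ {V : Type} [NormedAddCommGroup V] [NormedSpace ℂ V] (c : ℂ) (v : V), ‖c‖ ≤ A →
      ‖v‖ ≤ B → ‖c • v‖ ≤ A * B := by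
    intro V _ _ c v h1 h2
    rw [norm_smul]
    exact mle (norm_nonneg _) hA0 h1 h2
  have s2 : ∀ {V : Type} [NormedAddCommGroup V] [NormedSpace ℂ V] (c : ℂ) (v : V), ‖c‖ ≤ B →
      ‖v‖ ≤ A → ‖c • v‖ ≤ A * B := by
    intro V _ _ c v h1 h2
    rw [norm_smul, mul_comm]
    exact mle (norm_nonneg _) hA0 h2 h1
  have s3 : ∀ (c : ℂ) (p : ℂ × M), ‖c‖ ≤ A → D.nP r p ≤ B → D.nP r (c • p) ≤ A * B := by
    intro c p h1 h2
    rw [nP_smul]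
    exact mle (nP_nonneg _ _ _) hA0 h1 h2
  have s4 : ∀ (c : ℂ) (p : ℂ × M), ‖c‖ ≤ B → D.nP r p ≤ A → D.nP r (c • p) ≤ A * B := by
    intro c p h1 h2
    rw [nP_smul, mul_comm]
    exact mle (norm_nonneg _) hA0 h2 h1
  have s5 : ∀ (c : ℂ) (p : ℂ × M × Z), ‖c‖ ≤ A → D.nX r p ≤ B → D.nX r (c • p) ≤ A * B := by
    intro c p h1 h2
    rw [nX_smul]
    exact mle (nX_nonneg _ _ _) hA0 h1 h2
  have s6 : ∀ (c : ℂ) (p : ℂ × M × Z), ‖c‖ ≤ B → D.nX r p ≤ A → D.nX r (c • p) ≤ A * B := by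
    intro c p h1 h2
    rw [nX_smul, mul_comm]
    exact mle (norm_nonneg _) hA0 h2 h1
  have f7 : D.nP r (a * b).p ≤ 2 * (A * B) := by
    rw [Alg.mul_p]
    have h1 := nP_add D r (a.a1 • b.p) (b.a3 • a.p)
    have h2 := s3 a.a1 b.p ha.a1 hb.p
    have h3 := s4 b.a3 a.p hb.a3 ha.p
    linarith
  have f8 : D.nP r (a * b).q ≤ (3 + (|K1| + ‖D.bM‖)) * (A * B) := by
    rw [Alg.mul_q]
    have h1 := nP_add D r (a.a1 • b.q + b.a4 • a.q + b.t • a.p) (0, D.bM a.h b.e1)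
    have h2 := nP_add D r (a.a1 • b.q + b.a4 • a.q) (b.t • a.p)
    have h3 := nP_add D r (a.a1 • b.q) (b.a4 • a.q)
    have h4 := s3 a.a1 b.q ha.a1 hb.q
    have h5 := s4 b.a4 a.q hb.a4 ha.q
    have h6 := s4 b.t a.p hb.t ha.p
    have h7 := nP_bM D r hr hK1 a.h b.e1
    have h8 : (|K1| + ‖D.bM‖) * (‖a.h‖ * ‖b.e1‖) ≤ (|K1| + ‖D.bM‖) * (A * B) :=
      mul_le_mul_of_nonneg_left (mle (norm_nonneg _) hA0 ha.h hb.e1)
        (add_nonneg (abs_nonneg _) (D.bM.opNorm_nonneg))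
    have h9 : (3 + (|K1| + ‖D.bM‖)) * (A * B) = 3 * (A * B) + (|K1| + ‖D.bM‖) * (A * B) := by ring
    linarith
  have f9 : D.nX r (a * b).x ≤ (2 + (2 + ‖D.sg‖ + ‖D.inc‖ * ‖D.ub‖ + ‖D.j‖) +
      (‖D.inc‖ * |K2| + ‖D.bZ‖)) * (A * B) := by
    rw [Alg.mul_x]
    have h1 := nX_add D r (a.a1 • b.x + b.a5 • a.x + Alg.kap D a.p b.c) (0, 0, D.bZ a.h b.e2)
    have h2 := nX_add D r (a.a1 • b.x + b.a5 • a.x) (Alg.kap D a.p b.c)
    have h3 := nX_add D r (a.a1 • b.x) (b.a5 • a.x)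
    have h4 := s5 a.a1 b.x ha.a1 hb.x
    have h5 := s6 b.a5 a.x hb.a5 ha.x
    have h6 := nX_kap D r hr a.p b.c
    have h7 : (2 + ‖D.sg‖ + ‖D.inc‖ * ‖D.ub‖ + ‖D.j‖) * (D.nP r a.p * ‖b.c‖) ≤
        (2 + ‖D.sg‖ + ‖D.inc‖ * ‖D.ub‖ + ‖D.j‖) * (A * B) :=
      mul_le_mul_of_nonneg_left (mle (norm_nonneg _) hA0 ha.p hb.c) (by positivity)
    have h8 := nX_bZ D r hr hK2 a.h b.e2
    have h9 : (‖D.inc‖ * |K2| + ‖D.bZ‖) * (‖a.h‖ * ‖b.e2‖) ≤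
        (‖D.inc‖ * |K2| + ‖D.bZ‖) * (A * B) :=
      mul_le_mul_of_nonneg_left (mle (norm_nonneg _) hA0 ha.h hb.e2) (by positivity)
    have h10 : (2 + (2 + ‖D.sg‖ + ‖D.inc‖ * ‖D.ub‖ + ‖D.j‖) +
        (‖D.inc‖ * |K2| + ‖D.bZ‖)) * (A * B) = 2 * (A * B) +
        (2 + ‖D.sg‖ + ‖D.inc‖ * ‖D.ub‖ + ‖D.j‖) * (A * B) +
        (‖D.inc‖ * |K2| + ‖D.bZ‖) * (A * B) := by ring
    linarith
  have f10 : ‖(a * b).h‖ ≤ 2 * (A * B) := by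
    rw [Alg.mul_h]
    have h1 := norm_add_le (a.a1 • b.h) (b.a6 • a.h)
    have h2 := s1 a.a1 b.h ha.a1 hb.h
    have h3 := s2 b.a6 a.h hb.a6 ha.h
    linarith
  have f11 : ‖(a * b).k‖ ≤ 6 * (A * B) := by
    rw [Alg.mul_k]
    have h1 : ‖a.a1 * b.k‖ ≤ A * B := by
      rw [norm_mul]; exact mle (norm_nonneg _) hA0 ha.a1 hb.k
    have h2 : ‖a.k * b.a7‖ ≤ A * B := by
      rw [norm_mul]; exact mle (norm_nonneg _) hA0 ha.k hb.a7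
    have h3 : ‖b.g3 a.p.2‖ ≤ A * B := by
      refine (b.g3.le_opNorm _).trans ?_
      rw [mul_comm]
      exact mle (norm_nonneg _) hA0 ((snd_le_nP D r a.p).trans ha.p) hb.g3
    have h4 : ‖b.g4 a.q.2‖ ≤ A * B := by
      refine (b.g4.le_opNorm _).trans ?_
      rw [mul_comm]
      exact mle (norm_nonneg _) hA0 ((snd_le_nP D r a.q).trans ha.q) hb.g4
    have h5 : ‖b.f a.x.2.2‖ ≤ A * B := by
      refine (b.f.le_opNorm _).trans ?_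
      rw [mul_comm]
      exact mle (norm_nonneg _) hA0 ((trd_le_nX D r a.x).trans ha.x) hb.f
    have h6 : ‖b.g6 a.h‖ ≤ A * B := by
      refine (b.g6.le_opNorm _).trans ?_
      rw [mul_comm]
      exact mle (norm_nonneg _) hA0 ha.h hb.g6
    have h7 := norm_add_le (a.a1 * b.k + a.k * b.a7 + b.g3 a.p.2 + b.g4 a.q.2 + b.f a.x.2.2)
      (b.g6 a.h)
    have h8 := norm_add_le (a.a1 * b.k + a.k * b.a7 + b.g3 a.p.2 + b.g4 a.q.2) (b.f a.x.2.2)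
    have h9 := norm_add_le (a.a1 * b.k + a.k * b.a7 + b.g3 a.p.2) (b.g4 a.q.2)
    have h10 := norm_add_le (a.a1 * b.k + a.k * b.a7) (b.g3 a.p.2)
    have h11 := norm_add_le (a.a1 * b.k) (a.k * b.a7)
    linarith
  have f12 : ‖(a * b).t‖ ≤ 2 * (A * B) := by
    rw [Alg.mul_t]
    have h1 : ‖a.a3 * b.t‖ ≤ A * B := by
      rw [norm_mul]; exact mle (norm_nonneg _) hA0 ha.a3 hb.t
    have h2 : ‖a.t * b.a4‖ ≤ A * B := by
      rw [norm_mul]; exact mle (norm_nonneg _) hA0 ha.t hb.a4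
    have h3 := norm_add_le (a.a3 * b.t) (a.t * b.a4)
    linarith
  have f13 : ‖(a * b).c‖ ≤ 2 * (A * B) := by
    rw [Alg.mul_c]
    have h1 := norm_add_le (a.a3 • b.c) (b.a5 • a.c)
    have h2 := s1 a.a3 b.c ha.a3 hb.c
    have h3 := s2 b.a5 a.c hb.a5 ha.c
    linarith
  have f14 : ‖(a * b).g3‖ ≤ (3 + ‖D.j‖) * (A * B) := by
    rw [Alg.mul_g3]
    have h1 := norm_add_le (a.a3 • b.g3 + b.a7 • a.g3 + a.t • b.g4) (b.f.comp (D.j.flip a.c.2))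
    have h2 := norm_add_le (a.a3 • b.g3 + b.a7 • a.g3) (a.t • b.g4)
    have h3 := norm_add_le (a.a3 • b.g3) (b.a7 • a.g3)
    have h4 := s1 a.a3 b.g3 ha.a3 hb.g3
    have h5 := s2 b.a7 a.g3 hb.a7 ha.g3
    have h6 := s1 a.t b.g4 ha.t hb.g4
    have h7 : ‖b.f.comp (D.j.flip a.c.2)‖ ≤ ‖D.j‖ * (A * B) := by
      have g1 : ‖D.j.flip a.c.2‖ ≤ ‖D.j‖ * A := by
        refine (D.j.flip.le_opNorm _).trans ?_
        rw [ContinuousLinearMap.opNorm_flip]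
        exact mul_le_mul_of_nonneg_left ((norm_snd_le _).trans ha.c) (D.j.opNorm_nonneg)
      calc ‖b.f.comp (D.j.flip a.c.2)‖ ≤ ‖b.f‖ * ‖D.j.flip a.c.2‖ :=
            ContinuousLinearMap.opNorm_comp_le _ _
        _ ≤ B * (‖D.j‖ * A) := mle (norm_nonneg _) hB0 hb.f g1
        _ = ‖D.j‖ * (A * B) := by ring
    have h8 : (3 + ‖D.j‖) * (A * B) = 3 * (A * B) + ‖D.j‖ * (A * B) := by ring
    linarith
  have f15 : ‖(a * b).g4‖ ≤ 2 * (A * B) := by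
    rw [Alg.mul_g4]
    have h1 := norm_add_le (a.a4 • b.g4) (b.a7 • a.g4)
    have h2 := s1 a.a4 b.g4 ha.a4 hb.g4
    have h3 := s2 b.a7 a.g4 hb.a7 ha.g4
    linarith
  have f16 : ‖(a * b).f‖ ≤ 2 * (A * B) := by
    rw [Alg.mul_f]
    have h1 := norm_add_le (a.a5 • b.f) (b.a7 • a.f)
    have h2 := s1 a.a5 b.f ha.a5 hb.f
    have h3 := s2 b.a7 a.f hb.a7 ha.f
    linarith
  have f17 : ‖(a * b).e1‖ ≤ 2 * (A * B) := by
    rw [Alg.mul_e1]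
    have h1 := norm_add_le (a.a6 • b.e1) (b.a4 • a.e1)
    have h2 := s1 a.a6 b.e1 ha.a6 hb.e1
    have h3 := s2 b.a4 a.e1 hb.a4 ha.e1
    linarith
  have f18 : ‖(a * b).e2‖ ≤ 2 * (A * B) := by
    rw [Alg.mul_e2]
    have h1 := norm_add_le (a.a6 • b.e2) (b.a5 • a.e2)
    have h2 := s1 a.a6 b.e2 ha.a6 hb.e2
    have h3 := s2 b.a5 a.e2 hb.a5 ha.e2
    linarith
  have f19 : ‖(a * b).g6‖ ≤ (2 + ‖D.bM‖ + ‖D.bZ‖) * (A * B) := by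
    rw [Alg.mul_g6]
    have h1 := norm_add_le (a.a6 • b.g6 + b.a7 • a.g6 + b.g4.comp (D.bM.flip a.e1))
      (b.f.comp (D.bZ.flip a.e2))
    have h2 := norm_add_le (a.a6 • b.g6 + b.a7 • a.g6) (b.g4.comp (D.bM.flip a.e1))
    have h3 := norm_add_le (a.a6 • b.g6) (b.a7 • a.g6)
    have h4 := s1 a.a6 b.g6 ha.a6 hb.g6
    have h5 := s2 b.a7 a.g6 hb.a7 ha.g6
    have h6 : ‖b.g4.comp (D.bM.flip a.e1)‖ ≤ ‖D.bM‖ * (A * B) := by
      have g1 : ‖D.bM.flip a.e1‖ ≤ ‖D.bM‖ * A := by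
        refine (D.bM.flip.le_opNorm _).trans ?_
        rw [ContinuousLinearMap.opNorm_flip]
        exact mul_le_mul_of_nonneg_left ha.e1 (D.bM.opNorm_nonneg)
      calc ‖b.g4.comp (D.bM.flip a.e1)‖ ≤ ‖b.g4‖ * ‖D.bM.flip a.e1‖ :=
            ContinuousLinearMap.opNorm_comp_le _ _
        _ ≤ B * (‖D.bM‖ * A) := mle (norm_nonneg _) hB0 hb.g4 g1
        _ = ‖D.bM‖ * (A * B) := by ring
    have h7 : ‖b.f.comp (D.bZ.flip a.e2)‖ ≤ ‖D.bZ‖ * (A * B) := by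
      have g1 : ‖D.bZ.flip a.e2‖ ≤ ‖D.bZ‖ * A := by
        refine (D.bZ.flip.le_opNorm _).trans ?_
        rw [ContinuousLinearMap.opNorm_flip]
        exact mul_le_mul_of_nonneg_left ha.e2 (D.bZ.opNorm_nonneg)
      calc ‖b.f.comp (D.bZ.flip a.e2)‖ ≤ ‖b.f‖ * ‖D.bZ.flip a.e2‖ :=
            ContinuousLinearMap.opNorm_comp_le _ _
        _ ≤ B * (‖D.bZ‖ * A) := mle (norm_nonneg _) hB0 hb.f g1
        _ = ‖D.bZ‖ * (A * B) := by ring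
    have h8 : (2 + ‖D.bM‖ + ‖D.bZ‖) * (A * B) =
        2 * (A * B) + ‖D.bM‖ * (A * B) + ‖D.bZ‖ * (A * B) := by ring
    linarith
  have hsum : (6 + 2 + (3 + (|K1| + ‖D.bM‖)) + (2 + (2 + ‖D.sg‖ + ‖D.inc‖ * ‖D.ub‖ + ‖D.j‖) +
    (‖D.inc‖ * |K2| + ‖D.bZ‖)) + 2 + 6 + 2 + 2 + (3 + ‖D.j‖) + 2 + 2 + 2 + 2 +
    (2 + ‖D.bM‖ + ‖D.bZ‖)) * (A * B) = 6 * (A * B) + 2 * (A * B) +
    (3 + (|K1| + ‖D.bM‖)) * (A * B) + (2 + (2 + ‖D.sg‖ + ‖D.inc‖ * ‖D.ub‖ + ‖D.j‖) +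
    (‖D.inc‖ * |K2| + ‖D.bZ‖)) * (A * B) + 2 * (A * B) + 6 * (A * B) + 2 * (A * B) + 2 * (A * B) +
    (3 + ‖D.j‖) * (A * B) + 2 * (A * B) + 2 * (A * B) + 2 * (A * B) + 2 * (A * B) +
    (2 + ‖D.bM‖ + ‖D.bZ‖) * (A * B) := by ring
  rw [hsum]
  unfold Alg.nrm
  linarith

/-! ### the two norms are not equivalent -/

/-- the element with only the field `p` -/
noncomputable def injp (D : Dat M Z H E₁ E₂ Y C) (p : ℂ × M) : Alg D :=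
  ⟨0, 0, 0, 0, 0, 0, p, 0, 0, 0, 0, 0, 0, 0, 0, 0, 0, 0, 0⟩

theorem nrm_injp (D : Dat M Z H E₁ E₂ Y C) (r : ℂ) (p : ℂ × M) :
    Alg.nrm r (injp D p) = D.nP r p := by
  have h1 : D.nP r 0 = 0 := by
    have := nP_smul D r 0 0
    rwa [zero_smul, norm_zero, zero_mul] at this
  have h2 : D.nX r 0 = 0 := by
    have := nX_smul D r 0 0
    rwa [zero_smul, norm_zero, zero_mul] at this
  unfold Alg.nrm injp
  simp only [norm_zero, h1, h2]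
  ring

theorem not_equiv (D : Dat M Z H E₁ E₂ Y C) :
    ¬ NormEquiv (Alg.nrm (D := D) 0) (Alg.nrm (D := D) 1) := by
  rintro ⟨c, K, hc, hK, h⟩
  have h1 : ∀ k, 1 ≤ K * ‖D.inc (D.ub (D.cs k))‖ := by
    intro k
    have h2 := (h (injp D (0, D.inc (D.ub (D.cs k))))).2
    rw [nrm_injp, nrm_injp] at h2
    have h3 : D.nP 0 (0, D.inc (D.ub (D.cs k))) = ‖D.inc (D.ub (D.cs k))‖ := by
      unfold Dat.nP
      change ‖(0 : ℂ) + 0 * D.mu (D.inc (D.ub (D.cs k)))‖ + ‖D.inc (D.ub (D.cs k))‖ = _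
      rw [zero_mul, add_zero, norm_zero, zero_add]
    have h4 := fst_le_nP D 1 (0, D.inc (D.ub (D.cs k)))
    change ‖(0 : ℂ) + 1 * D.mu (D.inc (D.ub (D.cs k)))‖ ≤ _ at h4
    rw [D.mu_ub, D.sg_cs, mul_one, zero_add, norm_one] at h4
    rw [h3] at h2
    exact h4.trans h2
  have h2 : Tendsto (fun k => K * ‖D.inc (D.ub (D.cs k))‖) atTop (𝓝 (K * ‖D.inc 0‖)) := by
    refine Tendsto.const_mul K ?_
    exact (((D.inc.continuous.tendsto 0).comp D.ub_cs)).norm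
  rw [map_zero, norm_zero, mul_zero] at h2
  have h3 : (1 : ℝ) ≤ 0 := ge_of_tendsto' h2 h1
  linarith

end NRM

theorem s_nrm : S_nrm := by
  intro M Z H E₁ E₂ Y C _ _ _ _ _ _ _ _ _ _ _ _ _ _ _ _ _ _ _ _ _ D
  exact ⟨fun r hr => ⟨NRM.bnorm_nrm D r, NRM.prod_bound D r hr⟩, NRM.not_equiv D⟩

end Pool.Agent.R233.NA
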