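import Pool.Agent.R233.NA.AlgDefs

/-!
# NA-2a: the ring and algebra structures
-/

namespace Pool.Agent.R233.NA

namespace Alg

variable {M Z H E₁ E₂ Y C : Type}
    [NormedAddCommGroup M] [NormedSpace ℂ M]
    [NormedAddCommGroup Z] [NormedSpace ℂ Z]
    [NormedAddCommGroup H] [NormedSpace ℂ H]
    [NormedAddCommGroup E₁] [NormedSpace ℂ E₁]
    [NormedAddCommGroup E₂] [NormedSpace ℂ E₂]
    [NormedAddCommGroup Y] [NormedSpace ℂ Y]
    [NormedAddCommGroup C] [NormedSpace ℂ C]

variable {D : Dat M Z H E₁ E₂ Y C}

lemma kap_add_left (p p' : ℂ × M) (c : ℂ × C) : kap D (p + p') c = kap D p c + kap D p' c := by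
  refine Prod.ext ?_ (Prod.ext ?_ ?_)
  · simp only [kap, Prod.fst_add]; ring
  · simp only [kap, Prod.fst_add, Prod.snd_add, smul_add, add_smul]; abel
  · simp only [kap, Prod.snd_add, map_add]; rfl

lemma kap_add_right (p : ℂ × M) (c c' : ℂ × C) : kap D p (c + c') = kap D p c + kap D p c' := by
  refine Prod.ext ?_ (Prod.ext ?_ ?_)
  · simp only [kap, Prod.fst_add, Prod.snd_add, map_add]; ring
  · simp only [kap, Prod.fst_add, Prod.snd_add, smul_add, add_smul, map_add]; abel
  · simp only [kap, Prod.snd_add, map_add]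

lemma kap_smul_left (r : ℂ) (p : ℂ × M) (c : ℂ × C) : kap D (r • p) c = r • kap D p c := by
  refine Prod.ext ?_ (Prod.ext ?_ ?_)
  · simp only [kap, Prod.smul_fst, Prod.smul_snd, smul_eq_mul]; ring
  · simp only [kap, Prod.smul_fst, Prod.smul_snd, smul_eq_mul]; module
  · simp only [kap, Prod.smul_snd, map_smul]; rfl

lemma kap_smul_right (r : ℂ) (p : ℂ × M) (c : ℂ × C) : kap D p (r • c) = r • kap D p c := by
  refine Prod.ext ?_ (Prod.ext ?_ ?_)
  · simp only [kap, Prod.smul_fst, Prod.smul_snd, smul_eq_mul, map_smul]; ring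
  · simp only [kap, Prod.smul_fst, Prod.smul_snd, smul_eq_mul, map_smul]; module
  · simp only [kap, Prod.smul_snd, map_smul]

lemma kap_zero_left (c : ℂ × C) : kap D 0 c = 0 := by
  have := kap_smul_left (D := D) 0 0 c
  rwa [zero_smul, zero_smul] at this

lemma kap_zero_right (p : ℂ × M) : kap D p 0 = 0 := by
  have := kap_smul_right (D := D) 0 p 0
  rwa [zero_smul, zero_smul] at this

lemma kap_snd_snd (p : ℂ × M) (c : ℂ × C) : (kap D p c).2.2 = D.j p.2 c.2 := rfl

/-- the product `H × E₁ → Q` -/
noncomputable def b1 (D : Dat M Z H E₁ E₂ Y C) (h : H) (e : E₁) : ℂ × M := (0, D.bM h e)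

/-- the product `H × E₂ → X` -/
noncomputable def b2 (D : Dat M Z H E₁ E₂ Y C) (h : H) (e : E₂) : ℂ × M × Z := (0, 0, D.bZ h e)

lemma b1_add_left (h h' : H) (e : E₁) : b1 D (h + h') e = b1 D h e + b1 D h' e := by
  simp [b1]

lemma b1_add_right (h : H) (e e' : E₁) : b1 D h (e + e') = b1 D h e + b1 D h e' := by
  simp [b1]

lemma b1_smul_left (r : ℂ) (h : H) (e : E₁) : b1 D (r • h) e = r • b1 D h e := by
  simp [b1]

lemma b1_smul_right (r : ℂ) (h : H) (e : E₁) : b1 D h (r • e) = r • b1 D h e := by
  simp [b1]

lemma b2_add_left (h h' : H) (e : E₂) : b2 D (h + h') e = b2 D h e + b2 D h' e := by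
  simp [b2]

lemma b2_add_right (h : H) (e e' : E₂) : b2 D h (e + e') = b2 D h e + b2 D h e' := by
  simp [b2]

lemma b2_smul_left (r : ℂ) (h : H) (e : E₂) : b2 D (r • h) e = r • b2 D h e := by
  simp [b2]

lemma b2_smul_right (r : ℂ) (h : H) (e : E₂) : b2 D h (r • e) = r • b2 D h e := by
  simp [b2]

lemma b1_zero_left (e : E₁) : b1 D 0 e = 0 := by simp [b1]
lemma b1_zero_right (h : H) : b1 D h 0 = 0 := by simp [b1]
lemma b2_zero_left (e : E₂) : b2 D 0 e = 0 := by simp [b2]
lemma b2_zero_right (h : H) : b2 D h 0 = 0 := by simp [b2]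

lemma mul_q' (a b : Alg D) : (a * b).q = a.a1 • b.q + b.a4 • a.q + b.t • a.p + b1 D a.h b.e1 := rfl
lemma mul_x' (a b : Alg D) :
    (a * b).x = a.a1 • b.x + b.a5 • a.x + kap D a.p b.c + b2 D a.h b.e2 := rfl

lemma A_mul_assoc (a b c : Alg D) : a * b * c = a * (b * c) := by
  ext1
  · simp only [mul_a1]; ring
  · simp only [mul_a3]; ring
  · simp only [mul_a4]; ring
  · simp only [mul_a5]; ring
  · simp only [mul_a6]; ring
  · simp only [mul_a7]; ring
  · simp only [mul_p, mul_a1, mul_a3]; module
  · simp only [mul_q', mul_a1, mul_a4, mul_t, mul_p, mul_h, mul_e1, b1_add_left, b1_add_right,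
      b1_smul_left, b1_smul_right]
    module
  · simp only [mul_x', mul_a1, mul_a5, mul_c, mul_p, mul_h, mul_e2, b2_add_left, b2_add_right,
      b2_smul_left, b2_smul_right, kap_add_left, kap_add_right, kap_smul_left, kap_smul_right]
    module
  · simp only [mul_h, mul_a1, mul_a6]; module
  · simp only [mul_k, mul_a1, mul_a7, mul_g3, mul_g4, mul_f, mul_g6, mul_p, mul_q', mul_x', mul_h,
      Prod.snd_add, Prod.smul_snd, _root_.add_apply, _root_.smul_apply,
      ContinuousLinearMap.comp_apply, ContinuousLinearMap.flip_apply, map_add, map_smul,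
      smul_eq_mul, kap_snd_snd, b1, b2]
    ring
  · simp only [mul_t, mul_a3, mul_a4]; ring
  · simp only [mul_c, mul_a3, mul_a5]; module
  · ext v
    simp only [mul_g3, mul_g4, mul_f, mul_a3, mul_a7, mul_t, mul_c, Prod.snd_add, Prod.smul_snd,
      _root_.add_apply, _root_.smul_apply,
      ContinuousLinearMap.comp_apply, ContinuousLinearMap.flip_apply, map_add, map_smul,
      smul_eq_mul]
    ring
  · simp only [mul_g4, mul_a4, mul_a7]; module
  · simp only [mul_f, mul_a5, mul_a7]; module
  · simp only [mul_e1, mul_a6, mul_a4]; module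
  · simp only [mul_e2, mul_a6, mul_a5]; module
  · ext v
    simp only [mul_g6, mul_g4, mul_f, mul_a6, mul_a7, mul_e1, mul_e2,
      _root_.add_apply, _root_.smul_apply,
      ContinuousLinearMap.comp_apply, ContinuousLinearMap.flip_apply, map_add, map_smul,
      smul_eq_mul]
    ring


lemma A_one_mul (a : Alg D) : 1 * a = a := by
  ext1
  · simp only [mul_a1, one_a1, one_mul]
  · simp only [mul_a3, one_a3, one_mul]
  · simp only [mul_a4, one_a4, one_mul]
  · simp only [mul_a5, one_a5, one_mul]
  · simp only [mul_a6, one_a6, one_mul]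
  · simp only [mul_a7, one_a7, one_mul]
  · simp only [mul_p, one_a1, one_p, one_smul, smul_zero, add_zero]
  · simp only [mul_q', one_a1, one_q, one_p, one_h, one_smul, smul_zero, add_zero, b1_zero_left]
  · simp only [mul_x', one_a1, one_x, one_p, one_h, one_smul, smul_zero, add_zero, b2_zero_left,
      kap_zero_left]
  · simp only [mul_h, one_a1, one_h, one_smul, smul_zero, add_zero]
  · simp only [mul_k, one_a1, one_k, one_p, one_q, one_x, one_h, one_mul, zero_mul, add_zero,
      Prod.snd_zero, map_zero]
  · simp only [mul_t, one_a3, one_t, one_mul, zero_mul, add_zero]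
  · simp only [mul_c, one_a3, one_c, one_smul, smul_zero, add_zero]
  · simp only [mul_g3, one_a3, one_g3, one_t, one_c, Prod.snd_zero, map_zero,
      ContinuousLinearMap.comp_zero]
    module
  · simp only [mul_g4, one_a4, one_g4]; module
  · simp only [mul_f, one_a5, one_f]; module
  · simp only [mul_e1, one_a6, one_e1, one_smul, smul_zero, add_zero]
  · simp only [mul_e2, one_a6, one_e2, one_smul, smul_zero, add_zero]
  · simp only [mul_g6, one_a6, one_g6, one_e1, one_e2, map_zero, ContinuousLinearMap.comp_zero]
    module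

lemma A_mul_one (a : Alg D) : a * 1 = a := by
  ext1
  · simp only [mul_a1, one_a1, mul_one]
  · simp only [mul_a3, one_a3, mul_one]
  · simp only [mul_a4, one_a4, mul_one]
  · simp only [mul_a5, one_a5, mul_one]
  · simp only [mul_a6, one_a6, mul_one]
  · simp only [mul_a7, one_a7, mul_one]
  · simp only [mul_p, one_a3, one_p, one_smul, smul_zero, zero_add]
  · simp only [mul_q', one_a4, one_q, one_t, one_e1, one_smul, zero_smul, smul_zero, add_zero,
      zero_add, b1_zero_right]
  · simp only [mul_x', one_a5, one_x, one_c, one_e2, one_smul, smul_zero, add_zero, zero_add,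
      b2_zero_right, kap_zero_right]
  · simp only [mul_h, one_a6, one_h, one_smul, smul_zero, zero_add]
  · simp only [mul_k, one_a7, one_k, one_g3, one_g4, one_f, one_g6, mul_one, mul_zero, zero_add,
      add_zero, _root_.zero_apply]
  · simp only [mul_t, one_a4, one_t, mul_one, mul_zero, zero_add]
  · simp only [mul_c, one_a5, one_c, one_smul, smul_zero, zero_add]
  · simp only [mul_g3, one_a7, one_g3, one_g4, one_f, ContinuousLinearMap.zero_comp]; module
  · simp only [mul_g4, one_a7, one_g4]; module
  · simp only [mul_f, one_a7, one_f]; module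
  · simp only [mul_e1, one_a4, one_e1, one_smul, smul_zero, zero_add]
  · simp only [mul_e2, one_a5, one_e2, one_smul, smul_zero, zero_add]
  · simp only [mul_g6, one_a7, one_g6, one_g4, one_f, ContinuousLinearMap.zero_comp]; module

lemma A_left_distrib (a b c : Alg D) : a * (b + c) = a * b + a * c := by
  ext1
  · simp only [mul_a1, add_a1]; ring
  · simp only [mul_a3, add_a3]; ring
  · simp only [mul_a4, add_a4]; ring
  · simp only [mul_a5, add_a5]; ring
  · simp only [mul_a6, add_a6]; ring
  · simp only [mul_a7, add_a7]; ring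
  · simp only [mul_p, add_p, add_a3]; module
  · simp only [mul_q', add_q, add_a4, add_t, add_e1, b1_add_right]; module
  · simp only [mul_x', add_x, add_a5, add_c, add_e2, b2_add_right, kap_add_right]; module
  · simp only [mul_h, add_h, add_a6]; module
  · simp only [mul_k, add_k, add_a7, add_g3, add_g4, add_f, add_g6, _root_.add_apply]; ring
  · simp only [mul_t, add_t, add_a4]; ring
  · simp only [mul_c, add_c, add_a5]; module
  · simp only [mul_g3, add_g3, add_a7, add_g4, add_f, ContinuousLinearMap.add_comp]; module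
  · simp only [mul_g4, add_g4, add_a7]; module
  · simp only [mul_f, add_f, add_a7]; module
  · simp only [mul_e1, add_e1, add_a4]; module
  · simp only [mul_e2, add_e2, add_a5]; module
  · simp only [mul_g6, add_g6, add_a7, add_g4, add_f, ContinuousLinearMap.add_comp]; module

lemma A_right_distrib (a b c : Alg D) : (a + b) * c = a * c + b * c := by
  ext1
  · simp only [mul_a1, add_a1]; ring
  · simp only [mul_a3, add_a3]; ring
  · simp only [mul_a4, add_a4]; ring
  · simp only [mul_a5, add_a5]; ring
  · simp only [mul_a6, add_a6]; ring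
  · simp only [mul_a7, add_a7]; ring
  · simp only [mul_p, add_p, add_a1]; module
  · simp only [mul_q', add_q, add_a1, add_p, add_h, b1_add_left]; module
  · simp only [mul_x', add_x, add_a1, add_p, add_h, b2_add_left, kap_add_left]; module
  · simp only [mul_h, add_h, add_a1]; module
  · simp only [mul_k, add_k, add_a1, add_p, add_q, add_x, add_h, Prod.snd_add, map_add]; ring
  · simp only [mul_t, add_t, add_a3]; ring
  · simp only [mul_c, add_c, add_a3]; module
  · simp only [mul_g3, add_g3, add_a3, add_t, add_c, Prod.snd_add, map_add,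
      ContinuousLinearMap.comp_add]; module
  · simp only [mul_g4, add_g4, add_a4]; module
  · simp only [mul_f, add_f, add_a5]; module
  · simp only [mul_e1, add_e1, add_a6]; module
  · simp only [mul_e2, add_e2, add_a6]; module
  · simp only [mul_g6, add_g6, add_a6, add_e1, add_e2, map_add, ContinuousLinearMap.comp_add]
    module

lemma A_smul_mul (r : ℂ) (a b : Alg D) : (r • a) * b = r • (a * b) := by
  ext1
  · simp only [mul_a1, smul_a1]; ring
  · simp only [mul_a3, smul_a3]; ring
  · simp only [mul_a4, smul_a4]; ring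
  · simp only [mul_a5, smul_a5]; ring
  · simp only [mul_a6, smul_a6]; ring
  · simp only [mul_a7, smul_a7]; ring
  · simp only [mul_p, smul_p, smul_a1]; module
  · simp only [mul_q', smul_q, smul_a1, smul_p, smul_h, b1_smul_left]; module
  · simp only [mul_x', smul_x, smul_a1, smul_p, smul_h, b2_smul_left, kap_smul_left]; module
  · simp only [mul_h, smul_h, smul_a1]; module
  · simp only [mul_k, smul_k, smul_a1, smul_p, smul_q, smul_x, smul_h, Prod.smul_snd, map_smul,
      smul_eq_mul]; ring
  · simp only [mul_t, smul_t, smul_a3]; ring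
  · simp only [mul_c, smul_c, smul_a3]; module
  · ext v
    simp only [mul_g3, smul_g3, smul_a3, smul_t, smul_c, Prod.smul_snd, _root_.add_apply,
      _root_.smul_apply, ContinuousLinearMap.comp_apply, ContinuousLinearMap.flip_apply, map_smul,
      smul_eq_mul]; ring
  · simp only [mul_g4, smul_g4, smul_a4]; module
  · simp only [mul_f, smul_f, smul_a5]; module
  · simp only [mul_e1, smul_e1, smul_a6]; module
  · simp only [mul_e2, smul_e2, smul_a6]; module
  · ext v
    simp only [mul_g6, smul_g6, smul_a6, smul_e1, smul_e2, _root_.add_apply,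
      _root_.smul_apply, ContinuousLinearMap.comp_apply, ContinuousLinearMap.flip_apply, map_smul,
      smul_eq_mul]; ring

lemma A_mul_smul (r : ℂ) (a b : Alg D) : a * (r • b) = r • (a * b) := by
  ext1
  · simp only [mul_a1, smul_a1]; ring
  · simp only [mul_a3, smul_a3]; ring
  · simp only [mul_a4, smul_a4]; ring
  · simp only [mul_a5, smul_a5]; ring
  · simp only [mul_a6, smul_a6]; ring
  · simp only [mul_a7, smul_a7]; ring
  · simp only [mul_p, smul_p, smul_a3]; module
  · simp only [mul_q', smul_q, smul_a4, smul_t, smul_e1, b1_smul_right]; module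
  · simp only [mul_x', smul_x, smul_a5, smul_c, smul_e2, b2_smul_right, kap_smul_right]; module
  · simp only [mul_h, smul_h, smul_a6]; module
  · simp only [mul_k, smul_k, smul_a7, smul_g3, smul_g4, smul_f, smul_g6, _root_.smul_apply,
      smul_eq_mul]; ring
  · simp only [mul_t, smul_t, smul_a4]; ring
  · simp only [mul_c, smul_c, smul_a5]; module
  · simp only [mul_g3, smul_g3, smul_a7, smul_g4, smul_f, ContinuousLinearMap.smul_comp]; module
  · simp only [mul_g4, smul_g4, smul_a7]; module
  · simp only [mul_f, smul_f, smul_a7]; module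
  · simp only [mul_e1, smul_e1, smul_a4]; module
  · simp only [mul_e2, smul_e2, smul_a5]; module
  · simp only [mul_g6, smul_g6, smul_a7, smul_g4, smul_f, ContinuousLinearMap.smul_comp]; module

lemma A_zero_mul (a : Alg D) : 0 * a = 0 := by
  have := A_smul_mul (0 : ℂ) (0 : Alg D) a
  rwa [zero_smul, zero_smul] at this

lemma A_mul_zero (a : Alg D) : a * 0 = 0 := by
  have := A_mul_smul (0 : ℂ) a (0 : Alg D)
  rwa [zero_smul, zero_smul] at this

noncomputable instance : Ring (Alg D) :=
  { (inferInstance : AddCommGroup (Alg D)), (inferInstance : Mul (Alg D)),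
    (inferInstance : One (Alg D)) with
    mul_assoc := A_mul_assoc
    one_mul := A_one_mul
    mul_one := A_mul_one
    left_distrib := A_left_distrib
    right_distrib := A_right_distrib
    zero_mul := A_zero_mul
    mul_zero := A_mul_zero }

noncomputable instance : Algebra ℂ (Alg D) := Algebra.ofModule A_smul_mul A_mul_smul

end Alg

end Pool.Agent.R233.NA
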