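import Pool.Agent.R233.NA.TDefs

/-!
# MP_357fb8_an : the tame extension theorem from the one-step lemma (NA-4f)
-/

open Filter Topology
open scoped ENNReal Cardinal

namespace Pool.Agent.R233.NA

section congr

variable {ι Ω B Y : Type} [DecidableEq ι] [LinearOrder Ω] [NormedAddCommGroup B]
    [NormedSpace ℂ B] [NormedAddCommGroup Y] [NormedSpace ℂ Y] {lev : ι → Ω}

omit [LinearOrder Ω] in
theorem bh_congr {x x' : ι → B × L1 (ι × ι)} {𝒜 : Set Ω} {c : L1 ι} (d : L1 ι)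
    (hc : SuppIn lev 𝒜 c) (hx : ∀ l, lev l ∈ 𝒜 → x l = x' l) : bh x c d = bh x' c d := by
  unfold bh
  congr 1
  apply tsum_congr
  intro l
  by_cases h : c l = 0
  · rw [h, zero_mul, zero_smul, zero_smul]
  · rw [hx l (hc l h)]

theorem Good.congr' {x x' : ι → B × L1 (ι × ι)} {t t' : ι → Y} {L : Submodule ℂ B}
    {t0 : L →ₗ[ℂ] Y} {tau tau' : Ω → (B × L1 (ι × ι)) →ₗ[ℂ] Y} {𝒜 : Set Ω}
    {σ : (B × L1 (ι × ι)) →ₗ[ℂ] Y} (hx : ∀ l, lev l ∈ 𝒜 → x l = x' l)
    (ht : ∀ l, lev l ∈ 𝒜 → t l = t' l) (htau : ∀ γ ∈ 𝒜, tau γ = tau' γ)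
    (h : Good lev x t L t0 tau 𝒜 σ) : Good lev x' t' L t0 tau' 𝒜 σ where
  agree γ hγ v hv := by rw [h.agree γ hγ v hv, htau γ hγ]
  prod c d hc hd := by
    rw [← bh_congr d hc hx, h.prod c d hc hd]
    apply tsum_congr
    intro l
    by_cases h0 : c l = 0
    · rw [h0, zero_mul, zero_smul, zero_smul]
    · rw [ht l (hc l h0)]
  base := h.base

end congr

section constr

variable {Ω R B Y : Type} [LinearOrder Ω] [NormedAddCommGroup B] [NormedSpace ℂ B]
    [NormedAddCommGroup Y] [NormedSpace ℂ Y]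

open Classical in
/-- the element number `l` -/
noncomputable def tX (f : R → B × L1 ((Ω × R) × (Ω × R)))
    (T : Ω → (B × L1 ((Ω × R) × (Ω × R))) →ₗ[ℂ] Y) (l : Ω × R) : B × L1 ((Ω × R) × (Ω × R)) :=
  if f l.2 ∈ lowV (B := B) (Prod.fst : Ω × R → Ω) l.1 ∧ ‖f l.2‖ ≤ 1 ∧ ‖T l.1 (f l.2)‖ ≤ 1
    then f l.2 else 0

/-- the value at the element number `l` -/
noncomputable def tT (f : R → B × L1 ((Ω × R) × (Ω × R)))
    (T : Ω → (B × L1 ((Ω × R) × (Ω × R))) →ₗ[ℂ] Y) (l : Ω × R) : Y := T l.1 (tX f T l)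

theorem tX_mem (f : R → B × L1 ((Ω × R) × (Ω × R)))
    (T : Ω → (B × L1 ((Ω × R) × (Ω × R))) →ₗ[ℂ] Y) (l : Ω × R) :
    tX f T l ∈ lowV (B := B) (Prod.fst : Ω × R → Ω) l.1 := by
  unfold tX
  split_ifs with h
  · exact h.1
  · exact Submodule.zero_mem _

theorem tX_norm (f : R → B × L1 ((Ω × R) × (Ω × R)))
    (T : Ω → (B × L1 ((Ω × R) × (Ω × R))) →ₗ[ℂ] Y) (l : Ω × R) : ‖tX f T l‖ ≤ 1 := by
  unfold tX
  split_ifs with h
  · exact h.2.1
  · rw [norm_zero]; exact zero_le_one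

theorem tT_norm (f : R → B × L1 ((Ω × R) × (Ω × R)))
    (T : Ω → (B × L1 ((Ω × R) × (Ω × R))) →ₗ[ℂ] Y) (l : Ω × R) : ‖tT f T l‖ ≤ 1 := by
  unfold tT tX
  split_ifs with h
  · exact h.2.2
  · rw [map_zero, norm_zero]; exact zero_le_one

theorem tX_congr (f : R → B × L1 ((Ω × R) × (Ω × R)))
    {T T' : Ω → (B × L1 ((Ω × R) × (Ω × R))) →ₗ[ℂ] Y} {l : Ω × R} (h : T l.1 = T' l.1) :
    tX f T l = tX f T' l := by
  unfold tX; rw [h]

theorem tT_congr (f : R → B × L1 ((Ω × R) × (Ω × R)))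
    {T T' : Ω → (B × L1 ((Ω × R) × (Ω × R))) →ₗ[ℂ] Y} {l : Ω × R} (h : T l.1 = T' l.1) :
    tT f T l = tT f T' l := by
  unfold tT; rw [tX_congr f h, h]

open Classical in
/-- the truncated family -/
noncomputable def trunc {W : Type} [Zero W] (α : Ω) (prev : ∀ γ, γ < α → W) (γ : Ω) : W :=
  if h : γ < α then prev γ h else 0

open Classical in
/-- one step of the recursion -/
noncomputable def stepT (f : R → B × L1 ((Ω × R) × (Ω × R))) (L : Submodule ℂ B)
    (t0 : L →ₗ[ℂ] Y) (α : Ω) (prev : ∀ γ, γ < α → ((B × L1 ((Ω × R) × (Ω × R))) →ₗ[ℂ] Y)) :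
    (B × L1 ((Ω × R) × (Ω × R))) →ₗ[ℂ] Y :=
  if h : ∃ σ, Good (Prod.fst : Ω × R → Ω) (tX f (trunc α prev)) (tT f (trunc α prev)) L t0
    (trunc α prev) (Set.Iio α) σ then h.choose else 0

end constr

theorem s_tame (he : S_ext) (hb : S_bh) : S_tame := by
  classical
  intro Ω R B Y _ wf _ _ _ _ _ _ f L t0 hcount hf
  set tau : Ω → (B × L1 ((Ω × R) × (Ω × R))) →ₗ[ℂ] Y :=
    wf.wf.fix (stepT f L t0) with htau
  have htau_eq : ∀ α, tau α = stepT f L t0 α (fun γ _ => tau γ) := by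
    intro α
    rw [htau, WellFounded.fix_eq]
  -- all levels are good
  have hgood : ∀ α, Good (Prod.fst : Ω × R → Ω) (tX f tau) (tT f tau) L t0 tau
      (Set.Iio α) (tau α) := by
    intro α
    induction α using wf.wf.induction with
    | _ α ih =>
      set T' : Ω → (B × L1 ((Ω × R) × (Ω × R))) →ₗ[ℂ] Y := trunc α (fun γ _ => tau γ) with hT'
      have hT : ∀ γ, γ < α → T' γ = tau γ := by
        intro γ hγ
        rw [hT', trunc, dif_pos hγ]
      have hex : ∃ σ, Good (Prod.fst : Ω × R → Ω) (tX f T') (tT f T') L t0 T' (Set.Iio α) σ := by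
        apply he (Ω × R) Ω B Y Prod.fst (tX f T') (tT f T') L t0 T' (Set.Iio α)
          (isLowerSet_Iio α) (tX_mem f T') (tX_norm f T') (tT_norm f T') (fun _ _ => rfl)
        intro γ hγ
        rw [hT γ hγ]
        refine Good.congr' (x := tX f tau) (t := tT f tau) (tau := tau) ?_ ?_ ?_ (ih γ hγ)
        · intro l hl
          exact tX_congr f (hT l.1 (lt_trans hl hγ)).symm
        · intro l hl
          exact tT_congr f (hT l.1 (lt_trans hl hγ)).symm
        · intro δ hδ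
          exact (hT δ (lt_trans hδ hγ)).symm
      have h1 : Good (Prod.fst : Ω × R → Ω) (tX f T') (tT f T') L t0 T' (Set.Iio α) (tau α) := by
        rw [htau_eq α, stepT, dif_pos hex]
        exact hex.choose_spec
      refine Good.congr' ?_ ?_ ?_ h1
      · intro l hl
        exact tX_congr f (hT l.1 hl)
      · intro l hl
        exact tT_congr f (hT l.1 hl)
      · intro δ hδ
        exact hT δ hδ
  obtain ⟨τ, hτ⟩ := he (Ω × R) Ω B Y Prod.fst (tX f tau) (tT f tau) L t0 tau Set.univ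
    isLowerSet_univ (tX_mem f tau) (tX_norm f tau) (tT_norm f tau) (fun _ _ => rfl)
    (fun γ _ => hgood γ)
  obtain ⟨⟨bt, hbt⟩, hsingle, -, hcoord⟩ := hb (Ω × R) B (tX f tau) (tX_norm f tau)
  have hsupp : ∀ c : L1 (Ω × R), SuppIn (Prod.fst : Ω × R → Ω) Set.univ c :=
    fun c i _ => Set.mem_univ _
  refine ⟨τ, bt, hτ.base, ?_, ?_, ?_⟩
  · intro c d
    rw [hbt, hτ.prod c d (hsupp c) (hsupp d)]
    have hsum : Summable fun l => ‖c l‖ * ‖d‖ := (l1_summable c).mul_right _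
    have hle : ∀ l, ‖(c l * d l) • tT f tau l‖ ≤ ‖c l‖ * ‖d‖ := by
      intro l
      rw [norm_smul, norm_mul]
      have e1 : ‖d l‖ ≤ ‖d‖ := lp.norm_apply_le_norm (by norm_num) d l
      calc ‖c l‖ * ‖d l‖ * ‖tT f tau l‖ ≤ ‖c l‖ * ‖d l‖ * 1 :=
            mul_le_mul_of_nonneg_left (tT_norm f tau l) (by positivity)
        _ ≤ ‖c l‖ * ‖d‖ := by
            rw [mul_one]; exact mul_le_mul_of_nonneg_left e1 (norm_nonneg _)
    calc ‖∑' l, (c l * d l) • tT f tau l‖ ≤ ∑' l, ‖c l‖ * ‖d‖ :=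
          tsum_of_norm_bounded hsum.hasSum hle
      _ = (∑' l, ‖c l‖) * ‖d‖ := tsum_mul_right
      _ = ‖c‖ * ‖d‖ := by
          congr 1
          rw [lp.norm_eq_tsum_rpow (by norm_num) c]
          simp
  · intro v hv hτv
    obtain ⟨r, rfl⟩ := hf v
    -- the levels in the support of `v`
    have hcs : (Function.support fun p => (f r).2 p).Countable := by
      have := (l1_summable (f r).2).countable_support
      refine this.mono ?_
      intro p hp
      rw [Function.mem_support] at hp ⊢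
      exact norm_ne_zero_iff.2 hp
    obtain ⟨α, hα⟩ := hcount ((fun p : (Ω × R) × (Ω × R) => p.1.1) ''
      (Function.support fun p => (f r).2 p) ∪ (fun p : (Ω × R) × (Ω × R) => p.2.1) ''
      (Function.support fun p => (f r).2 p)) ((hcs.image _).union (hcs.image _))
    have hlow : f r ∈ lowV (B := B) (Prod.fst : Ω × R → Ω) α := by
      intro i j hij
      exact ⟨hα _ (Or.inl ⟨(i, j), hij, rfl⟩), hα _ (Or.inr ⟨(i, j), hij, rfl⟩)⟩
    have h1 : tau α (f r) = τ (f r) := (hτ.agree α (Set.mem_univ _) _ hlow).symm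
    have h2 : tX f tau (α, r) = f r := by
      unfold tX
      rw [if_pos ⟨hlow, hv, by rw [h1]; exact hτv⟩]
    have h3 : ‖(lp.single 1 (α, r) (1 : ℂ) : L1 (Ω × R))‖ ≤ 1 := by
      rw [lp.norm_single (by norm_num)]
      simp
    refine ⟨lp.single 1 (α, r) (1 : ℂ), lp.single 1 (α, r) (1 : ℂ), h3, h3, ?_⟩
    rw [hbt, hsingle, h2]
  · intro d hd
    ext j
    -- another index
    obtain ⟨i, hij⟩ : ∃ i : Ω × R, i ≠ j := by
      have hnt : ∃ r, r ≠ j.2 := by
        by_contra hcon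
        push Not at hcon
        obtain ⟨r1, hr1⟩ := hf 0
        obtain ⟨r2, hr2⟩ := hf (0, lp.single 1 (j, j) (1 : ℂ))
        rw [hcon r1] at hr1
        rw [hcon r2, hr1] at hr2
        have h1 := congrArg (fun v : B × L1 ((Ω × R) × (Ω × R)) => v.2 (j, j)) hr2
        simp at h1
      obtain ⟨r, hr⟩ := hnt
      exact ⟨(j.1, r), fun h => hr (congrArg Prod.snd h)⟩
    have h1 := hd (lp.single 1 i (1 : ℂ))
    rw [hbt] at h1
    have h2 := hcoord (lp.single 1 i (1 : ℂ)) d i j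
    rw [h1, if_neg hij] at h2
    have h3 : ∑' l, (lp.single 1 i (1 : ℂ) : L1 (Ω × R)) l * d l * (tX f tau l).2 (i, j) =
        (lp.single 1 i (1 : ℂ) : L1 (Ω × R)) i * d i * (tX f tau i).2 (i, j) := by
      apply tsum_eq_single
      intro l hl
      rw [lp.single_apply_ne _ _ _ hl, zero_mul, zero_mul]
    have h4 : (tX f tau i).2 (i, j) = 0 := by
      by_contra hne
      exact lt_irrefl _ (tX_mem f tau i i j hne).1
    rw [h3, h4, mul_zero, add_zero, lp.single_apply_self, one_mul] at h2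
    exact h2.symm

end Pool.Agent.R233.NA
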