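import Pool.Agent.R233.NA.Class
import Pool.Agent.R233.NA.FA
import Pool.Agent.R233.NA.Matrix
import Pool.Agent.R233.NA.Card
import Pool.Agent.R233.NA.Bh
import Pool.Agent.R233.NA.Ext
import Pool.Agent.R233.NA.Tame
import Pool.Agent.R233.NA.Inst
import Pool.Agent.R233.NA.Ring
import Pool.Agent.R233.NA.Nrm
import Pool.Agent.R233.NA.AlgClass

/-!
# MP_357fb8_an : final assembly
-/

namespace Pool.Agent.R233.NA


/-- a multiple of an algebra norm up to a constant is an algebra norm -/
lemma isBAlgNorm_mul {A : Type} [Ring A] [Algebra ℂ A] {n : A → ℝ} (h : IsBNorm n) {K : ℝ}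
    (hK : 0 < K) (hm : ∀ a b, n (a * b) ≤ K * (n a * n b)) : IsBAlgNorm (fun a => K * n a) where
  eq_zero a ha := h.eq_zero a (by
    rcases mul_eq_zero.1 ha with h' | h'
    · exact absurd h' hK.ne'
    · exact h')
  add_le a b := by
    have := mul_le_mul_of_nonneg_left (h.add_le a b) hK.le
    linarith
  smul c a := by simp only [h.smul]; ring
  complete u hu := by
    obtain ⟨a, ha⟩ := h.complete u (by
      intro ε hε
      obtain ⟨N, hN⟩ := hu (K * ε) (by positivity)
      exact ⟨N, fun i hi j hj => lt_of_mul_lt_mul_left (hN i hi j hj) hK.le⟩)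
    refine ⟨a, fun ε hε => ?_⟩
    obtain ⟨N, hN⟩ := ha (ε / K) (by positivity)
    refine ⟨N, fun i hi => ?_⟩
    have := mul_lt_mul_of_pos_left (hN i hi) hK
    rwa [mul_div_cancel₀ _ hK.ne'] at this
  mul_le a b := by
    have := mul_le_mul_of_nonneg_left (hm a b) hK.le
    calc K * n (a * b) ≤ K * (K * (n a * n b)) := this
      _ = K * n a * (K * n b) := by ring

lemma normEquiv_smul {V : Type*} {n n' : V → ℝ} {K K' : ℝ} (hK : 0 < K) (hK' : 0 < K') :
    NormEquiv (fun v => K * n v) (fun v => K' * n' v) ↔ NormEquiv n n' := by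
  constructor
  · rintro ⟨c, C, hc, hC, h⟩
    refine ⟨c * K / K', C * K / K', by positivity, by positivity, fun v => ⟨?_, ?_⟩⟩
    · rw [div_mul_eq_mul_div, div_le_iff₀ hK']
      have := (h v).1
      linarith
    · rw [div_mul_eq_mul_div, le_div_iff₀ hK']
      have := (h v).2
      linarith
  · rintro ⟨c, C, hc, hC, h⟩
    refine ⟨c * K' / K, C * K' / K, by positivity, by positivity, fun v => ⟨?_, ?_⟩⟩
    · have := mul_le_mul_of_nonneg_left (h v).1 hK'.le
      calc c * K' / K * (K * n v) = K' * (c * n v) := by field_simp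
        _ ≤ K' * n' v := this
    · have := mul_le_mul_of_nonneg_left (h v).2 hK'.le
      calc K' * n' v ≤ K' * (C * n v) := this
        _ = C * K' / K * (K * n v) := by field_simp

theorem final : ∃ (A : Type) (_ : Ring A) (_ : Algebra ℂ A) (n0 n1 : A → ℝ),
    IsBAlgNorm n0 ∧ IsBAlgNorm n1 ∧ ¬ NormEquiv n0 n1 ∧
    ∀ n : A → ℝ, IsBAlgNorm n → NormEquiv n n0 ∨ NormEquiv n n1 := by
  have hbh := s_bh
  have hext := s_ext s_matrix hbh
  have htame := s_tame hext hbh
  have hclass := s_class s_dominated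
  obtain ⟨M, Z, H, E₁, E₂, Y, C, i1, i2, i3, i4, i5, i6, i7, i8, i9, i10, i11, i12, i13, i14,
    c1, c2, c3, c4, c5, c6, c7, ⟨D⟩⟩ := s_dat htame s_omega s_card
  obtain ⟨hn, hne⟩ := s_nrm M Z H E₁ E₂ Y C D
  obtain ⟨h0, K0, hK0, hm0⟩ := hn 0 (Or.inl rfl)
  obtain ⟨h1, K1, hK1, hm1⟩ := hn 1 (Or.inr rfl)
  refine ⟨Alg D, inferInstance, inferInstance, fun a => K0 * Alg.nrm 0 a,
    fun a => K1 * Alg.nrm 1 a, isBAlgNorm_mul h0 hK0 hm0, isBAlgNorm_mul h1 hK1 hm1, ?_, ?_⟩
  · rw [normEquiv_smul hK0 hK1]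
    exact hne
  · intro n hn'
    rcases s_algclass s_two_norms s_dominated hclass M Z H E₁ E₂ Y C D n hn'.toIsBNorm
      hn'.mul_le with h | h
    · left
      have := (normEquiv_smul (n := n) (n' := Alg.nrm 0) one_pos hK0).2 h
      simpa using this
    · right
      have := (normEquiv_smul (n := n) (n' := Alg.nrm 1) one_pos hK1).2 h
      simpa using this

end Pool.Agent.R233.NA
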