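import Pool.Agent.R233.NA.Defs

/-!
# MP_357fb8_an : statements of the pieces (project NA).  Proofs: see NOTES.md in this folder.
-/

open Filter Topology
open scoped ENNReal Cardinal

namespace Pool.Agent.R233.NA

/-- NA-1a (closed graph theorem for norm functions). -/
def S_two_norms : Prop :=
  ∀ (V : Type) [NormedAddCommGroup V] [NormedSpace ℂ V] [CompleteSpace V] (n : V → ℝ),
    IsBNorm n →
    (∀ (v : ℕ → V) (w : V), Tendsto v atTop (𝓝 0) → Tendsto (fun k => n (v k - w)) atTop (𝓝 0) →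
      w = 0) →
    ∃ K : ℝ, 0 < K ∧ (∀ v, n v ≤ K * ‖v‖) ∧ ∀ v, ‖v‖ ≤ K * n v

/-- NA-1b (open mapping theorem for norm functions). -/
def S_dominated : Prop :=
  ∀ (V : Type) [AddCommGroup V] [Module ℂ V] (n n' : V → ℝ),
    IsBNorm n → IsBNorm n' → (∃ K : ℝ, ∀ v, n' v ≤ K * n v) → ∃ K : ℝ, ∀ v, n v ≤ K * n' v

/-- NA-3 (classification at the level of components; helper233 does this one). -/
def S_class : Prop :=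
  ∀ (M Z H E₁ E₂ Y C : Type)
    [NormedAddCommGroup M] [NormedSpace ℂ M] [CompleteSpace M]
    [NormedAddCommGroup Z] [NormedSpace ℂ Z] [CompleteSpace Z]
    [NormedAddCommGroup H] [NormedSpace ℂ H] [CompleteSpace H]
    [NormedAddCommGroup E₁] [NormedSpace ℂ E₁] [CompleteSpace E₁]
    [NormedAddCommGroup E₂] [NormedSpace ℂ E₂] [CompleteSpace E₂]
    [NormedAddCommGroup Y] [NormedSpace ℂ Y] [CompleteSpace Y]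
    [NormedAddCommGroup C] [NormedSpace ℂ C] [CompleteSpace C]
    (D : Dat M Z H E₁ E₂ Y C) (nP nQ : ℂ × M → ℝ) (nX : ℂ × M × Z → ℝ),
    IsBNorm nP → IsBNorm nQ → IsBNorm nX →
    (∃ K : ℝ, ∀ q : ℂ × M, ‖q.2‖ ≤ K * nQ q) →
    (∃ K : ℝ, ∀ x : ℂ × M × Z, ‖x.2.2‖ ≤ K * nX x) →
    (∃ K : ℝ, ∀ h e, nQ (0, D.bM h e) ≤ K * (‖h‖ * ‖e‖)) →
    (∃ K : ℝ, ∀ h e, nX (0, 0, D.bZ h e) ≤ K * (‖h‖ * ‖e‖)) →
    (∃ K : ℝ, ∀ p, nQ p ≤ K * nP p) →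
    (∃ K : ℝ, ∀ p : ℂ × M, nX (p.1, p.2, 0) ≤ K * nP p) →
    (∃ K : ℝ, ∀ (p : ℂ × M) (c : C),
      nX (-(D.sg c * p.1), p.1 • D.inc (D.ub c), D.j p.2 c) ≤ K * (nP p * ‖c‖)) →
    (NormEquiv nP (D.nP 0) ∧ NormEquiv nQ (D.nP 0) ∧ NormEquiv nX (D.nX 0)) ∨
    (NormEquiv nP (D.nP 1) ∧ NormEquiv nQ (D.nP 1) ∧ NormEquiv nX (D.nX 1))

/-- NA-4a (the matrix lemma). -/
def S_matrix : Prop :=
  ∀ (ι Ω K : Type) [LinearOrder Ω] [Fintype K] (lev : ι → Ω)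
    (x : ι → lp (fun _ : ι × ι => ℂ) 1) (c d : K → lp (fun _ : ι => ℂ) 1)
    (𝒜 : Set Ω) (γ : Ω),
    (∀ l, ‖x l‖ ≤ 1) →
    (∀ l i j, x l (i, j) ≠ 0 → lev i < lev l ∧ lev j < lev l) →
    γ ∈ 𝒜 →
    (∀ k i, lev i ∉ 𝒜 → c k i = 0) → (∀ k i, lev i ∉ 𝒜 → d k i = 0) →
    (∀ i j, i ≠ j → (γ ≤ lev i ∨ γ ≤ lev j) →
      (∑ k, c k i * d k j) + ∑' l, (∑ k, c k l * d k l) * x l (i, j) = 0) →
    ∃ ρ ∈ 𝒜, γ ≤ ρ ∧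
      (∀ i j, (ρ < lev i ∨ ρ < lev j) → ∑ k, c k i * d k j = 0) ∧
      (∀ i j, i ≠ j → (ρ ≤ lev i ∨ ρ ≤ lev j) → ∑ k, c k i * d k j = 0) ∧
      {l | ρ ≤ lev l ∧ ∑ k, c k l * d k l ≠ 0}.Finite

/-- NA-4 (tame linear maps). -/
def S_tame : Prop :=
  ∀ (Ω R B Y : Type) [LinearOrder Ω] [WellFoundedLT Ω]
    [NormedAddCommGroup B] [NormedSpace ℂ B] [CompleteSpace B]
    [NormedAddCommGroup Y] [NormedSpace ℂ Y] [CompleteSpace Y]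
    (f : R → B × lp (fun _ : (Ω × R) × (Ω × R) => ℂ) 1)
    (L : Submodule ℂ B) (t0 : L →ₗ[ℂ] Y),
    (∀ s : Set Ω, s.Countable → ∃ α, ∀ γ ∈ s, γ < α) →
    Function.Surjective f →
    ∃ (τ : (B × lp (fun _ : (Ω × R) × (Ω × R) => ℂ) 1) →ₗ[ℂ] Y)
      (bt : lp (fun _ : Ω × R => ℂ) 1 →L[ℂ] lp (fun _ : Ω × R => ℂ) 1 →L[ℂ]
        (B × lp (fun _ : (Ω × R) × (Ω × R) => ℂ) 1)),
      (∀ b : L, τ ((b : B), 0) = t0 b) ∧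
      (∀ c d, ‖τ (bt c d)‖ ≤ ‖c‖ * ‖d‖) ∧
      (∀ v, ‖v‖ ≤ 1 → ‖τ v‖ ≤ 1 → ∃ c d, ‖c‖ ≤ 1 ∧ ‖d‖ ≤ 1 ∧ bt c d = v) ∧
      (∀ d, (∀ c, bt c d = 0) → d = 0)

/-- NA-4b (existence of `ω₁`). -/
def S_omega : Prop :=
  ∃ (Ω : Type) (_ : LinearOrder Ω), WellFoundedLT Ω ∧ #Ω ≤ 𝔠 ∧
    ∀ s : Set Ω, s.Countable → ∃ α, ∀ γ ∈ s, γ < α

/-- NA-4c (cardinality of `ℓ¹` spaces). -/
def S_card : Prop :=
  ∀ (ι V : Type) [NormedAddCommGroup V] [NormedSpace ℂ V],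
    #ι ≤ 𝔠 → #V ≤ 𝔠 → #(lp (fun _ : ι => V) 1) ≤ 𝔠

/-- NA-5 (existence of the data). -/
def S_dat : Prop :=
  ∃ (M Z H E₁ E₂ Y C : Type)
    (_ : NormedAddCommGroup M) (_ : NormedSpace ℂ M)
    (_ : NormedAddCommGroup Z) (_ : NormedSpace ℂ Z)
    (_ : NormedAddCommGroup H) (_ : NormedSpace ℂ H)
    (_ : NormedAddCommGroup E₁) (_ : NormedSpace ℂ E₁)
    (_ : NormedAddCommGroup E₂) (_ : NormedSpace ℂ E₂)
    (_ : NormedAddCommGroup Y) (_ : NormedSpace ℂ Y)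
    (_ : NormedAddCommGroup C) (_ : NormedSpace ℂ C),
    CompleteSpace M ∧ CompleteSpace Z ∧ CompleteSpace H ∧ CompleteSpace E₁ ∧ CompleteSpace E₂ ∧
    CompleteSpace Y ∧ CompleteSpace C ∧ Nonempty (Dat M Z H E₁ E₂ Y C)

end Pool.Agent.R233.NA
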