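import Pool.Agent.R233.NA.Stm

/-!
# MP_357fb8_an : definitions for the tame extension theorem (NA-4)
-/

open Filter Topology
open scoped ENNReal Cardinal

namespace Pool.Agent.R233.NA

/-- `ℓ¹(ι)` -/
noncomputable abbrev L1 (ι : Type) := lp (fun _ : ι => ℂ) 1

lemma l1_summable {ι : Type} (c : L1 ι) : Summable fun i => ‖c i‖ := by
  have := (lp.memℓp c).summable (by norm_num)
  simpa using this

/-- the elementary tensor `c ⊗ d ∈ ℓ¹(ι × ι)` -/
noncomputable def ten {ι : Type} (c d : L1 ι) : L1 (ι × ι) :=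
  ⟨fun p => c p.1 * d p.2, by
    apply memℓp_gen
    have h := (l1_summable c).mul_of_nonneg (l1_summable d) (fun _ => norm_nonneg _)
      (fun _ => norm_nonneg _)
    simpa using h⟩

/-- the value of the bilinear map: `c ⊗ d + ∑ l, c l * d l • (x l - (0, δ_(l,l)))` -/
noncomputable def bh {ι B : Type} [DecidableEq ι] [NormedAddCommGroup B] [NormedSpace ℂ B]
    (x : ι → B × L1 (ι × ι)) (c d : L1 ι) : B × L1 (ι × ι) :=
  (0, ten c d) + ∑' l, (c l * d l) • (x l - (0, lp.single 1 (l, l) (1 : ℂ)))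

/-- elements of `B × ℓ¹(ι × ι)` supported on levels `< α` -/
def lowV {ι Ω B : Type} [LinearOrder Ω] [NormedAddCommGroup B] [NormedSpace ℂ B]
    (lev : ι → Ω) (α : Ω) : Submodule ℂ (B × L1 (ι × ι)) where
  carrier := {v | ∀ i j, v.2 (i, j) ≠ 0 → lev i < α ∧ lev j < α}
  add_mem' := by
    intro a b ha hb i j h
    by_cases h1 : a.2 (i, j) = 0
    · by_cases h2 : b.2 (i, j) = 0
      · exfalso; apply h; simp [h1, h2]
      · exact hb i j h2
    · exact ha i j h1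
  zero_mem' := by intro i j h; simp at h
  smul_mem' := by
    intro c a ha i j h
    apply ha i j
    intro h0; apply h; simp [h0]

/-- the sequence `c` is supported on levels in `𝒜` -/
def SuppIn {ι Ω : Type} (lev : ι → Ω) (𝒜 : Set Ω) (c : L1 ι) : Prop := ∀ i, c i ≠ 0 → lev i ∈ 𝒜

/-- the requirement at level `𝒜` (a lower set) for the map `σ`, given the maps `tau γ` of the
levels `γ ∈ 𝒜` and the values `t l` of the elements `x l`. -/
structure Good {ι Ω B Y : Type} [DecidableEq ι] [LinearOrder Ω] [NormedAddCommGroup B]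
    [NormedSpace ℂ B] [NormedAddCommGroup Y] [NormedSpace ℂ Y] (lev : ι → Ω)
    (x : ι → B × L1 (ι × ι)) (t : ι → Y) (L : Submodule ℂ B) (t0 : L →ₗ[ℂ] Y)
    (tau : Ω → (B × L1 (ι × ι)) →ₗ[ℂ] Y) (𝒜 : Set Ω) (σ : (B × L1 (ι × ι)) →ₗ[ℂ] Y) : Prop where
  agree : ∀ γ ∈ 𝒜, ∀ v ∈ lowV (B := B) lev γ, σ v = tau γ v
  prod : ∀ c d : L1 ι, SuppIn lev 𝒜 c → SuppIn lev 𝒜 d → σ (bh x c d) = ∑' l, (c l * d l) • t l
  base : ∀ b : L, σ ((b : B), 0) = t0 b

/-- NA-4d (one step of the recursion). -/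
def S_ext : Prop :=
  ∀ (ι Ω B Y : Type) [DecidableEq ι] [LinearOrder Ω]
    [NormedAddCommGroup B] [NormedSpace ℂ B] [CompleteSpace B]
    [NormedAddCommGroup Y] [NormedSpace ℂ Y] [CompleteSpace Y]
    (lev : ι → Ω) (x : ι → B × L1 (ι × ι)) (t : ι → Y) (L : Submodule ℂ B) (t0 : L →ₗ[ℂ] Y)
    (tau : Ω → (B × L1 (ι × ι)) →ₗ[ℂ] Y) (𝒜 : Set Ω),
    IsLowerSet 𝒜 →
    (∀ l, x l ∈ lowV (B := B) lev (lev l)) → (∀ l, ‖x l‖ ≤ 1) → (∀ l, ‖t l‖ ≤ 1) →
    (∀ l, lev l ∈ 𝒜 → tau (lev l) (x l) = t l) →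
    (∀ γ ∈ 𝒜, Good lev x t L t0 tau (Set.Iio γ) (tau γ)) →
    ∃ σ, Good lev x t L t0 tau 𝒜 σ

/-- NA-4e (the bilinear map `bh x` is bounded, plus its values on unit vectors). -/
def S_bh : Prop :=
  ∀ (ι B : Type) [DecidableEq ι] [NormedAddCommGroup B] [NormedSpace ℂ B] [CompleteSpace B]
    (x : ι → B × L1 (ι × ι)), (∀ l, ‖x l‖ ≤ 1) →
    (∃ bt : L1 ι →L[ℂ] L1 ι →L[ℂ] (B × L1 (ι × ι)), ∀ c d, bt c d = bh x c d) ∧
    (∀ l, bh x (lp.single 1 l (1 : ℂ)) (lp.single 1 l (1 : ℂ)) = x l) ∧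
    (∀ c d : L1 ι, Summable fun l => (c l * d l) • (x l - (0, lp.single 1 (l, l) (1 : ℂ)))) ∧
    (∀ (c d : L1 ι) (i j : ι), (bh x c d).2 (i, j) =
      (if i = j then 0 else c i * d j) + ∑' l, c l * d l * (x l).2 (i, j))

end Pool.Agent.R233.NA
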